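import Pool.Agent.MP_bd94e8_al.H83.Rank

/-!
Local endomorphism rings and the radical.
-/

set_option autoImplicit false
set_option linter.unusedSectionVars false

namespace Pool.Agent.MP_bd94e8_al.H83

open Module Function

variable {A : Type} [Ring A] {M N P : Type} [AddCommGroup M] [Module A M] [AddCommGroup N]
  [Module A N] [AddCommGroup P] [Module A P]

theorem Indec.unit_or_nil [IsArtinian A M] [IsNoetherian A M] (h : Indec A M) (u : End A M) :
    IsUnit u ∨ IsNilpotent u := by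
  obtain ⟨n, h1, h2⟩ := (u.eventually_isCompl_ker_pow_range_pow.and
    (Filter.eventually_gt_atTop 0)).exists
  rcases h.2 _ _ h1 with e | e
  · have := End.injective_of_iterate_injective h2.ne' (LinearMap.ker_eq_bot.1 e)
    exact Or.inl ((End.isUnit_iff _).2 ⟨this, IsArtinian.surjective_of_injective_endomorphism _ this⟩)
  · exact Or.inr ⟨n, LinearMap.range_eq_bot.1 e⟩

theorem Indec.loc [IsArtinian A M] [IsNoetherian A M] (h : Indec A M) : IsLocalRing (End A M) := by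
  have := h.1
  exact IsLocalRing.of_isUnit_or_isUnit_one_sub_self fun u =>
    (h.unit_or_nil u).imp_right IsNilpotent.isUnit_one_sub

theorem exists_retr {u : M →ₗ[A] N} {v : N →ₗ[A] M} (h : IsUnit (v ∘ₗ u)) :
    ∃ t : N →ₗ[A] M, t ∘ₗ u = LinearMap.id :=
  ⟨(↑h.unit⁻¹ : End A M) ∘ₗ v, h.val_inv_mul⟩

theorem exists_sect {u : M →ₗ[A] N} {v : N →ₗ[A] M} (h : IsUnit (u ∘ₗ v)) :
    ∃ t : N →ₗ[A] M, u ∘ₗ t = LinearMap.id :=
  ⟨v ∘ₗ (↑h.unit⁻¹ : End A N), h.mul_val_inv⟩

theorem Indec.bij (h : Indec A N) [Nontrivial M] {u : M →ₗ[A] N} {t : N →ₗ[A] M}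
    (e : t ∘ₗ u = LinearMap.id) : Bijective u ∧ Bijective t := by
  have h1 : ∀ x, t (u x) = x := LinearMap.congr_fun e
  have hi : Injective u := LeftInverse.injective h1
  have hc : IsCompl (LinearMap.range u) (LinearMap.ker t) := by
    refine ⟨Submodule.disjoint_def.2 ?_, codisjoint_iff.2 (top_unique fun y _ => ?_)⟩
    · rintro _ ⟨x, rfl⟩ hx
      rw [← h1 x, hx, map_zero]
    · rw [← add_sub_cancel (u (t y)) y]
      exact Submodule.add_mem_sup ⟨_, rfl⟩ (by simp [h1])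
  have ht : Injective t := LinearMap.ker_eq_bot.1 ((h.2 _ _ hc).resolve_left fun e => by
    obtain ⟨x, hx⟩ := exists_ne (0 : M)
    rw [LinearMap.range_eq_bot.1 e] at h1
    exact hx (by simpa using (h1 x).symm))
  exact ⟨⟨hi, fun y => ⟨t y, ht (h1 _)⟩⟩, ht, RightInverse.surjective h1⟩

variable (R : Type) [Ring R]

variable (A M N) in
/-- Maps that are not split monomorphisms. -/
def Rad [IsLocalRing (End A M)] [Module R N] [SMulCommClass A R N] : Submodule R (M →ₗ[A] N) where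
  carrier := {u | ∀ v : N →ₗ[A] M, ¬ IsUnit (v ∘ₗ u)}
  zero_mem' v := by simp
  add_mem' {a b} ha hb v h := by
    rw [LinearMap.comp_add] at h
    exact (IsLocalRing.isUnit_or_isUnit_of_isUnit_add h).elim (ha v) (hb v)
  smul_mem' c u hu v := hu (v ∘ₗ (c • LinearMap.id))

variable {R} [IsLocalRing (End A M)] [Module R N] [SMulCommClass A R N]

theorem mem_rad {u : M →ₗ[A] N} : u ∈ Rad A M N R ↔ ¬ ∃ t : N →ₗ[A] M, t ∘ₗ u = LinearMap.id :=
  ⟨fun h ⟨t, e⟩ => h t (e ▸ isUnit_one), fun h _ hv => h (exists_retr hv)⟩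

theorem mem_rad' (h : Indec A N) {u : M →ₗ[A] N} : u ∈ Rad A M N R ↔ ¬ Bijective u := by
  have : Nontrivial M := by
    by_contra hn
    rw [not_nontrivial_iff_subsingleton] at hn
    exact zero_ne_one (Subsingleton.elim (0 : End A M) 1)
  rw [mem_rad]
  refine not_congr ⟨fun ⟨t, e⟩ => (h.bij e).1, fun hb => ?_⟩
  exact ⟨(LinearEquiv.ofBijective u hb).symm.toLinearMap, LinearMap.ext fun x =>
    (LinearEquiv.ofBijective u hb).symm_apply_apply x⟩

theorem rad_post {R' : Type} [Ring R'] [Module R' P] [SMulCommClass A R' P] {u : M →ₗ[A] N}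
    (h : u ∈ Rad A M N R) (w : N →ₗ[A] P) : w ∘ₗ u ∈ Rad A M P R' := fun v => h (v ∘ₗ w)

theorem not_sect (hM : Indec A M) (hN : Indec A N) {u : M →ₗ[A] N} (h : u ∈ Rad A M N R) :
    ¬ ∃ s : N →ₗ[A] M, u ∘ₗ s = LinearMap.id := fun ⟨_, e⟩ =>
  have := hN.1
  (mem_rad' hN).1 h (hM.bij e).2

end Pool.Agent.MP_bd94e8_al.H83
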