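import Pool.Agent.MP_bd94e8_al.H83.Hahn
import Pool.Agent.MP_bd94e8_al.H83.Rad

/-!
Without generic modules, every bimodule of finite length over the Hahn series is induced.
-/

set_option autoImplicit false
set_option linter.unusedSectionVars false

namespace Pool.Agent.MP_bd94e8_al.H83

open Module Function Finset H

variable {C : Type} [CommRing C] [IsArtinianRing C] {A : Type} [Ring A] [Algebra C A]
  [Module.Finite C A]

theorem cf_lead {M M' P : Type} [AddCommGroup M] [Module C M] [Module.Finite C M] [AddCommGroup M']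
    [Module C M'] [AddCommGroup P] [Module C P] (B : M →ₗ[C] M' →ₗ[C] P) (z : H C M')
    (Φ : H C M →ₗ[K C] H C P) (hΦ : ∀ x, Φ (sgl C M C x) = map (B x) z) (y : H C M) {a b : Gam}
    (ha : ∀ g, y.cf g ≠ 0 → a ≤ g) (hb : ∀ g, z.cf g ≠ 0 → b ≤ g) :
    (Φ y).cf (a + b) = B (y.cf a) (z.cf b) := by
  obtain ⟨n, x, hx⟩ := Module.Finite.exists_fin (R := C) (M := M)
  obtain ⟨c, hc⟩ := exists_sum (A := C) x y fun _ => hx ▸ trivial
  have hs : (insert a (⋃ i ∈ (univ : Finset (Fin n)), (c i).support)).IsPWO :=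
    ((isPWO_bUnion _).2 fun i _ => (c i).isPWO_support).insert a
  have h1 : ∀ g, y.cf g = ∑ i, (c i).coeff g • x i := fun g => by
    rw [hc, cf_sum]; simp [cf_smul_sgl]
  have h2 : (Φ y).cf (a + b) =
      ∑ p ∈ antidiagonal hs (z.pwo.insert b) (a + b), B (y.cf p.1) (z.cf p.2) := by
    conv_lhs => rw [hc, map_sum, cf_sum]
    simp only [h1, map_sum, LinearMap.sum_apply]
    rw [sum_comm]
    refine sum_congr rfl fun i _ => ?_
    rw [map_smul, hΦ, cf_smul _ _ hs (z.pwo.insert b)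
      (fun g hg => Or.inr (Set.mem_biUnion (mem_univ i) hg))
      (fun g hg => Or.inr fun e => hg (by simp [e]))]
    simp
  rw [h2, sum_eq_single (a, b)]
  · intro p hp hne
    by_contra h
    have h3 := ha p.1 fun e => h (by simp [e])
    have h4 := hb p.2 fun e => h (by simp [e])
    have h5 := (add_eq_add_iff_eq_and_eq h3 h4).1 (mem_antidiagonal.1 hp).2.2.symm
    exact hne (Prod.ext h5.1.symm h5.2.symm)
  · intro h
    exact (h (mem_antidiagonal.2 ⟨by simp, by simp, rfl⟩)).elim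

section
variable {B M : Type} [AddCommGroup B] [Module A B] [AddCommGroup M] [Module A M] [Module C M]
  [IsScalarTower C A M]

variable (C) in
/-- A series of maps is a map to series. -/
noncomputable def toHom : H C (B →ₗ[A] M) →ₗ[K C] (B →ₗ[A] H C M) where
  toFun y := ⟨⟨fun x => map (ev C A M x) y, fun a b => by ext; simp [ev]⟩,
    fun a b => by ext; simp [ev]⟩
  map_add' y z := by ext; simp
  map_smul' c y := by ext; simp

@[simp] theorem cf_toHom (y : H C (B →ₗ[A] M)) (x : B) (g : Gam) :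
    (toHom C y x).cf g = y.cf g x := rfl

theorem toHom_bij [Module.Finite A B] : Bijective (toHom C (A := A) (B := B) (M := M)) := by
  refine ⟨fun y z e => H.ext fun g => LinearMap.ext fun x =>
    congrArg (fun w : B →ₗ[A] H C M => (w x).cf g) e, fun u => ?_⟩
  obtain ⟨n, x, hx⟩ := Module.Finite.exists_fin (R := A) (M := B)
  refine ⟨H.mk (fun g => ⟨⟨fun b => (u b).cf g, fun a b => by simp⟩, fun a b => by simp⟩)
    (((isPWO_bUnion univ).2 fun i _ => (u (x i)).pwo).mono fun g hg => ?_), by ext; rfl⟩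
  by_contra h
  refine hg (LinearMap.ext_on_range hx fun i => ?_)
  by_contra e
  exact h (Set.mem_biUnion (mem_univ i) e)

theorem toHom_sgl (u : B →ₗ[A] M) : toHom C (sgl C _ C u) = sgl C M A ∘ₗ u :=
  LinearMap.ext fun x => map_sgl (A := C) (A' := A) (ev C A M x) u

end

section
variable {N N' : Type} [AddCommGroup N] [Module A N] [Module (K C) N] [AddCommGroup N']
  [Module A N'] [Module (K C) N']

/-- A map of bimodules, as an `A`-linear map. -/
def toA (Φ : N →ₗ[K C] N') (h : ∀ (a : A) x, Φ (a • x) = a • Φ x) : N →ₗ[A] N' :=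
  ⟨Φ.toAddHom, h⟩

variable [SMulCommClass A (K C) N]

/-- The quotient of a bimodule. -/
@[nolint unusedArguments]
def Quo (W : Submodule (K C) N) (_ : ∀ (a : A), ∀ x ∈ W, a • x ∈ W) : Type := N ⧸ W

variable (W : Submodule (K C) N) (hW : ∀ (a : A), ∀ x ∈ W, a • x ∈ W)

noncomputable instance : AddCommGroup (Quo W hW) := inferInstanceAs (AddCommGroup (N ⧸ W))
noncomputable instance : Module (K C) (Quo W hW) := inferInstanceAs (Module (K C) (N ⧸ W))

/-- The quotient map. -/
noncomputable def Quo.mk : N →ₗ[K C] Quo W hW := W.mkQ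

theorem Quo.surj : Surjective (Quo.mk W hW) := W.mkQ_surjective

theorem Quo.mk_eq_zero {x : N} : Quo.mk W hW x = 0 ↔ x ∈ W := Submodule.Quotient.mk_eq_zero W

noncomputable instance : SMul A (Quo W hW) :=
  ⟨fun a => W.mapQ W (DistribSMul.toLinearMap (K C) N a) (hW a)⟩

theorem Quo.smul_mk (a : A) (x : N) : Quo.mk W hW (a • x) = a • Quo.mk W hW x := rfl

noncomputable instance : Module A (Quo W hW) :=
  (Quo.surj W hW).module A (Quo.mk W hW).toAddMonoidHom (Quo.smul_mk W hW)

instance : SMulCommClass A (K C) (Quo W hW) := ⟨fun a c x => by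
  obtain ⟨x, rfl⟩ := Quo.surj W hW x
  rw [← map_smul, ← Quo.smul_mk, ← Quo.smul_mk, smul_comm, map_smul]⟩

variable [Module C N] [IsScalarTower C (K C) N] [IsScalarTower C A N]

noncomputable instance : Module C (Quo W hW) := inferInstanceAs (Module C (N ⧸ W))
instance : IsScalarTower C (K C) (Quo W hW) := inferInstanceAs (IsScalarTower C (K C) (N ⧸ W))
instance : IsScalarTower C A (Quo W hW) := ⟨fun c a x => by
  obtain ⟨x, rfl⟩ := Quo.surj W hW x
  rw [← Quo.smul_mk, ← Quo.smul_mk, smul_assoc]; rfl⟩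

theorem exists_extA {M : Type} [AddCommGroup M] [Module A M] [Module C M] [IsScalarTower C A M]
    [Module.Finite A M] (u : M →ₗ[A] N) : ∃ Φ : H C M →ₗ[K C] N,
      (∀ (a : A) y, Φ (a • y) = a • Φ y) ∧ ∀ x, Φ (sgl C M A x) = u x := by
  have := finC C A M
  obtain ⟨Φ, hΦ⟩ := exists_ext (A := A) (u.restrictScalars C)
  refine ⟨Φ, fun a => LinearMap.congr_fun (hom_ext (A := A)
    (u := Φ ∘ₗ DistribSMul.toLinearMap (K C) _ a)
    (v := DistribSMul.toLinearMap (K C) _ a ∘ₗ Φ) fun x => ?_), hΦ⟩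
  change Φ (a • _) = a • Φ _
  rw [← map_smul, hΦ, hΦ]
  exact u.map_smul a x

variable {G : Type} [AddCommGroup G] [Module A G] [Module C G] [IsScalarTower C A G]
  [Module.Finite A G] [IsLocalRing (End A G)]

theorem one_mem (U : Submodule (K C) (H C (End A G)))
    (h1 : ∀ z ∈ U, ∀ e, map (LinearMap.mulRight C e) z ∈ U)
    (h2 : ∀ e ∈ Rad A G G C, sgl C _ C e ∈ U) {z : H C (End A G)} (hz : z ∈ U) {g : Gam}
    (hg : z.cf g ∉ Rad A G G C) : sgl C _ C (1 : End A G) ∈ U := by
  classical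
  have : Module.Finite C (End A G) := homFin
  let z' : H C (End A G) := H.mk (fun g => if z.cf g ∈ Rad A G G C then 0 else z.cf g)
    (z.pwo.mono fun g hg e => hg (by simp [e]))
  have h3 : z' ∈ U := by
    rw [← sub_sub_cancel z z']
    refine U.sub_mem hz (mem_of_cf _ U h2 _ fun g => ?_)
    simp only [z', cf_sub, cf_mk]
    split_ifs with e <;> simp [e]
  have h4 : ∀ g, z'.cf g ≠ 0 → Injective (z'.cf g) := fun g hg => by
    simp only [z', cf_mk] at hg ⊢
    split_ifs at hg ⊢ with e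
    · exact (hg rfl).elim
    · obtain ⟨t, ht⟩ := not_not.1 (mt mem_rad.2 e)
      exact LeftInverse.injective (LinearMap.congr_fun ht)
  have h5 : (Function.support z'.cf).Nonempty := ⟨g, fun e => hg (by
    simp only [z', cf_mk, if_neg hg] at e
    rw [e]; exact zero_mem _)⟩
  obtain ⟨Φ, hΦ⟩ := exists_ext (C := C) (A := C) (M := End A G) (N := H C (End A G))
    ⟨⟨fun e => map ((LinearMap.mul C (End A G)).flip e) z', fun a b => by ext; simp⟩,
      fun a b => by ext; simp⟩
  have h6 : Injective Φ := (injective_iff_map_eq_zero _).2 fun y hy => by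
    by_contra hn
    have h7 : (Function.support y.cf).Nonempty := by
      by_contra h
      exact hn (H.ext fun g => by by_contra e; exact h ⟨g, e⟩)
    have h8 := cf_lead _ z' Φ hΦ y (fun g hg => y.pwo.isWF.min_le h7 hg)
      fun g hg => z'.pwo.isWF.min_le h5 hg
    rw [hy, cf_zero] at h8
    refine y.pwo.isWF.min_mem h7 (LinearMap.ext fun x => h4 _ (z'.pwo.isWF.min_mem h5) ?_)
    simpa using (LinearMap.congr_fun h8 x).symm
  obtain ⟨y, hy⟩ := IsArtinian.surjective_of_injective_endomorphism Φ h6 (sgl C _ C 1)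
  rw [← hy]
  exact mem_of_cf (A := C) ⊤ (U.comap Φ) (fun e _ => by
    rw [Submodule.mem_comap, hΦ]; exact h1 _ h3 e) y fun _ => trivial

theorem exists_factor {ι : G →ₗ[A] N} {p : N →ₗ[A] G} (hp : p ∘ₗ ι = LinearMap.id)
    (Φ : H C G →ₗ[K C] N) (hA : ∀ (a : A) y, Φ (a • y) = a • Φ y) (hΦ : ∀ x, Φ (sgl C G A x) = ι x)
    {B P : Type} [AddCommGroup B] [Module A B] [Module.Finite A B] [AddCommGroup P] [Module A P]
    [Module.Finite A P] (j : B →ₗ[A] P) (a : B →ₗ[A] H C G) (b : P →ₗ[A] N)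
    (h : toA Φ hA ∘ₗ a = b ∘ₗ j) : ∃ a' : P →ₗ[A] H C G, a' ∘ₗ j = a := by
  have : Module.Finite C (End A G) := homFin
  obtain ⟨y, rfl⟩ := (toHom_bij (C := C)).2 a
  suffices ∀ g, y.cf g ∈ LinearMap.range (pre C G j) by
    obtain ⟨x, rfl⟩ := mem_range_map _ y this
    exact ⟨toHom C x, rfl⟩
  let Q : Submodule (End A G) (B →ₗ[A] G) := LinearMap.range (LinearMap.lcomp (End A G) G j)
  let Q₀ : Submodule (End A G) (B →ₗ[A] G) := Q ⊔ Submodule.span _ (Set.range y.cf)
  by_contra hn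
  have hlt : Q < Q₀ := lt_of_le_of_ne le_sup_left fun e => hn fun g => by
    have : y.cf g ∈ Q₀ := Submodule.mem_sup_right (Submodule.subset_span ⟨g, rfl⟩)
    rwa [← e] at this
  have : IsNoetherian (End A G) (B →ₗ[A] G) := isNoetherian_of_tower C inferInstance
  obtain ⟨Q₁, hQ₁, hc⟩ := exists_le_covBy_of_lt hlt
  obtain ⟨x₀, hx₀, hx₁⟩ := SetLike.exists_of_lt hc.lt
  have hgen : ∀ x ∈ Q₀, ∃ e : End A G, x - e • x₀ ∈ Q₁ := fun x hx => by
    have : Q₁ ⊔ Submodule.span _ {x₀} = Q₀ := (hc.eq_or_eq le_sup_left (sup_le hc.le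
      ((Submodule.span_singleton_le_iff_mem _ _).2 hx₀))).resolve_left fun e => hx₁ (by
        rw [← e]; exact Submodule.mem_sup_right (Submodule.mem_span_singleton_self _))
    rw [← this] at hx
    obtain ⟨u, hu, v, hv, rfl⟩ := Submodule.mem_sup.1 hx
    obtain ⟨e, rfl⟩ := Submodule.mem_span_singleton.1 hv
    exact ⟨e, by simpa using hu⟩
  have hun : ∀ e : End A G, e • x₀ ∈ Q₁ → ¬ IsUnit e := fun e he hu => hx₁ (by
    simpa [smul_smul] using Q₁.smul_mem (↑hu.unit⁻¹ : End A G) he)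
  have hrad : ∀ e ∈ Rad A G G C, e • x₀ ∈ Q₁ := fun e he => by
    by_contra hn
    have : Q₁ ⊔ Submodule.span _ {e • x₀} = Q₀ := (hc.eq_or_eq le_sup_left (sup_le hc.le
      ((Submodule.span_singleton_le_iff_mem _ _).2 (Q₀.smul_mem _ hx₀)))).resolve_left fun e =>
        hn (by rw [← e]; exact Submodule.mem_sup_right (Submodule.mem_span_singleton_self _))
    rw [← this] at hx₀
    obtain ⟨u, hu, v, hv, e'⟩ := Submodule.mem_sup.1 hx₀
    obtain ⟨t, rfl⟩ := Submodule.mem_span_singleton.1 hv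
    refine hun (1 - t * e) ?_ ((IsLocalRing.isUnit_or_isUnit_of_add_one
      (add_sub_cancel (t * e) 1)).resolve_left (he t))
    rwa [sub_smul, one_smul, mul_smul, ← eq_sub_iff_add_eq.2 e']
  obtain ⟨n, x, hx⟩ := Submodule.fg_iff_exists_fin_generating_family.1
    (IsNoetherian.noetherian (Q₀.restrictScalars C))
  obtain ⟨c, hy⟩ := exists_sum (A := C) x y fun g => hx ▸
    Submodule.mem_sup_right (Submodule.subset_span ⟨g, rfl⟩)
  choose ε hε using fun i => hgen (x i) (show x i ∈ Q₀.restrictScalars C from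
    hx ▸ Submodule.subset_span ⟨i, rfl⟩)
  obtain ⟨Ψ, hΨ⟩ := exists_ext (C := C) (A := C) (M := End A G) (N := G →ₗ[A] N)
    ⟨⟨fun e => ι ∘ₗ e, fun a b => by ext; simp⟩, fun a b => by ext; simp⟩
  replace hΨ : ∀ e, Ψ (sgl C _ C e) = ι ∘ₗ e := hΨ
  let z : H C (End A G) := ∑ i, c i • sgl C _ C (ε i)
  have hz : Ψ z ∈ Rad A G N (K C) := fun v => hun _ (by
    have h1 : ∑ i, (v ∘ₗ (c i • ι)) • x i ∈ Q₁ := hQ₁ ⟨v ∘ₗ b, LinearMap.ext fun w => by
      have h2 := congrArg v (LinearMap.congr_fun h w)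
      refine h2.symm.trans ?_
      change v (Φ (toHom C y w)) = _
      rw [hy]
      simp [toHom_sgl, hΦ]⟩
    have h2 : ∑ i, (v ∘ₗ (c i • ι)) • (x i - ε i • x₀) ∈ Q₁ :=
      Q₁.sum_mem fun i _ => Q₁.smul_mem _ (hε i)
    convert Q₁.sub_mem h1 h2
    ext w
    simp [z, hΨ, smul_sub])
  have hall : ∀ g, z.cf g ∈ Rad A G G C := fun g => by
    by_contra hg
    refine one_mem ((Rad A G N (K C)).comap Ψ) (fun w hw e => ?_) (fun e he => ?_) hz hg p ?_
    · have : Ψ ∘ₗ map (LinearMap.mulRight C e) = LinearMap.lcomp (K C) N e ∘ₗ Ψ :=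
        hom_ext (A := C) fun u => by
          rw [LinearMap.comp_apply, map_sgl (A' := C), hΨ, LinearMap.comp_apply, hΨ]; rfl
      intro v hv
      rw [show Ψ (map _ w) = Ψ w ∘ₗ e from LinearMap.congr_fun this w] at hv
      have he : IsUnit e := by
        obtain ⟨t, ht⟩ := exists_retr (u := e) (v := v ∘ₗ Ψ w) hv
        have hinj : Injective e := LeftInverse.injective (LinearMap.congr_fun ht)
        have := finC C A G
        have : IsArtinian A G := isArtinian_of_tower C inferInstance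
        exact (End.isUnit_iff _).2 ⟨hinj, IsArtinian.surjective_of_injective_endomorphism _ hinj⟩
      exact hw v ((he.mul_right_iff).1 hv)
    · rw [Submodule.mem_comap, hΨ]; exact rad_post he ι
    · rw [hΨ]
      change IsUnit (p ∘ₗ ι)
      rw [hp]; exact isUnit_one
  refine hc.lt.not_ge (sup_le hQ₁ (Submodule.span_le.2 ?_))
  rintro _ ⟨g, rfl⟩
  have h3 : y.cf g = ∑ i, (c i).coeff g • (x i - ε i • x₀) + z.cf g • x₀ := by
    rw [hy]
    simp [z, cf_smul_sgl, smul_sub, sum_smul]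
  rw [h3]
  exact Q₁.add_mem (Q₁.sum_mem fun i _ => (Q₁.restrictScalars C).smul_mem _ (hε i))
    (hrad _ (hall g))

end

theorem induced (hG : ¬ HasGeneric A) (n : ℕ) : ∀ (N : Type) [AddCommGroup N] [Module A N]
    [Module (K C) N] [SMulCommClass A (K C) N] [Module C N] [IsScalarTower C (K C) N]
    [IsScalarTower C A N], length (K C) N ≤ n →
    ∃ (M : Type) (_ : AddCommGroup M) (_ : Module A M) (_ : Module C M) (_ : IsScalarTower C A M)
      (_ : Module.Finite A M) (Φ : H C M →ₗ[K C] N), (∀ (a : A) y, Φ (a • y) = a • Φ y) ∧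
      Bijective Φ := by
  have := noeth C A
  induction n using Nat.strong_induction_on with
  | _ n ih =>
  intro N _ _ _ _ _ _ _ hn
  obtain ⟨_, _⟩ := fin_len (ne_top_of_le_ne_top (ENat.natCast_ne_top n) hn)
  rcases subsingleton_or_nontrivial N with h | h
  · exact ⟨PUnit, inferInstance, inferInstance, inferInstance, inferInstance, inferInstance, 0,
      by simp, fun _ _ _ => H.ext fun _ => rfl, fun _ => ⟨0, Subsingleton.elim _ _⟩⟩
  have hB : Bdd A N := by
    refine ⟨fun W => len (K C) (Submodule.span (K C) (W : Set N)), len (K C) N, fun W _ => ?_,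
      fun W W' hW _ h => ?_⟩
    · have := len_sub_le (Submodule.span (K C) (W : Set N))
      rw [← len_cast, ← len_cast] at this
      exact_mod_cast this
    · have h1 : Submodule.span (K C) (W : Set N) < Submodule.span (K C) (W' : Set N) :=
        lt_of_le_of_ne (Submodule.span_mono h.le) fun e => h.not_ge fun x hx => by
          have h2 : x ∈ Submodule.span (K C) (W : Set N) := e ▸ Submodule.subset_span hx
          exact Submodule.span_induction (fun _ h => h) W.zero_mem (fun _ _ _ _ => W.add_mem)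
            (fun c y _ hy => W.smul_mem (c • LinearMap.id : End A N) hy) h2
      have := Submodule.height_strictMono h1
      rw [← length_submodule, ← length_submodule, ← len_cast, ← len_cast] at this
      exact_mod_cast this
  obtain ⟨G, _, _, _, ι, p, hI, hp⟩ := exists_summand hB hG
  let _ : Module C G := Module.compHom G (algebraMap C A)
  have : IsScalarTower C A G := IsScalarTower.of_compHom C A G
  have := finC C A G
  have : IsArtinian A G := isArtinian_of_tower C inferInstance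
  have := hI.loc
  obtain ⟨Φ, hA, hΦ⟩ := exists_extA (C := C) ι
  have hinj : Injective Φ := (injective_iff_map_eq_zero _).2 fun y hy => by
    obtain ⟨a, ha⟩ := exists_factor hp Φ hA hΦ (0 : A →ₗ[A] A) (LinearMap.toSpanSingleton A _ y) 0
      (by ext; simpa [toA] using hy)
    simpa using (LinearMap.congr_fun ha 1).symm
  have hW : ∀ (a : A), ∀ x ∈ LinearMap.range Φ, a • x ∈ LinearMap.range Φ := by
    rintro a _ ⟨y, rfl⟩
    exact ⟨_, hA a y⟩
  have hlt : length (K C) (Quo _ hW) < n := by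
    have := hI.1
    obtain ⟨x, hx⟩ := exists_ne (0 : G)
    refine (Submodule.length_quotient_lt _ fun e => hx ?_).trans_le hn
    have h1 : ι x ∈ LinearMap.range Φ := ⟨_, hΦ x⟩
    rw [e, Submodule.mem_bot] at h1
    exact (LinearMap.congr_fun hp x).symm.trans (by simp [h1])
  obtain ⟨m, hm⟩ := ENat.ne_top_iff_exists.1 hlt.ne_top
  obtain ⟨M, _, _, _, _, _, Ψ, hΨA, hΨ⟩ := ih m (by rw [← hm] at hlt; exact_mod_cast hlt)
    (Quo _ hW) hm.ge
  let π := toA (Quo.mk _ hW) (Quo.smul_mk _ hW)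
  obtain ⟨s, hs⟩ : ∃ s : M →ₗ[A] N, π ∘ₗ s = toA Ψ hΨA ∘ₗ sgl C M A := by
    obtain ⟨k, ρ, hρ⟩ := Module.Finite.exists_fin' A M
    obtain ⟨b, hb⟩ := Module.projective_lifting_property π ((toA Ψ hΨA ∘ₗ sgl C M A) ∘ₗ ρ)
      (Quo.surj _ hW)
    let e := LinearEquiv.ofInjective (toA Φ hA) hinj
    have hb' : ∀ x : LinearMap.ker ρ, b x ∈ LinearMap.range (toA Φ hA) := fun x =>
      (Quo.mk_eq_zero _ hW).1 ((LinearMap.congr_fun hb x).trans (by simp))
    obtain ⟨a, ha⟩ := exists_factor hp Φ hA hΦ (LinearMap.ker ρ).subtype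
      (e.symm.toLinearMap ∘ₗ (b ∘ₗ (LinearMap.ker ρ).subtype).codRestrict _ hb') b
      (LinearMap.ext fun x => congrArg Subtype.val (e.apply_symm_apply _))
    obtain ⟨s, hs⟩ := exists_desc hρ (b - toA Φ hA ∘ₗ a) fun x hx => sub_eq_zero.2 (by
      have := LinearMap.congr_fun ha ⟨x, hx⟩
      exact ((congrArg (toA Φ hA) this).trans (congrArg Subtype.val (e.apply_symm_apply _))).symm)
    refine ⟨s, LinearMap.ext fun x => ?_⟩
    obtain ⟨x, rfl⟩ := hρ x
    rw [LinearMap.comp_apply, ← LinearMap.comp_apply s, hs, LinearMap.sub_apply, map_sub,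
      show π ((toA Φ hA ∘ₗ a) x) = 0 from (Quo.mk_eq_zero _ hW).2 ⟨_, rfl⟩, sub_zero]
    exact LinearMap.congr_fun hb x
  have := finC C A M
  obtain ⟨S, hSA, hS⟩ := exists_extA (C := C) s
  have hπS : ∀ y, Quo.mk _ hW (S y) = Ψ y := LinearMap.congr_fun (hom_ext (A := A)
    (u := Quo.mk _ hW ∘ₗ S) fun x => by
      rw [LinearMap.comp_apply, hS]; exact LinearMap.congr_fun hs x)
  refine ⟨G × M, inferInstance, inferInstance, inferInstance, inferInstance, inferInstance,
    Φ ∘ₗ map (LinearMap.fst C G M) + S ∘ₗ map (LinearMap.snd C G M), fun a y => ?_,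
    (injective_iff_map_eq_zero _).2 fun y hy => ?_, fun x => ?_⟩
  · simp only [LinearMap.add_apply, LinearMap.comp_apply, smul_add, ← hA, ← hSA]
    rfl
  · have h1 : Φ (map (LinearMap.fst C G M) y) + S (map (LinearMap.snd C G M) y) = 0 := hy
    have h2 := congrArg (Quo.mk _ hW) h1
    rw [map_add, (Quo.mk_eq_zero _ hW).2 ⟨_, rfl⟩, zero_add, hπS, map_zero] at h2
    have h3 := (injective_iff_map_eq_zero _).1 hΨ.1 _ h2
    rw [h3, map_zero, add_zero] at h1
    have h4 := (injective_iff_map_eq_zero _).1 hinj _ h1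
    exact H.ext fun g => Prod.ext (congrArg (fun z => cf z g) h4) (congrArg (fun z => cf z g) h3)
  · obtain ⟨y, hy⟩ := hΨ.2 (Quo.mk _ hW x)
    obtain ⟨z, hz⟩ := (Quo.mk_eq_zero _ hW (x := x - S y)).1 (by rw [map_sub, hπS, hy, sub_self])
    refine ⟨map (LinearMap.inl C G M) z + map (LinearMap.inr C G M) y, ?_⟩
    rw [← sub_add_cancel x (S y), ← hz]
    exact congrArg₂ _ (congrArg Φ (H.ext fun g => by simp)) (congrArg S (H.ext fun g => by simp))

/-- Without generic modules, every bimodule of finite length has an `A`-linear connection. -/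
theorem exists_conn (hG : ¬ HasGeneric A) (N : Type) [AddCommGroup N] [Module A N]
    [Module (K C) N] [SMulCommClass A (K C) N] [Module C N] [IsScalarTower C (K C) N]
    [IsScalarTower C A N] (h : length (K C) N ≠ ⊤) (i : ℕ) :
    ∃ D : N →ₗ[A] N, ∀ (c : K C) x, D (c • x) = thK i c • x + c • D x := by
  obtain ⟨m, hm⟩ := ENat.ne_top_iff_exists.1 h
  obtain ⟨M, _, _, _, _, _, Φ, hA, hΦ⟩ := induced (C := C) hG m N hm.ge
  let e := LinearEquiv.ofBijective (toA Φ hA) hΦ
  let D : H C M →ₗ[A] H C M := ⟨(th i).toAddHom, fun a y => H.ext fun g => smul_comm _ _ _⟩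
  refine ⟨e.toLinearMap ∘ₗ D ∘ₗ e.symm.toLinearMap, fun c x => ?_⟩
  obtain ⟨y, rfl⟩ := hΦ.2 x
  have h1 : ∀ y, e.symm (Φ y) = y := e.symm_apply_apply
  change Φ (th i (e.symm _)) = _ + c • Φ (th i (e.symm _))
  rw [← map_smul, h1, h1, th_smul, map_add, map_smul, map_smul]

end Pool.Agent.MP_bd94e8_al.H83
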