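import Pool.Agent.MP_bd94e8_al.H83.AR
import Pool.Agent.MP_bd94e8_al.H83.Ind

/-!
Without generic modules, cokernels of generic maps are rigid; the resulting dimension count.
-/

set_option autoImplicit false
set_option linter.unusedSectionVars false

namespace Pool.Agent.MP_bd94e8_al.H83

open Module Function Finset H

variable {C : Type} [CommRing C] [IsArtinianRing C] {A : Type} [Ring A] [Algebra C A]
  [Module.Finite C A]

/-- The generic linear combination. -/
noncomputable def gm {M M' : Type} [AddCommGroup M] [Module C M] [AddCommGroup M'] [Module C M']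
    {k : ℕ} (u : Fin k → (M →ₗ[C] M')) : H C M →ₗ[K C] H C M' :=
  ∑ j : Fin k, tv C j • H.map (u j)

theorem gm_apply {M M' : Type} [AddCommGroup M] [Module C M] [AddCommGroup M'] [Module C M']
    {k : ℕ} (u : Fin k → (M →ₗ[C] M')) (y : H C M) : 
    gm u y = ∑ j : Fin k, tv C j • H.map (u j) y := by
  simp [gm]

theorem len_ker_map {M : Type} [AddCommGroup M] [Module C M] [Module.Finite C M]
    (W : Submodule C M) :
    length (K C) (H C M ⧸ LinearMap.ker (map W.mkQ)) = length C (M ⧸ W) :=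
  ((map W.mkQ).quotKerEquivOfSurjective (map_surj W.mkQ_surjective)).length_eq.trans len_eq

variable {Ω P X Y T : Type} [AddCommGroup Ω] [Module A Ω] [AddCommGroup P] [Module A P]
  [AddCommGroup X] [Module A X] [Module C X] [IsScalarTower C A X]
  [AddCommGroup Y] [Module A Y] [Module C Y] [IsScalarTower C A Y]
  [AddCommGroup T] [Module A T] [Module C T] [IsScalarTower C A T]
  [Module.Finite A Ω] [Module.Finite A P] [Module.Finite A X] [Module.Finite A Y]
  [Module.Finite A T] [Projective A P]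

theorem count (hG : ¬ HasGeneric A) {ι : Ω →ₗ[A] P} {ρ : P →ₗ[A] X} (he : Exact ι ρ)
    (hρ : Surjective ρ) {k : ℕ} (h : Fin k → (Y →ₗ[A] X))
    (hs : Submodule.span C (Set.range h) = ⊤) (h1 : Injective (gm fun j => (h j).restrictScalars C))
    (h2 : Surjective (gm fun j => pre C T (h j))) :
    hb C A Y X T ≤ hb C A X X T + length C (Y →ₗ[A] Y) + length C (KQ C Y T ι) := by
  have := finC C A X
  have := finC C A Y
  have := finC C A T
  set η := gm fun j => (h j).restrictScalars C with hη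
  have hA : ∀ (a : A) y, η (a • y) = a • η y := fun a y => by
    rw [gm_apply, gm_apply, smul_sum]
    exact sum_congr rfl fun j _ => by
      rw [smul_comm a]; congr 1; ext; simp
  have hW : ∀ (a : A), ∀ x ∈ LinearMap.range η, a • x ∈ LinearMap.range η := by
    rintro a _ ⟨y, rfl⟩
    exact ⟨_, hA a y⟩
  let N := Quo _ hW
  let π : H C X →ₗ[K C] N := Quo.mk _ hW
  let π' : H C X →ₗ[A] N := toA π (Quo.smul_mk _ hW)
  have hπ : ∀ {x}, π x = 0 ↔ x ∈ LinearMap.range η := Quo.mk_eq_zero _ hW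
  have i1 : ∀ y, η (sgl C Y A y) = ∑ j : Fin k, tv C j • sgl C X A (h j y) := fun y => by
    simp only [hη, gm_apply, map_sgl (A' := A)]; rfl
  have i2 : ∀ (χ : H C (Y →ₗ[A] Y)) y, toHom C (gm (fun j => post C Y (h j)) χ) y =
      η (toHom C χ y) := fun χ y => by
    simp only [hη, gm_apply, map_sum, map_smul, LinearMap.sum_apply, LinearMap.smul_apply]; rfl
  have i3 : ∀ {M : Type} [AddCommGroup M] [Module A M] [Module C M] [IsScalarTower C A M]
      (ψ : H C (X →ₗ[A] M)) y, toHom C (gm (fun j => pre C M (h j)) ψ) y =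
      ∑ j : Fin k, tv C j • toHom C ψ (h j y) := fun ψ y => by
    simp only [gm_apply, map_sum, map_smul, LinearMap.sum_apply, LinearMap.smul_apply]; rfl
  let G : Submodule (K C) (H C (Y →ₗ[A] X) × (X →ₗ[A] N) × (P →ₗ[A] H C X) × H C (Ω →ₗ[A] Y)) :=
    { carrier := {x | (∀ y, π (toHom C x.1 y) = ∑ j : Fin k, tv C j • x.2.1 (h j y)) ∧
        (∀ z, π (x.2.2.1 z) = x.2.1 (ρ z)) ∧ ∀ w, x.2.2.1 (ι w) = η (toHom C x.2.2.2 w)}
      zero_mem' := by simp
      add_mem' := by
        rintro x y ⟨a, b, c⟩ ⟨a', b', c'⟩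
        simp [a, b, c, a', b', c', sum_add_distrib]
      smul_mem' := by
        rintro t x ⟨a, b, c⟩
        simp [a, b, c, smul_sum, smul_comm t] }
  let γ := (gm fun j => pre C X (h j)).coprod (gm fun j => post C Y (h j))
  have hk : ∀ x ∈ G, ∀ g, x.2.2.2.cf g ∈ Kil C Y T ι := by
    rintro ⟨u, φ, b, ξ⟩ ⟨-, -, e⟩ g
    refine mem_kil.2 fun v => ?_
    obtain ⟨v', hv⟩ := h2 (sgl C _ C v)
    obtain ⟨Φ, hΦA, hΦ⟩ := exists_extA (C := C) (toHom C v')
    have e1 : Φ ∘ₗ η = map (v.restrictScalars C) := hom_ext (A := A) fun y => by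
      rw [LinearMap.comp_apply, i1, map_sgl (A' := A), map_sum]
      simp only [map_smul, hΦ]
      rw [← i3, hv, toHom_sgl]; rfl
    obtain ⟨w, hw⟩ := (toHom_bij (C := C)).2 (toA Φ hΦA ∘ₗ b)
    refine ⟨w.cf g, LinearMap.ext fun z => ?_⟩
    have e2 : toHom C w (ι z) = map (v.restrictScalars C) (toHom C ξ z) := by
      rw [hw, ← e1]; exact congrArg Φ (e z)
    exact congrArg (fun y => cf y g) e2
  have s1 := len_rel' (G := G) (LinearMap.fst _ _ _ ∘ₗ G.subtype)
    ((map (Submodule.mkQ _) ∘ₗ LinearMap.snd _ _ _ ∘ₗ LinearMap.snd _ _ _ ∘ₗ LinearMap.snd _ _ _ ∘ₗ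
      G.subtype).codRestrict (LinearMap.range (map (KQ C Y T ι).subtype)) fun x =>
        mem_range_map _ _ fun g => ⟨⟨_, ⟨_, hk x.1 x.2 g⟩, rfl⟩, rfl⟩)
    (LinearMap.ker (map (Thru C A Y X T).mkQ) ⊔ LinearMap.range γ) ⊥ ?_ ?_
  · have s2 := len_rel γ (LinearMap.prodMap (map (Thru C A X X T).mkQ) LinearMap.id)
      (LinearMap.ker (map (Thru C A Y X T).mkQ)) ⊥ (by
        rintro ⟨ψ, χ⟩ hx
        obtain rfl : χ = 0 := congrArg Prod.snd hx
        rw [LinearMap.coprod_apply, map_zero, add_zero, gm_apply]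
        exact Submodule.sum_mem _ fun j _ => Submodule.smul_mem _ _ (H.ext fun g =>
          (Submodule.Quotient.mk_eq_zero _).2 (thru_pre _ ((Submodule.Quotient.mk_eq_zero _).1
            (congrArg (fun y => cf y g) (congrArg Prod.fst hx))))))
    rw [len_ker_map, len_quot_bot, length_prod, len_eq, len_eq] at s2
    rw [len_quot_bot] at s1
    exact s2.trans (add_le_add le_rfl (s1.trans ((len_range_le _).trans len_eq.le)))
  · intro u
    change u ∈ LinearMap.range _
    obtain ⟨c, rfl⟩ := exists_sum (A := C) h u fun _ => hs ▸ trivial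
    refine Submodule.sum_mem _ fun j _ => Submodule.smul_mem _ _
      ((Submodule.smul_mem_iff_of_isUnit _ (tv_unit j)).1 ?_)
    obtain ⟨D, hD⟩ := exists_conn (C := C) hG N (ne_top_of_le_ne_top length_ne_top
      (length_le_of_surjective π (Quo.surj _ hW))) j
    let φ := -(D ∘ₗ π' ∘ₗ sgl C X A)
    obtain ⟨b, hb⟩ := projective_lifting_property π' (φ ∘ₗ ρ) (Quo.surj _ hW)
    obtain ⟨ξ, hξ⟩ := exists_fac (f := toA η hA) h1 (b ∘ₗ ι) fun x => hπ.1
      ((LinearMap.congr_fun hb _).trans (by simp [he.apply_apply_eq_zero]))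
    obtain ⟨ξ, rfl⟩ := (toHom_bij (C := C)).2 ξ
    refine ⟨⟨(tv C j • sgl C _ C (h j), φ, b, ξ), fun y => ?_, LinearMap.congr_fun hb,
      fun w => (LinearMap.congr_fun hξ w).symm⟩, rfl⟩
    have e := congrArg D (hπ.2 ⟨sgl C Y A y, rfl⟩)
    rw [i1, map_sum, map_sum, map_zero] at e
    simp only [map_smul, hD, thK_tv, sum_add_distrib, ite_smul, zero_smul, Fin.val_inj,
      sum_ite_eq, mem_univ, if_true] at e
    simp only [map_smul, toHom_sgl, φ, LinearMap.neg_apply, smul_neg, sum_neg_distrib,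
      LinearMap.smul_apply]
    exact eq_neg_of_add_eq_zero_left e
  · rintro ⟨⟨u, φ, b, ξ⟩, a1, a2, a3⟩ hx
    have e : map (Submodule.mkQ _) ξ = 0 := congrArg Subtype.val hx
    obtain ⟨w, rfl⟩ := mem_range_map (pre C Y ι) ξ fun g =>
      (Submodule.Quotient.mk_eq_zero _).1 (congrArg (fun y => cf y g) e)
    obtain ⟨ψ, hψ⟩ := exists_desc hρ (b - toA η hA ∘ₗ toHom C w) fun x hx => by
      obtain ⟨y, rfl⟩ := (he x).1 hx
      exact sub_eq_zero.2 (a3 y)
    have e1 : ∀ x, π (ψ x) = φ x := fun x => by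
      obtain ⟨z, rfl⟩ := hρ x
      rw [← LinearMap.comp_apply ψ, hψ, LinearMap.sub_apply, map_sub, a2]
      exact sub_eq_self.2 (hπ.2 ⟨_, rfl⟩)
    obtain ⟨ψ, rfl⟩ := (toHom_bij (C := C)).2 ψ
    obtain ⟨χ, hχ⟩ := exists_fac (f := toA η hA) h1 (toHom C (u - gm (fun j => pre C X (h j)) ψ))
      fun y => hπ.1 (by
        rw [map_sub, LinearMap.sub_apply, map_sub, a1, i3, map_sum]
        simp [e1])
    obtain ⟨χ, rfl⟩ := (toHom_bij (C := C)).2 χ
    refine Submodule.mem_sup_right ⟨(ψ, χ), eq_sub_iff_add_eq'.1 ((toHom_bij (C := C)).1 ?_)⟩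
    exact (LinearMap.ext (i2 χ)).trans hχ

end Pool.Agent.MP_bd94e8_al.H83
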