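import Pool.Agent.MP_bd94e8_al.H83.Mesh2

/-!
A relative form of the Auslander-Reiten formula.
-/

set_option autoImplicit false
set_option linter.unusedSectionVars false

namespace Pool.Agent.MP_bd94e8_al.H83

open Module Function Finset

theorem len_range_le' {R G U Φ : Type} [Ring R] [AddCommGroup G] [Module R G] [AddCommGroup U]
    [Module R U] [AddCommGroup Φ] [Module R Φ] (α : G →ₗ[R] U) (β : G →ₗ[R] Φ)
    (h : ∀ x, β x = 0 → α x = 0) : length R (LinearMap.range α) ≤ length R Φ := by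
  have := len_rel' α.rangeRestrict β ⊥ ⊥ α.surjective_rangeRestrict fun x hx =>
    Subtype.ext (h x hx)
  rwa [len_quot_bot, len_quot_bot] at this

variable {C : Type} [CommRing C] [IsArtinianRing C] {A : Type} [Ring A] [Algebra C A]
  [Module.Finite C A]

variable {Ω P Y T : Type} [AddCommGroup Ω] [Module A Ω] [AddCommGroup P] [Module A P]
  [AddCommGroup Y] [Module A Y] [Module C Y] [IsScalarTower C A Y]
  [AddCommGroup T] [Module A T] [Module C T] [IsScalarTower C A T]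

variable (C Y T) in
/-- Maps that extend after composition with any map to `T`. -/
def Kil (ι : Ω →ₗ[A] P) : Submodule C (Ω →ₗ[A] Y) :=
  ⨅ v : Y →ₗ[A] T, (LinearMap.range (pre C T ι)).comap (post C Ω v)

theorem mem_kil {ι : Ω →ₗ[A] P} {ξ : Ω →ₗ[A] Y} :
    ξ ∈ Kil C Y T ι ↔ ∀ v : Y →ₗ[A] T, ∃ w : P →ₗ[A] T, w ∘ₗ ι = v ∘ₗ ξ := Submodule.mem_iInf _

variable (C Y T) in
/-- Their classes. -/
def KQ (ι : Ω →ₗ[A] P) : Submodule C ((Ω →ₗ[A] Y) ⧸ LinearMap.range (pre C Y ι)) :=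
  LinearMap.range (Submodule.mkQ _ ∘ₗ (Kil C Y T ι).subtype)

theorem kq_pi {I : Type} [Fintype I] [DecidableEq I] {Ω P : I → Type} [∀ i, AddCommGroup (Ω i)]
    [∀ i, Module A (Ω i)] [∀ i, AddCommGroup (P i)] [∀ i, Module A (P i)] (ι : ∀ i, Ω i →ₗ[A] P i) :
    length C (KQ C Y T (LinearMap.piMap ι)) ≤ ∑ i, length C (KQ C Y T (ι i)) := by
  rw [← length_pi_of_fintype]
  have h : ∀ i, LinearMap.piMap ι ∘ₗ LinearMap.single A Ω i = LinearMap.single A P i ∘ₗ ι i :=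
    fun i => LinearMap.ext fun x => funext fun j =>
      Pi.apply_single (fun i => ι i) (fun i => map_zero _) i x j
  refine len_range_le' _ (LinearMap.pi fun i => (Submodule.mkQ _ ∘ₗ pre C Y (LinearMap.single A Ω i) ∘ₗ
    Submodule.subtype _).codRestrict _ fun ξ => ⟨⟨_, mem_kil.2 fun v => ?_⟩, rfl⟩) fun ξ hξ => ?_
  · obtain ⟨w, e⟩ := mem_kil.1 ξ.2 v
    exact ⟨w ∘ₗ LinearMap.single A P i, by
      rw [LinearMap.comp_assoc, ← h, ← LinearMap.comp_assoc, e]; rfl⟩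
  · choose w hw using fun i => (Submodule.Quotient.mk_eq_zero _).1
      (congrArg Subtype.val (congrFun hξ i))
    refine (Submodule.Quotient.mk_eq_zero _).2 ⟨∑ i, w i ∘ₗ LinearMap.proj i, ?_⟩
    refine LinearMap.pi_ext' fun i => ?_
    rw [pre_apply, LinearMap.comp_assoc, h, ← LinearMap.comp_assoc, sum_single]
    exact hw i

theorem AlmostSplit.kq_le {X E X' : Type} [AddCommGroup X] [Module A X] [AddCommGroup E] [Module A E]
    [AddCommGroup X'] [Module A X'] [Module C X'] [IsScalarTower C A X'] [Module.Finite A X']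
    {f : X' →ₗ[A] E} {g : E →ₗ[A] X} (h : AlmostSplit f g) [Module.Finite A Y] [Module.Finite A P]
    [Module.Finite A Ω] [Projective A P] {ι : Ω →ₗ[A] P} {ρ : P →ₗ[A] X} (hι : Injective ι)
    (he : Exact ι ρ) (hρ : Surjective ρ) : length C (KQ C Y T ι) ≤ hb C A Y X' T := by
  have h0 : ∀ x, ρ (ι x) = 0 := he.apply_apply_eq_zero
  have hd : ∀ {M : Type} [AddCommGroup M] [Module A M] (v : P →ₗ[A] M), v ∘ₗ ι = 0 →
      ∃ s : X →ₗ[A] M, s ∘ₗ ρ = v := fun v e => exists_desc hρ v fun x hx => by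
    obtain ⟨y, rfl⟩ := (he x).1 hx
    exact LinearMap.congr_fun e y
  obtain ⟨b, hb⟩ := projective_lifting_property g ρ h.surj
  obtain ⟨η, hη⟩ := h.lift (v := b ∘ₗ ι) (by
    rw [← LinearMap.comp_assoc, hb]; exact LinearMap.ext h0)
  have h1 : η ∉ LinearMap.range (pre C X' ι) := by
    rintro ⟨w, rfl⟩
    obtain ⟨s, hs⟩ := hd (b - f ∘ₗ w) (by rw [LinearMap.sub_comp, ← hη]; exact sub_self _)
    refine h.nonsplit ⟨s, (LinearMap.cancel_right hρ).1 ?_⟩
    rw [LinearMap.comp_assoc, hs, LinearMap.comp_sub, ← LinearMap.comp_assoc, h.comp, hb]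
    simp
  obtain ⟨Q, ⟨hQ, hQη⟩, hm⟩ := (set_has_maximal_iff_noetherian (R := C) (M := Ω →ₗ[A] X')).2
    inferInstance {Q | LinearMap.range (pre C X' ι) ≤ Q ∧ η ∉ Q} ⟨_, le_rfl, h1⟩
  have hη0 : Q.mkQ η ≠ 0 := fun e => hQη ((Submodule.Quotient.mk_eq_zero _).1 e)
  have hat : ∀ S : Submodule C ((Ω →ₗ[A] X') ⧸ Q), IsAtom S → S = Submodule.span C {Q.mkQ η} :=
    fun S hS => by
      have h2 : η ∈ S.comap Q.mkQ := by
        by_contra hn
        have h3 := Submodule.le_comap_mkQ Q S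
        refine hm _ ⟨hQ.trans h3, hn⟩ (lt_of_le_of_ne h3 fun e => hS.1 (eq_bot_iff.2 fun x hx => ?_))
        obtain ⟨x, rfl⟩ := Q.mkQ_surjective x
        exact (Submodule.Quotient.mk_eq_zero _).2 (e ▸ hx)
      exact ((hS.le_iff.1 ((Submodule.span_singleton_le_iff_mem _ _).2 h2)).resolve_left
        (by simpa using hQη)).symm
  refine le_trans ?_ (len_dual_le (fun S S' a b => (hat S a).trans (hat S' b).symm)
    (isFiniteLength_iff_isNoetherian_isArtinian.2 ⟨inferInstance, inferInstance⟩))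
  let B : Kil C Y T ι →ₗ[C] (((Y →ₗ[A] X') ⧸ Thru C A Y X' T) →ₗ[C] (Ω →ₗ[A] X') ⧸ Q) :=
    { toFun := fun ξ => Submodule.liftQ _ (Q.mkQ ∘ₗ pre C X' ξ.1) (thru_le fun v w => by
        obtain ⟨w', e⟩ := mem_kil.1 ξ.2 v
        refine (Submodule.Quotient.mk_eq_zero _).2 (hQ ⟨w ∘ₗ w', ?_⟩)
        rw [pre_apply, LinearMap.comp_assoc, e]; rfl)
      map_add' := fun _ _ => Submodule.linearMap_qext _ (LinearMap.ext fun u => by
        simp [LinearMap.comp_add])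
      map_smul' := fun c ξ => Submodule.linearMap_qext _ (LinearMap.ext fun u =>
        (congrArg Q.mkQ (map_smul (post C Ω u) c ξ.1)).trans (map_smul _ _ _)) }
  refine len_range_le' _ B fun ξ hξ => (Submodule.Quotient.mk_eq_zero _).2 ?_
  by_contra hn
  let R := LinearMap.range (LinearMap.prod ξ.1 (-ι))
  let i₁ : Y →ₗ[A] (Y × P) ⧸ R := R.mkQ ∘ₗ LinearMap.inl A Y P
  let i₂ : P →ₗ[A] (Y × P) ⧸ R := R.mkQ ∘ₗ LinearMap.inr A Y P
  have e1 : i₂ ∘ₗ ι = i₁ ∘ₗ ξ.1 := LinearMap.ext fun x =>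
    ((Submodule.Quotient.eq R).2 ⟨x, by simp⟩).symm
  have hi : Injective i₁ := (injective_iff_map_eq_zero _).2 fun y hy => by
    obtain ⟨x, hx⟩ := (Submodule.Quotient.mk_eq_zero _).1 hy
    have h2 : x = 0 := hι (by simpa using congrArg Prod.snd hx)
    simpa [h2] using (congrArg Prod.fst hx).symm
  let g' : ((Y × P) ⧸ R) →ₗ[A] X := R.liftQ (ρ ∘ₗ LinearMap.snd A Y P) (by
    rintro _ ⟨x, rfl⟩; simp [h0])
  obtain ⟨v, hv⟩ := h.right _ g' (by
    rintro ⟨s, hs⟩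
    obtain ⟨w, hw⟩ := exists_fac hi (i₂ - s ∘ₗ ρ) fun x => by
      obtain ⟨⟨y, z⟩, e⟩ := R.mkQ_surjective ((i₂ - s ∘ₗ ρ) x)
      have h2 : ρ z = 0 := (congrArg g' e).trans (by
        rw [LinearMap.sub_apply, map_sub, sub_eq_zero]; exact (LinearMap.congr_fun hs _).symm)
      obtain ⟨z, rfl⟩ := (he z).1 h2
      exact ⟨y + ξ.1 z, Eq.trans ((Submodule.Quotient.eq _).2 ⟨z, by simp⟩) e⟩
    refine hn ⟨w, (LinearMap.cancel_left hi).1 ?_⟩
    rw [pre_apply, ← LinearMap.comp_assoc, hw, LinearMap.sub_comp, e1]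
    exact sub_eq_self.2 (LinearMap.ext fun x => by simp [h0]))
  obtain ⟨u, hu⟩ := h.lift (v := v ∘ₗ i₁) (by
    rw [← LinearMap.comp_assoc, hv]; exact LinearMap.ext fun x => map_zero ρ)
  obtain ⟨w, hw⟩ := h.lift (v := v ∘ₗ i₂ - b) (by
    rw [LinearMap.comp_sub, ← LinearMap.comp_assoc, hv, hb]; exact sub_self _)
  have e2 : η = u ∘ₗ ξ.1 - w ∘ₗ ι := (LinearMap.cancel_left h.inj).1 (by
    rw [LinearMap.comp_sub, ← LinearMap.comp_assoc, ← LinearMap.comp_assoc, hu, hw, hη,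
      LinearMap.comp_assoc, ← e1, LinearMap.sub_comp]
    exact (sub_sub_cancel _ _).symm)
  exact hQη (e2 ▸ Q.sub_mem ((Submodule.Quotient.mk_eq_zero _).1
    (LinearMap.congr_fun hξ (Submodule.mkQ _ u))) (hQ ⟨w, rfl⟩))

end Pool.Agent.MP_bd94e8_al.H83
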