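import Pool.Agent.MP_bd94e8_al.H83.Red

/-!
Minimal representation-infinite factor rings.
-/

set_option autoImplicit false
set_option linter.unusedSectionVars false

namespace Pool.Agent.MP_bd94e8_al.H83

open Module Function

section
variable {A : Type} [Ring A] {G Y Z M : Type} [AddCommGroup G] [Module A G] [AddCommGroup Y]
  [Module A Y] [AddCommGroup Z] [Module A Z] [AddCommGroup M] [Module A M]

theorem Lifts.prod {π : Z →ₗ[A] M} (h : Lifts G π) (h' : Lifts Y π) : Lifts (G × Y) π := fun u => by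
  obtain ⟨v, hv⟩ := h (u ∘ₗ LinearMap.inl A G Y)
  obtain ⟨w, hw⟩ := h' (u ∘ₗ LinearMap.inr A G Y)
  exact ⟨v.coprod w, by rw [LinearMap.comp_coprod, hv, hw, LinearMap.coprod_comp_inl_inr]⟩

theorem Smd.kill (h : Smd A G Y) {a : A} (ha : ∀ x : Y, a • x = 0) (x : G) : a • x = 0 := by
  obtain ⟨u, v, e⟩ := h
  rw [← LinearMap.id_apply (R := A) x, ← e, LinearMap.comp_apply, ← map_smul, ha, map_zero]

theorem lifts_quot {I : Ideal A} {π : Z →ₗ[A] M} (hπ : Surjective π)
    (h : ∀ a ∈ I, ∀ x : Z, a • x = 0) : Lifts (A ⧸ I) π := fun u => by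
  obtain ⟨z, hz⟩ := hπ (u (Submodule.mkQ I 1))
  refine ⟨Submodule.liftQ I (LinearMap.toSpanSingleton A Z z) fun a ha => h a ha z, ?_⟩
  ext
  simpa using hz

theorem Brick.indec (h : Brick A M) : Indec A M := ⟨h.1, fun P Q hc => by
  by_contra hn
  push Not at hn
  obtain ⟨x, h1, h2⟩ := P.exists_mem_ne_zero_of_ne_bot hn.1
  obtain ⟨y, h3, h4⟩ := Q.exists_mem_ne_zero_of_ne_bot hn.2
  refine h4 ((h.2 (P.subtype ∘ₗ P.projectionOnto Q hc) fun e => h2 ?_).1 ?_)
  · simpa [Submodule.projectionOnto_apply_left hc ⟨x, h1⟩] using LinearMap.congr_fun e x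
  · simp [Submodule.projectionOnto_apply_right hc ⟨y, h3⟩]⟩

/-- The elements that multiply the radical into `I`. -/
def col (I : Ideal A) : Ideal A where
  carrier := {a | ∀ j ∈ Ring.jacobson A, a * j ∈ I}
  zero_mem' j _ := by simp
  add_mem' ha hb j hj := add_mul _ _ j ▸ I.add_mem (ha j hj) (hb j hj)
  smul_mem' c a ha j hj := by
    rw [smul_eq_mul, mul_assoc]
    exact I.mul_mem_left c (ha j hj)

instance (I : Ideal A) : (col I).IsTwoSided :=
  ⟨fun b ha j hj => mul_assoc _ b j ▸ ha _ (Ideal.mul_mem_left _ b hj)⟩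

variable [IsArtinianRing A] [IsNoetherianRing A] {I : Ideal A} [I.IsTwoSided]

theorem lt_col (h : 1 ∉ I) : I < col I := by
  refine lt_of_le_not_ge (fun a ha j _ => I.mul_mem_right j ha) fun h0 => h ?_
  obtain ⟨n, hn⟩ := IsSemiprimaryRing.isNilpotent (R := A)
  have : ∀ n : ℕ, ∀ a, (∀ x ∈ Ring.jacobson A ^ n, a * x ∈ I) → a ∈ I := fun n => by
    induction n with
    | zero => exact fun a ha => by simpa using ha 1 (by simp [Submodule.pow_zero, Ideal.one_eq_top])
    | succ n ih =>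
      exact fun a ha => ih a fun x hx => h0 fun j hj => mul_assoc a x j ▸ ha _
        (Submodule.pow_succ (Ring.jacobson A) ▸ Ideal.mul_mem_mul hx hj)
  exact this n 1 fun x hx => by
    rw [hn] at hx
    simp [show x = 0 from hx]

theorem col_kill {a : A} (ha : a ∈ col I) {x : A ⧸ I} (hx : x ∈ jacobson A (A ⧸ I)) :
    a • x = 0 := by
  have := (IsArtinian.isSemisimpleModule_iff_jacobson A _).2 (jacobson_quotient_jacobson A A)
  have := IsSemisimpleModule.of_surjective (Submodule.liftQ (jacobson A A)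
    (((jacobson A A).map (Submodule.mkQ I)).mkQ ∘ₗ Submodule.mkQ I) fun j hj =>
      (Submodule.Quotient.mk_eq_zero _).2 (Submodule.mem_map_of_mem (f := Submodule.mkQ I) hj))
    fun y => by
    obtain ⟨y, rfl⟩ := Submodule.mkQ_surjective _ y
    obtain ⟨y, rfl⟩ := Submodule.mkQ_surjective _ y
    exact ⟨Submodule.mkQ _ y, rfl⟩
  obtain ⟨j, hj, rfl⟩ := jacobson_le_of_eq_bot (N := (jacobson A A).map (Submodule.mkQ I))
    (IsSemisimpleModule.jacobson_eq_bot A _) hx
  exact (Submodule.Quotient.mk_eq_zero _).2 (ha j hj)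

theorem exists_cover [Module.Finite A M] (h : ∀ a ∈ I, ∀ x : M, a • x = 0) :
    ∃ (P : Type) (_ : AddCommGroup P) (_ : Module A P) (r : ℕ) (ρ : P →ₗ[A] M),
      Smd A P (Fin r → A ⧸ I) ∧ Surjective ρ ∧ ∀ a ∈ col I, ∀ x ∈ LinearMap.ker ρ, a • x = 0 := by
  have hk : ∀ a ∈ I, ∀ (r : ℕ) (x : Fin r → A ⧸ I), a • x = 0 := fun a ha r x => funext fun i => by
    obtain ⟨y, hy⟩ := Submodule.mkQ_surjective I (x i)
    rw [Pi.smul_apply, ← hy]
    exact (Submodule.Quotient.mk_eq_zero _).2 (I.mul_mem_right y ha)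
  let T : Set ℕ := {n | ∃ (P : Type) (_ : AddCommGroup P) (_ : Module A P) (r : ℕ) (ρ : P →ₗ[A] M),
    Smd A P (Fin r → A ⧸ I) ∧ Surjective ρ ∧ len A P = n}
  obtain ⟨P, _, _, r, ρ, h1, h2, h3⟩ := Nat.sInf_mem (s := T) (by
    obtain ⟨r, ρ, hρ⟩ := Module.Finite.exists_fin' A M
    have hs : Surjective (LinearMap.piMap fun _ : Fin r => Submodule.mkQ I) :=
      Function.Surjective.piMap fun _ => Submodule.mkQ_surjective I
    obtain ⟨u, hu⟩ := exists_desc hs ρ fun x hx => by
      rw [LinearMap.mem_ker, LinearMap.pi_apply_eq_sum_univ]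
      exact Finset.sum_eq_zero fun i _ => h _ ((Submodule.Quotient.mk_eq_zero _).1 (congrFun hx i)) _
    exact ⟨_, _, _, _, r, u, .of_equiv (.refl _ _), Surjective.of_comp (g := _) (hu ▸ hρ :), rfl⟩)
  refine ⟨P, _, _, r, ρ, h1, h2, fun a ha x hx => ?_⟩
  have := h1.fin
  have h4 : x ∈ jacobson A P := Submodule.mem_sInf.2 fun N hN => by
    by_contra hn
    obtain ⟨φ, hφ⟩ := (Lifts.pi (X := fun _ : Fin r => A ⧸ I) fun _ =>
      lifts_quot (π := ρ ∘ₗ N.subtype) (fun y => by
        obtain ⟨y, rfl⟩ := h2 y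
        obtain ⟨z, hz, w, hw, rfl⟩ := Submodule.mem_sup.1 ((hN.2 (N ⊔ LinearMap.ker ρ)
          (lt_of_le_not_ge le_sup_left fun e => hn (e (Submodule.mem_sup_right hx)))).ge
          (trivial : y ∈ ⊤))
        exact ⟨⟨z, hz⟩, by simp [show ρ w = 0 from hw]⟩)
      fun a ha y => Subtype.ext (h1.kill (hk a ha r) _)).smd h1 ρ
    let ψ : End A P := N.subtype ∘ₗ φ
    obtain ⟨n, c1, c2⟩ := (ψ.eventually_isCompl_ker_pow_range_pow.and
      (Filter.eventually_gt_atTop 0)).exists
    have h5 : ∀ (n : ℕ) y, ρ ((ψ ^ n) y) = ρ y := fun n => by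
      induction n with
      | zero => exact fun _ => rfl
      | succ n ih => exact fun y => (ih (ψ y)).trans (LinearMap.congr_fun hφ y)
    have h6 := Nat.sInf_le (s := T) ⟨LinearMap.range (ψ ^ n), _, _, r, ρ ∘ₗ Submodule.subtype _,
      Smd.trans ⟨Submodule.subtype _, Submodule.projectionOnto _ _ c1.symm,
        LinearMap.ext (Submodule.projectionOnto_apply_left _)⟩ h1,
      fun y => (h2 y).elim fun z hz => ⟨⟨_, z, rfl⟩, (h5 n z).trans hz⟩, rfl⟩
    have h7 := Submodule.length_lt (R := A) (N := LinearMap.range (ψ ^ n)) fun e => hN.1 (by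
      obtain ⟨n, rfl⟩ := Nat.exists_eq_succ_of_ne_zero c2.ne'
      refine top_unique (e.ge.trans ?_)
      rintro _ ⟨y, rfl⟩
      rw [pow_succ']
      exact (φ _).2)
    rw [← len_cast, ← len_cast, h3, Nat.cast_lt] at h7
    exact h7.not_ge h6
  obtain ⟨u, v, e⟩ := h1
  rw [← LinearMap.id_apply (R := A) x, ← e, LinearMap.comp_apply, ← map_smul,
    show a • u x = 0 from funext fun i =>
      col_kill ha (le_comap_jacobson (LinearMap.proj (φ := fun _ => A ⧸ I) i ∘ₗ u) h4 :), map_zero]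

theorem exists_resolved [Module.Finite A M] (h : ∀ a ∈ I, ∀ x : M, a • x = 0) {N : ℕ}
    (hN : ∀ (G : Type) [AddCommGroup G] [Module A G] [Module.Finite A G],
      (∀ a ∈ col I, ∀ x : G, a • x = 0) → Indec A G → length A G ≤ N) :
    ∃ (Y : Type) (_ : AddCommGroup Y) (_ : Module A Y) (_ : Module.Finite A Y),
      Short A (N + len A A) Y ∧ Resolved A Y M := by
  let M' : Submodule A M :=
    { carrier := {x | ∀ a ∈ col I, a • x = 0}
      zero_mem' := by simp
      add_mem' := fun ha hb a h => by rw [smul_add, ha a h, hb a h, add_zero]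
      smul_mem' := fun c x hx a h => by rw [smul_smul]; exact hx _ (Ideal.mul_mem_right c _ h) }
  obtain ⟨P, _, _, r, ρ, h1, h2, h3⟩ := exists_cover (I := I) (M := M ⧸ M') fun a ha x => by
    obtain ⟨x, rfl⟩ := M'.mkQ_surjective x
    rw [← map_smul, h a ha, map_zero]
  have := h1.fin
  obtain ⟨ρ, rfl⟩ := (Lifts.pi (X := fun _ : Fin r => A ⧸ I) fun _ =>
    lifts_quot M'.mkQ_surjective h).smd h1 ρ
  have h4 : Surjective (M'.subtype.coprod ρ) := fun y => by
    obtain ⟨x, hx⟩ := h2 (M'.mkQ y)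
    exact ⟨(⟨y - ρ x, (Submodule.Quotient.eq _).1 hx.symm⟩, x), by simp⟩
  have h5 : ∀ (G : Type) [AddCommGroup G] [Module A G], (∀ a ∈ col I, ∀ x : G, a • x = 0) →
      Lifts G (M'.subtype.coprod ρ) := fun G _ _ hG u =>
    ⟨LinearMap.inl A _ _ ∘ₗ u.codRestrict M' fun x a ha => by rw [← map_smul, hG a ha, map_zero],
      LinearMap.ext fun x => by simp⟩
  have h6 : ∀ a ∈ col I, ∀ x : M' × LinearMap.ker (M'.mkQ ∘ₗ ρ), a • x = 0 := fun a ha x =>
    Prod.ext (Subtype.ext (x.1.2 a ha)) (Subtype.ext (h3 a ha _ x.2.2))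
  have h7 : ∀ a ∈ I, ∀ x : Fin r → A ⧸ I, a • x = 0 := fun a ha x => funext fun i => by
    obtain ⟨y, hy⟩ := Submodule.mkQ_surjective I (x i)
    rw [Pi.smul_apply, ← hy]
    exact (Submodule.Quotient.mk_eq_zero _).2 (I.mul_mem_right y ha)
  refine ⟨(Fin r → A ⧸ I) × M' × LinearMap.ker (M'.mkQ ∘ₗ ρ), _, _, inferInstance,
    fun G _ _ hG hs => ?_, M' × P, _, _, M'.subtype.coprod ρ, h4,
    Lifts.prod (Lifts.pi fun _ => lifts_quot h4 fun a ha x =>
      Prod.ext (Subtype.ext (h a ha _)) (h1.kill (h7 a ha) _)) (h5 _ h6),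
    ⟨1, Smd.trans ?_ (Smd.single (X := fun _ : Fin 1 => _) 0)⟩,
    1, Smd.trans ?_ (Smd.single (X := fun _ : Fin 1 => _) 0)⟩
  · have := hs.fin
    have := hG.loc
    rw [Nat.cast_add]
    rcases hs.prod with h | h
    · obtain ⟨_, u, v, e⟩ := h.pi
      exact le_add_left ((length_le_of_surjective (v ∘ₗ Submodule.mkQ I)
        ((RightInverse.surjective (f := v) (g := u) (LinearMap.congr_fun e)).comp
          (Submodule.mkQ_surjective I))).trans len_cast.ge)
    · exact le_add_right (hN G (fun a ha => h.kill (h6 a ha)) hG)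
  · obtain ⟨u, v, e⟩ := h1
    exact ⟨(u ∘ₗ LinearMap.snd A _ _).prod (LinearMap.inl A _ _ ∘ₗ LinearMap.fst A _ _),
      (LinearMap.fst A _ _ ∘ₗ LinearMap.snd A _ _).prod (v ∘ₗ LinearMap.fst A _ _),
      LinearMap.ext fun x => Prod.ext rfl (LinearMap.congr_fun e x.2)⟩
  · have h8 : ∀ x : LinearMap.ker (M'.subtype.coprod ρ), ρ x.1.2 = -x.1.1.1 := fun x =>
      eq_neg_of_add_eq_zero_right x.2
    refine ⟨LinearMap.inr A _ _ ∘ₗ LinearMap.inr A _ _ ∘ₗ LinearMap.codRestrict _
      (LinearMap.snd A _ _ ∘ₗ Submodule.subtype _) fun x => (Submodule.Quotient.mk_eq_zero _).2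
        (h8 x ▸ neg_mem x.1.1.2), LinearMap.codRestrict _ ((-ρ.restrict fun x hx =>
          (Submodule.Quotient.mk_eq_zero _).1 hx).prod (Submodule.subtype _))
          (fun x => by simp) ∘ₗ LinearMap.snd A _ _ ∘ₗ LinearMap.snd A _ _,
      LinearMap.ext fun x => Subtype.ext (Prod.ext (Subtype.ext ?_) rfl)⟩
    exact neg_eq_iff_eq_neg.2 (h8 x)

theorem bdd_of_not_many {p : ∀ (M : Type) [AddCommGroup M] [Module A M], Prop}
    (h : ¬ Many A I p) : ∃ N : ℕ, ∀ (G : Type) [AddCommGroup G] [Module A G] [Module.Finite A G],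
      (∀ a ∈ I, ∀ x : G, a • x = 0) → p G → length A G ≤ N := by
  by_contra hn
  push Not at hn
  choose V _ _ _ h1 h2 h3 using hn
  let a : ℕ → ℕ := fun n => Nat.rec 0 (fun _ b => len A (V b)) n
  have ha : StrictMono a := strictMono_nat_of_lt_succ fun n => by
    have := h3 (a n)
    rwa [← len_cast, Nat.cast_lt] at this
  exact h ⟨fun n => V (a n), _, _, fun n => ⟨inferInstance, h1 _, h2 _⟩, fun m n hne =>
    ⟨fun e => hne (Nat.succ_injective (ha.injective (congrArg ENat.toNat e.length_eq)))⟩⟩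

end

variable {C : Type} [CommRing C] [IsArtinianRing C] {A : Type} [Ring A] [Algebra C A]
  [Module.Finite C A] {I : Ideal A} [I.IsTwoSided]

theorem generic_min (h0 : ¬ Many A (col I) fun M _ _ => Indec A M)
    (h : ∀ k : ℕ, ∃ (M : Type) (_ : AddCommGroup M) (_ : Module A M) (_ : Module C M)
      (_ : IsScalarTower C A M) (_ : Module.Finite A M), (∀ a ∈ I, ∀ x : M, a • x = 0) ∧
      k * len C (M →ₗ[A] M) < len C M ^ 2) : HasGeneric A := by
  have := noeth C A
  have : IsArtinianRing A := isArtinian_of_tower C inferInstance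
  obtain ⟨N, hN⟩ := bdd_of_not_many h0
  refine generic_small (C := C) (N + len A A) fun k => ?_
  obtain ⟨M, _, _, _, _, _, h2, h3⟩ := h k
  obtain ⟨Y, _, _, _, h4, h5⟩ := exists_resolved h2 hN
  exact ⟨Y, M, _, _, inferInstance, _, _, _, inferInstance, inferInstance, h4, h5, h3⟩

variable (C) in
include C in
theorem generic_brick (h0 : ¬ Many A (col I) fun M _ _ => Indec A M)
    (h : Many A I fun M _ _ => Brick A M) : HasGeneric A := by
  by_contra hG
  obtain ⟨V, _, _, h1, h2⟩ := h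
  have := fun n => (h1 n).1
  let _ : ∀ n, Module C (V n) := fun n => Module.compHom (V n) (algebraMap C A)
  have : ∀ n, IsScalarTower C A (V n) := fun n => IsScalarTower.of_compHom C A (V n)
  refine hG (generic_min (C := C) h0 fun k => ?_)
  obtain ⟨n, hn⟩ : ∃ n, k < len C (V n) := by
    by_contra hn
    push Not at hn
    exact hG (generic_of_bdd (fun n => (h1 n).2.2.indec) h2 k hn)
  have := finC C A (V n)
  have := (h1 n).2.2.1
  obtain ⟨x, hx⟩ := exists_ne (0 : V n)
  have h3 := len_le_len.2 (length_le_of_injective (ev C A (V n) x) ((injective_iff_map_eq_zero _).2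
    fun u hu => by_contra fun h => hx (((h1 n).2.2.2 u h).1 (hu.trans (map_zero u).symm))))
  refine ⟨V n, _, _, _, inferInstance, inferInstance, (h1 n).2.1, ?_⟩
  nlinarith

variable (C) in
include C in
/-- The case in which every factor ring of infinite type has infinitely many bricks. -/
theorem generic_of_bricks (h0 : Many A (⊥ : Ideal A) fun M _ _ => Indec A M)
    (h : ∀ I : Ideal A, I.IsTwoSided → (Many A I fun M _ _ => Indec A M) →
      Many A I fun M _ _ => Brick A M) : HasGeneric A := by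
  have := noeth C A
  have : IsArtinianRing A := isArtinian_of_tower C inferInstance
  obtain ⟨I, ⟨h1, h2⟩, h3⟩ := set_has_maximal_iff_noetherian.2 (inferInstance : IsNoetherian A A)
    {I : Ideal A | I.IsTwoSided ∧ Many A I fun M _ _ => Indec A M} ⟨⊥, inferInstance, h0⟩
  refine generic_brick C (fun c => h3 _ ⟨inferInstance, c⟩ (lt_col fun h4 => ?_)) (h I h1 h2)
  obtain ⟨V, _, _, h5, -⟩ := h2
  have := (h5 0).2.2.1
  obtain ⟨x, hx⟩ := exists_ne (0 : V 0)
  exact hx (by simpa using (h5 0).2.1 1 h4 x)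

end Pool.Agent.MP_bd94e8_al.H83
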