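import Mathlib

/-!
Indecomposable modules, almost split sequences and generic modules.
-/

set_option autoImplicit false

namespace Pool.Agent.MP_bd94e8_al.H83

variable (A : Type) [Ring A]

/-- A nonzero module that is not a direct sum of two nonzero submodules. -/
def Indec (M : Type) [AddCommGroup M] [Module A M] : Prop :=
  Nontrivial M ∧ ∀ P Q : Submodule A M, IsCompl P Q → P = ⊥ ∨ Q = ⊥

/-- There is an indecomposable module that is not finitely generated and has finite length over
its endomorphism ring. -/
def HasGeneric : Prop :=
  ∃ (G : Type) (_ : AddCommGroup G) (_ : Module A G), Indec A G ∧ ¬ Module.Finite A G ∧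
    IsNoetherian (Module.End A G) G ∧ IsArtinian (Module.End A G) G

variable {A} {X E Y : Type} [AddCommGroup X] [Module A X] [AddCommGroup E] [Module A E]
  [AddCommGroup Y] [Module A Y]

/-- `0 → X → E → Y → 0` is an almost split sequence: it is exact and not split, every map from `X`
to a finitely generated module that is not a split monomorphism factors through `f`, and every
map from a finitely generated module to `Y` that is not a split epimorphism factors through `g`. -/
structure AlmostSplit (f : X →ₗ[A] E) (g : E →ₗ[A] Y) : Prop where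
  inj : Function.Injective f
  exact : Function.Exact f g
  surj : Function.Surjective g
  nonsplit : ¬ ∃ s : Y →ₗ[A] E, g ∘ₗ s = LinearMap.id
  left : ∀ (M : Type) [AddCommGroup M] [Module A M] [Module.Finite A M] (u : X →ₗ[A] M),
    (¬ ∃ t : M →ₗ[A] X, t ∘ₗ u = LinearMap.id) → ∃ v : E →ₗ[A] M, v ∘ₗ f = u
  right : ∀ (M : Type) [AddCommGroup M] [Module A M] [Module.Finite A M] (u : M →ₗ[A] Y),
    (¬ ∃ s : Y →ₗ[A] M, u ∘ₗ s = LinearMap.id) → ∃ v : M →ₗ[A] E, g ∘ₗ v = u

end Pool.Agent.MP_bd94e8_al.H83
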