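import Pool.Agent.MP_bd94e8_al.H83.Defs

/-!
Direct summands, relative resolutions of length one, bricks.
-/

set_option autoImplicit false

namespace Pool.Agent.MP_bd94e8_al.H83

variable (A : Type) [Ring A]

/-- `Y` is isomorphic to a direct summand of `Z`. -/
def Smd (Y Z : Type) [AddCommGroup Y] [Module A Y] [AddCommGroup Z] [Module A Z] : Prop :=
  ∃ (a : Y →ₗ[A] Z) (b : Z →ₗ[A] Y), b ∘ₗ a = LinearMap.id

/-- Every indecomposable direct summand of `X` has length at most `N`. -/
def Short (N : ℕ) (X : Type) [AddCommGroup X] [Module A X] : Prop :=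
  ∀ (G : Type) [AddCommGroup G] [Module A G], Indec A G → Smd A G X → Module.length A G ≤ N

/-- There is an exact sequence `0 → K → Z → M → 0` with `K` and `Z` direct summands of finite
powers of `X`, such that every map `X → M` factors through `Z → M`. -/
def Resolved (X M : Type) [AddCommGroup X] [Module A X] [AddCommGroup M] [Module A M] : Prop :=
  ∃ (Z : Type) (_ : AddCommGroup Z) (_ : Module A Z) (π : Z →ₗ[A] M), Function.Surjective π ∧
    (∀ u : X →ₗ[A] M, ∃ v : X →ₗ[A] Z, π ∘ₗ v = u) ∧ (∃ m : ℕ, Smd A Z (Fin m → X)) ∧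
    ∃ n : ℕ, Smd A (LinearMap.ker π) (Fin n → X)

/-- A nonzero module all of whose nonzero endomorphisms are bijective. -/
def Brick (M : Type) [AddCommGroup M] [Module A M] : Prop :=
  Nontrivial M ∧ ∀ u : M →ₗ[A] M, u ≠ 0 → Function.Bijective u

/-- There are infinitely many pairwise non-isomorphic finitely generated modules that are
annihilated by the elements of `I` and have the property `p`. -/
def Many (I : Set A) (p : ∀ (M : Type) [AddCommGroup M] [Module A M], Prop) : Prop :=
  ∃ (V : ℕ → Type) (_ : ∀ n, AddCommGroup (V n)) (_ : ∀ n, Module A (V n)),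
    (∀ n, Module.Finite A (V n) ∧ (∀ a ∈ I, ∀ x : V n, a • x = 0) ∧ p (V n)) ∧
      ∀ m n, m ≠ n → IsEmpty (V m ≃ₗ[A] V n)

end Pool.Agent.MP_bd94e8_al.H83
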