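import Pool.Agent.MP_bd94e8_al.H83.Res

/-!
Modules resolved by a fixed finite family, with small endomorphism rings, give a generic module.
-/

set_option autoImplicit false
set_option linter.unusedSectionVars false

namespace Pool.Agent.MP_bd94e8_al.H83

open Module Function Finset H Filter Topology

variable {C : Type} [CommRing C] [IsArtinianRing C] {A : Type} [Ring A] [Algebra C A]
  [Module.Finite C A] {ι : Type} [Fintype ι] [DecidableEq ι] {X : ι → Type}
  [∀ i, AddCommGroup (X i)] [∀ i, Module A (X i)] [∀ i, Module C (X i)]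
  [∀ i, IsScalarTower C A (X i)] [∀ i, Module.Finite A (X i)]
  {B P : Type} [AddCommGroup B] [Module A B] [Module.Finite A B] [AddCommGroup P]
  [Module A P] [Module.Finite A P]

theorem cl_fst (a : ι → ℕ) : cl (Sigma.fst : (Σ i, Fin (a i)) → ι) = fun i => (a i : ℤ) := by
  funext i
  rw [cl, Fintype.sum_sigma, sum_eq_single i (fun j _ h => by simp [h]) (by simp)]
  simp

theorem cl_blow {σ : Type} [Fintype σ] (d : ℕ) (l : σ → ι) :
    cl (fun p : Fin d × σ => l p.2) = (d : ℤ) • cl l := by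
  funext i
  rw [cl, Fintype.sum_prod_type, Pi.smul_apply, cl]
  simp

theorem exact_ker {Q Y : Type} [AddCommGroup Q] [Module A Q] [AddCommGroup Y] [Module A Y]
    (ρ : P →ₗ[A] Y) {κ : Q →ₗ[A] LinearMap.ker ρ} (h : Surjective κ) :
    Exact ((LinearMap.ker ρ).subtype ∘ₗ κ) ρ := fun y =>
  ⟨fun hy => (h ⟨y, hy⟩).imp fun _ e => congrArg Subtype.val e, fun ⟨x, e⟩ => e ▸ (κ x).2⟩

theorem wv_mono {N : Type} [AddCommGroup N] [Module A N] [Module (K C) N] [SMulCommClass A (K C) N]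
    {U U' : Submodule (K C) (B →ₗ[A] N)} (h : U ≤ U') : wv X U ≤ wv X U' := fun _ =>
  Nat.cast_le.2 (len_le_len.2 (len_mono fun _ hw => mem_W.2 fun Φ => h (mem_W.1 hw Φ)))

theorem fin_wv (κ : B →ₗ[A] P) (f : (ι → ℤ) → ι → ℤ) :
    {u | ∃ U, Ex C (H C (∀ i, X i)) κ ≤ U ∧ u = f (wv X U)}.Finite :=
  ((Set.finite_Icc 0 (hv C A X B)).image f).subset fun _ ⟨U, _, h⟩ => ⟨_, wv_mem U, h.symm⟩

theorem exists_gres (hG : ¬ HasGeneric A) [Projective A P] {κ : B →ₗ[A] P}
    {ρ : P →ₗ[A] ∀ i, X i} (hρ : Surjective ρ) (he : Exact κ ρ) (g : ι → ℤ)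
    (hg : ∀ U, Ex C (H C (∀ i, X i)) (κ ∘ₗ LinearMap.snd A A B) ≤ U →
      0 ≤ dt (wv X U - wv X (Ex C (H C (∀ i, X i)) (κ ∘ₗ LinearMap.snd A A B))) g) :
    ∃ (d : ℕ) (σ τ : Type) (_ : Fintype σ) (_ : DecidableEq σ) (_ : Fintype τ) (_ : DecidableEq τ)
      (l : σ → ι) (m : τ → ι) (M : Type) (_ : AddCommGroup M) (_ : Module A M) (_ : Module C M)
      (_ : IsScalarTower C A M) (_ : Module.Finite A M) (D : Res C A X l m M),
      0 < d ∧ Surjective (pc (H C M) D.η) ∧ cl m - cl l = (d : ℤ) • (g + 1) := by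
  let l : (Σ i, Fin (-(g + 1) i).toNat) → ι := Sigma.fst
  let m : (Σ i, Fin ((g + 1) i).toNat) → ι := Sigma.fst
  have e : cl m - cl l = g + 1 := by
    rw [cl_fst, cl_fst]
    exact funext fun i => Int.toNat_sub_toNat_neg _
  let d := len C (A × B →ₗ[A] DS X l) ^ 2 + 1
  obtain ⟨k, h, hs⟩ := Module.Finite.exists_fin (R := C)
    (M := DS X (fun p : Fin d × _ => l p.2) →ₗ[A] DS X fun p : Fin d × _ => m p.2)
  obtain ⟨M, _, _, _, _, _, D, hD⟩ := exists_res hG hρ he hs (gen_mono _ d (Nat.lt_succ_self _)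
    (fun U hU h0 => by
      rw [e, dt_add]
      refine add_pos_of_nonneg_of_pos (hg U hU) (sum_pos' (fun i _ => ?_) ?_)
      · simpa using wv_mono hU i
      · by_contra hn
        push Not at hn
        refine h0.not_ge (sum_nonpos fun i hi => mul_nonpos_of_nonpos_of_nonneg
          (by simpa using hn i hi) (sum_nonneg fun s _ => ?_))
        split_ifs <;> simp) hs)
  exact ⟨d, _, _, _, inferInstance, _, inferInstance, _, _, M, _, _, _, inferInstance,
    inferInstance, D, Nat.succ_pos _, hD, by rw [cl_blow, cl_blow, ← smul_sub, e]⟩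

theorem tend (f d : ℕ → ℕ) (hd : ∀ t, 0 < d t) (k E : ℤ)
    (h : ∀ t, |(f t : ℤ) - d t * (t + 1) * k| ≤ d t * E) :
    Tendsto (fun t => (f t : ℝ) / (d t * (t + 1))) atTop (𝓝 k) := by
  rw [tendsto_iff_norm_sub_tendsto_zero]
  refine squeeze_zero (fun _ => norm_nonneg _) (fun t => ?_)
    (by simpa using tendsto_one_div_add_atTop_nhds_zero_nat.const_mul (E : ℝ))
  have h1 : |(f t : ℝ) - d t * (t + 1) * k| ≤ d t * E := by exact_mod_cast h t
  have h2 : (0 : ℝ) < d t := by exact_mod_cast hd t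
  rw [Real.norm_eq_abs, div_sub' (by positivity), abs_div,
    abs_of_pos (a := (d t : ℝ) * _) (by positivity), div_le_iff₀ (by positivity)]
  exact h1.trans_eq (by field_simp)

theorem len_self {M : Type} [AddCommGroup M] [Module A M] [Module C M] [IsScalarTower C A M] :
    len C (A →ₗ[A] M) = len C M :=
  congrArg ENat.toNat (LinearMap.ringLmapEquivSelf A C M).length_eq

variable (X) in
theorem generic_fam (E : ℕ) (h : ∀ k : ℕ, ∃ (σ τ : Type) (_ : Fintype σ) (_ : DecidableEq σ)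
      (_ : Fintype τ) (_ : DecidableEq τ) (l : σ → ι) (m : τ → ι) (M : Type) (_ : AddCommGroup M)
      (_ : Module A M) (_ : Module C M) (_ : IsScalarTower C A M) (_ : Module.Finite A M)
      (_ : Res C A X l m M), (∀ i, |(cl m - cl l) i| ≤ E * len C M) ∧
      k * len C (M →ₗ[A] M) < len C M ^ 2) : HasGeneric A := by
  by_contra hG
  have := noeth C A
  obtain ⟨n, ρ, hρ⟩ := Module.Finite.exists_fin' A (∀ i, X i)
  have he := LinearMap.exact_subtype_ker_map ρ
  let κ := (LinearMap.ker ρ).subtype ∘ₗ LinearMap.snd A A _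
  let c := fun i => hv C A X (X i)
  have key : ∀ y : ι → ℤ, (∀ u ∈ {u | ∃ U, Ex C (H C (∀ i, X i)) κ ≤ U ∧
      u = wv X U - wv X (Ex C (H C (∀ i, X i)) κ)}, 0 ≤ dt u y) → ∀ t : ℕ, _ := fun y hy t =>
    exists_gres (C := C) hG hρ he (((t : ℤ) + 1) • y) fun U hU => by
      rw [dt_smul]
      exact mul_nonneg (by positivity) (hy _ ⟨U, hU, rfl⟩)
  have hb : ∀ (y : ι → ℤ) (d t : ℤ), bf c (d • (t • y + 1)) (d • (t • y + 1)) =
      d * d * (t * t * bf c y y + t * (bf c y 1 + bf c 1 y) + bf c 1 1) := fun y d t => by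
    rw [bf_smul, bf_add, bf_smul, ← one_smul ℤ (1 : ι → ℤ), bf_smul, bf_smul, one_smul]
    ring
  obtain ⟨y, y1, y2, y3⟩ := exists_iso c (hv C A X A)
    (fin_wv κ fun u => u - wv X (Ex C (H C (∀ i, X i)) κ)) (fun y hy => by
      by_contra hn
      obtain ⟨d, _, _, _, _, _, _, _, _, M, _, _, _, _, _, D, d0, hD, e⟩ :=
        key y hy ((bf c y 1 + bf c 1 y).natAbs + (bf (R := ℤ) c 1 1).natAbs)
      have h1 := (D.len_end.2 hD).symm ▸ Nat.cast_nonneg (α := ℤ) (len C (M →ₗ[A] M))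
      rw [e, hb] at h1
      have h2 := nonneg_of_mul_nonneg_right h1 (by positivity)
      have h3 := le_abs_self (bf c y 1 + bf c 1 y)
      have h4 := le_abs_self (bf (R := ℤ) c 1 1)
      have h5 := abs_nonneg (bf c y 1 + bf c 1 y)
      have h6 := abs_nonneg (bf (R := ℤ) c 1 1)
      push_cast at h2
      nlinarith) E fun k => by
      obtain ⟨_, _, _, _, _, _, l, m, M, _, _, _, _, _, D, h1, h2⟩ := h k
      have h3 := D.len_of_lift (D.lift_proj (B := A))
      rw [len_self] at h3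
      refine ⟨cl m - cl l, ?_, ?_, h3 ▸ h1, ?_⟩
      · rintro _ ⟨U, hU, rfl⟩
        exact (D.mono hρ (exact_ker ρ Prod.snd_surjective)).cone hU
      · rw [← h3]
        exact_mod_cast Nat.pos_of_ne_zero fun e => by simp [e] at h2
      · rw [← h3]
        exact (mul_le_mul_of_nonneg_left D.len_end.1 (by simp)).trans (by exact_mod_cast h2.le)
  choose d σ τ _ _ _ _ l m M _ _ _ _ _ D d0 hD e using key y y1
  refine hG (generic_of_lim (C := C) (V := M) atTop le_rfl (fun t => d t * (t + 1))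
    (fun t => by have := d0 t; positivity) (fun B _ _ _ => ?_) (fun h0 => ?_)
    fun G _ _ _ _ _ _ _ => ?_)
  · obtain ⟨p, ρ', hρ'⟩ := Module.Finite.exists_fin' A B
    obtain ⟨q, κ', hκ'⟩ := Module.Finite.exists_fin' A (LinearMap.ker ρ')
    have h1 := fun t => (D t).hom_max hρ' (exact_ker ρ' hκ') (hD t)
    have hT := fin_wv (C := C) (X := X) ((LinearMap.ker ρ').subtype ∘ₗ κ')
      fun u => hv C A X (Fin p → A) - u
    obtain ⟨u, ⟨U, hU, h2⟩, hu⟩ := Set.exists_max_image _ (fun u => dt u y) hT ⟨_, _, le_rfl, rfl⟩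
    obtain ⟨E', hE⟩ := (hT.image fun u => |dt u (1 : ι → ℤ)|).bddAbove
    refine ⟨dt u y, tend _ d d0 _ E' fun t => abs_le.2 ⟨?_, ?_⟩⟩
    · have a := (h1 t).2 ⟨U, hU, rfl⟩
      have b := (abs_le.1 (hE ⟨u, ⟨U, hU, h2⟩, rfl⟩)).1
      rw [← h2, e, dt_smul, dt_add, dt_smul] at a
      nlinarith [mul_le_mul_of_nonneg_left b (Nat.cast_nonneg (d t))]
    · obtain ⟨U', hU', a⟩ := (h1 t).1
      have b := (abs_le.1 (hE ⟨_, ⟨U', hU', rfl⟩, rfl⟩)).2
      have b' := mul_le_mul_of_nonneg_left (hu _ ⟨U', hU', rfl⟩) (by positivity : 0 ≤ (t : ℤ) + 1)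
      rw [a, e, dt_smul, dt_add, dt_smul]
      nlinarith [mul_le_mul_of_nonneg_left (add_le_add b b') (Nat.cast_nonneg (d t))]
  · have h1 := tend (fun t => len C (M t)) d d0 (dt (hv C A X A) y) |dt (hv C A X A) 1| fun t => by
      rw [← len_self (A := A), (D t).len_of_lift (D t).lift_proj, e, dt_smul, dt_add, dt_smul,
        mul_add, mul_assoc, add_sub_cancel_left, abs_mul, Nat.abs_cast]
    exact y2.ne' (by exact_mod_cast tendsto_nhds_unique h1 h0)
  · have h1 : Tendsto (fun t : ℕ => (len C (G →ₗ[A] G) : ℝ) ^ 2 * (1 / (t + 1) *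
        ((bf c y 1 + bf c 1 y : ℤ) + 1 / (t + 1) * (bf c 1 1 : ℤ)))) atTop (𝓝 0) := by
      have a := tendsto_one_div_add_atTop_nhds_zero_nat (𝕜 := ℝ)
      simpa using (a.mul ((a.mul_const _).const_add _)).const_mul _
    refine squeeze_zero (fun t => by positivity) (fun t => Real.le_sqrt_of_sq_le ?_)
      (Real.sqrt_zero ▸ h1.sqrt)
    have a := (D t).len_end.2 (hD t)
    rw [e, hb, y3] at a
    have b : (len C ((G →ₗ[A] M t) ⧸ Rad A G (M t) C) : ℝ) ^ 2 ≤
        (len C (G →ₗ[A] G) : ℝ) ^ 2 * (len C (M t →ₗ[A] M t) : ℤ) := by exact_mod_cast mult_le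
    have h2 : (0 : ℝ) < d t := by exact_mod_cast d0 t
    rw [div_pow, div_le_iff₀ (by positivity)]
    refine b.trans_eq ?_
    rw [← a]
    push_cast
    field_simp
    ring

end Pool.Agent.MP_bd94e8_al.H83
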