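import Pool.Agent.MP_bd94e8_al.H83.Count

/-!
Generic maps into far slices are injective on left exact functors, if growth is exponential.
-/

set_option autoImplicit false
set_option linter.unusedSectionVars false

namespace Pool.Agent.MP_bd94e8_al.H83

open Module Function Finset Filter H

variable {C : Type} [CommRing C] [IsArtinianRing C] {A : Type} [Ring A] [Algebra C A]
  [Module.Finite C A] {r : ℕ} {Z : ℕ → Type} [∀ p, AddCommGroup (Z p)] [∀ p, Module A (Z p)]
  [∀ p, Module C (Z p)] [∀ p, IsScalarTower C A (Z p)] [∀ p, Module.Finite A (Z p)]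
  [∀ p, IsLocalRing (End A (Z p))] (D : Msh A r Z)

variable (C) in
/-- A functor with connection that is left exact on the meshes from `b` on. -/
structure Fn (b : ℕ) (F : ℕ → Type) [∀ p, AddCommGroup (F p)] [∀ p, Module (K C) (F p)] where
  act : ∀ {p q}, (Z p →ₗ[A] Z q) →ₛₗ[algebraMap C (K C)] (F p →ₗ[K C] F q)
  comp : ∀ {p q s} (u : Z p →ₗ[A] Z q) (v : Z q →ₗ[A] Z s) x, act (v ∘ₗ u) x = act v (act u x)
  id : ∀ {p} (x : F p), act LinearMap.id x = x
  inj : ∀ p, b ≤ p → ∀ x, (∀ a, act (D.fc p a) x = 0) → x = 0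
  ex : ∀ p, b ≤ p → ∀ x : ∀ a, F (D.pos p a), ∑ a, act (D.gc p a) (x a) = 0 →
    ∃ z, ∀ a, act (D.fc p a) z = x a
  th : ℕ → ∀ {p}, F p →+ F p
  leib : ∀ i {p} (c : K C) (x : F p), th i (c • x) = thK i c • x + c • th i x
  nat : ∀ i {p q} (u : Z p →ₗ[A] Z q) x, th i (act u x) = act u (th i x)

variable {D} {b : ℕ} {F : ℕ → Type} [∀ p, AddCommGroup (F p)] [∀ p, Module (K C) (F p)]
  [∀ p, IsNoetherian (K C) (F p)] [∀ p, IsArtinian (K C) (F p)]

theorem Fn.gen (Φ : Fn C D b F) {c y : ℕ} (hc : ∀ p, c ≤ p → dd C A Z (p + r) = dd C A Z p)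
    {ε κ : ℝ} (hε : 0 < ε) (hκ : 0 ≤ κ) (hg : Grow (D.al c) ε κ) (h1 : b ≤ y) (h2 : y ≤ c) :
    ∀ᶠ n : ℕ in atTop, ∀ q : Fin r → ℕ, (∀ i, q i = c + n * r + i) → ∀ (k : ℕ)
      (h : Fin k → (Z y →ₗ[A] ∀ i, Z (q i))), Submodule.span C (Set.range h) = ⊤ → ∀ a : F y,
      (∀ i, ∑ j : Fin k, tv C j • Φ.act (q := q i) (LinearMap.proj i ∘ₗ h j) a = 0) → a = 0 := by
  filter_upwards [(tendsto_natCast_atTop_atTop.const_mul_atTop hε).eventually_gt_atTop
    (len (K C) (F y) + κ * ∑ i : Fin r, len (K C) (F (c + 0 * r + i)))] with n hn q hq k h hs a ha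
  obtain rfl : q = fun i : Fin r => c + n * r + i := funext hq
  by_contra h0
  let G : ∀ q, Submodule (K C) (F q) := fun q =>
    Submodule.span _ (Set.range fun u : Z y →ₗ[A] Z q => Φ.act u a)
  let V : ∀ s, Submodule (K C) (F s) := fun s =>
    ⨅ q, ⨅ _ : c + n * r ≤ q, ⨅ u : Z s →ₗ[A] Z q, (G q).comap (Φ.act u)
  have hV : ∀ {s x}, x ∈ V s ↔ ∀ q, c + n * r ≤ q → ∀ u : Z s →ₗ[A] Z q, Φ.act u x ∈ G q := by
    simp [V]
  have v1 : ∀ {s t} (u : Z s →ₗ[A] Z t) {x}, x ∈ V s → Φ.act u x ∈ V t := fun u x hx =>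
    hV.2 fun q hq w => Φ.comp u w x ▸ hV.1 hx q hq _
  have v2 : a ∈ V y := hV.2 fun q _ u => Submodule.subset_span ⟨u, rfl⟩
  have v3 : ∀ p, b ≤ p → p < c + n * r → ∑ t, (len (K C) (V (D.pos p t)) : ℝ) ≤
      len (K C) (V p) + len (K C) (V (p + r)) := fun p hp hp' => by
    have := len_mid (LinearMap.pi fun t => (Φ.act (D.fc p t)).restrict fun _ => v1 _)
      (∑ t, (Φ.act (D.gc p t)).restrict (fun _ => v1 _) ∘ₗ
        LinearMap.proj (φ := fun t => V (D.pos p t)) t) fun x hx => by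
        obtain ⟨z, hz⟩ := Φ.ex p hp (fun t => x t) (by simpa using congrArg Subtype.val hx)
        refine ⟨⟨z, hV.2 fun q hq u => ?_⟩, funext fun t => Subtype.ext (hz t)⟩
        obtain ⟨v, rfl⟩ := D.left u (mem_rad.1 (D.rad_ne (C := C) (by omega) u))
        rw [map_sum, LinearMap.sum_apply]
        exact Submodule.sum_mem _ fun t _ => by
          rw [Φ.comp, hz]; exact hV.1 (x t).2 q hq _
    rw [length_pi_of_fintype] at this
    simp only [← len_cast] at this
    exact_mod_cast this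
  have v4 : ∀ s, y ≤ s → ∃ q, s ≤ q ∧ q < s + r ∧ ∃ x ∈ V q, x ≠ 0 := fun s hs => by
    induction s, hs using Nat.le_induction with
    | base => exact ⟨y, le_rfl, by have := D.hr; omega, a, v2, h0⟩
    | succ s hs ih =>
      obtain ⟨q, e1, e2, x, hx, hx0⟩ := ih
      rcases e1.eq_or_lt with rfl | e
      · obtain ⟨t, ht⟩ := not_forall.1 (mt (Φ.inj s (by omega) x) hx0)
        exact ⟨_, D.lt s t, by have := D.gt s t; omega, _, v1 _ hx, ht⟩
      · exact ⟨q, e, by omega, x, hx, hx0⟩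
  have v5 := hg (fun m i => len (K C) (V (c + m * r + i))) (fun _ _ => Nat.cast_nonneg _) n
    fun m hm i => by
      rw [← D.sum_pos hc fun q => (len (K C) (V q) : ℝ),
        show c + (m + 1) * r + i = c + m * r + i + r by ring]
      have := Nat.mul_le_mul_right r (Nat.succ_le_of_lt hm)
      exact v3 _ (by omega) (by rw [Nat.succ_mul] at this; omega)
  have v6 : (n : ℝ) ≤ ∑ m ∈ range n, ∑ i : Fin r, (len (K C) (V (c + m * r + i)) : ℝ) := by
    refine le_trans (by simp) (card_nsmul_le_sum _ _ 1 fun m _ => ?_)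
    obtain ⟨q, e1, e2, x, hx, hx0⟩ := v4 (c + m * r) (by omega)
    obtain ⟨i, rfl⟩ : ∃ i : Fin r, q = c + m * r + i := ⟨⟨q - (c + m * r), by omega⟩, by simp; omega⟩
    have : Nontrivial (V _) := ⟨⟨x, hx⟩, 0, fun e => hx0 (congrArg Subtype.val e)⟩
    refine le_trans ?_ (single_le_sum (fun _ _ => Nat.cast_nonneg _) (mem_univ i))
    exact_mod_cast len_pos
  have v7 : ∑ i : Fin r, (len (K C) (V (c + 0 * r + i)) : ℝ) ≤
      ∑ i : Fin r, len (K C) (F (c + 0 * r + i)) := by
    rw [Nat.cast_sum]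
    refine sum_le_sum fun i _ => ?_
    have := len_sub_le (V (c + 0 * r + i))
    rw [← len_cast, ← len_cast] at this
    exact_mod_cast this
  let η : F y →ₗ[K C] ∀ i : Fin r, F (c + n * r + i) :=
    LinearMap.pi fun i => ∑ j : Fin k, tv C j • Φ.act (LinearMap.proj i ∘ₗ h j)
  have v8 : ∀ w : Z y →ₗ[A] ∀ i : Fin r, Z (c + n * r + i), (fun i : Fin r =>
      Φ.act (q := c + n * r + i) (LinearMap.proj i ∘ₗ w) a) ∈ LinearMap.range η := fun w => by
    obtain ⟨x, rfl⟩ := (Submodule.mem_span_range_iff_exists_fun C).1 (hs ▸ Submodule.mem_top (x := w))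
    have : ∀ j, (fun i : Fin r => Φ.act (q := c + n * r + i) (LinearMap.proj i ∘ₗ h j) a) ∈
        LinearMap.range η := fun j =>
      (Submodule.smul_mem_iff_of_isUnit _ (tv_unit j)).1 ⟨-Φ.th j a, funext fun i => by
        have e := congrArg (Φ.th j) (ha i)
        simp only [map_sum, map_zero, Φ.leib, Φ.nat, thK_tv, sum_add_distrib, ite_smul, zero_smul,
          Fin.val_inj, sum_ite_eq, mem_univ, if_true] at e
        simpa [η] using (eq_neg_of_add_eq_zero_left e).symm⟩
    convert Submodule.sum_mem _ fun j (_ : j ∈ univ) =>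
      Submodule.smul_mem _ (algebraMap C (K C) (x j)) (this j) using 1
    funext i
    rw [comp_sum, map_sum, LinearMap.sum_apply, Finset.sum_apply]
    exact sum_congr rfl fun j _ => LinearMap.congr_fun ((congrArg Φ.act (map_smul (post C _ _) _ _)).trans
      (Φ.act.map_smulₛₗ _ _)) a
  have v9 := (length_le_of_injective ((LinearMap.piMap fun i : Fin r =>
    (V (c + n * r + i)).subtype).codRestrict (LinearMap.range η) fun x => by
      rw [← univ_sum_single (LinearMap.piMap _ x)]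
      refine Submodule.sum_mem _ fun i _ => (Submodule.span_le (p := (LinearMap.range η).comap
        (LinearMap.single (K C) (fun i : Fin r => F (c + n * r + i)) i))).2 ?_
        (Φ.id (x i).1 ▸ hV.1 (x i).2 _ (by omega) LinearMap.id)
      rintro _ ⟨u, rfl⟩
      change Pi.single i (Φ.act u a) ∈ LinearMap.range η
      convert v8 (LinearMap.single A (fun i : Fin r => Z (c + n * r + i)) i ∘ₗ u) using 1
      funext j
      rw [← LinearMap.comp_assoc]
      by_cases e : j = i
      · subst e; simp [LinearMap.proj_comp_single_same]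
      · simp [LinearMap.proj_comp_single_ne _ _ _ _ e, e])
    fun x x' e => funext fun i => Subtype.ext (congrFun (congrArg Subtype.val e) i)).trans
      (len_range_le η)
  rw [length_pi_of_fintype] at v9
  simp only [← len_cast] at v9
  have v10 : ∑ i : Fin r, (len (K C) (V (c + n * r + i)) : ℝ) ≤ len (K C) (F y) := by
    exact_mod_cast v9
  nlinarith [mul_le_mul_of_nonneg_left v6 hε.le, mul_le_mul_of_nonneg_left v7 hκ]

end Pool.Agent.MP_bd94e8_al.H83
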