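import Pool.Agent.MP_bd94e8_al.H83.Rank

/-!
Base change to Hahn series.
-/

set_option autoImplicit false
set_option linter.unusedSectionVars false

namespace Pool.Agent.MP_bd94e8_al.H83

open Module Function Finset

/-- The exponents. -/
abbrev Gam : Type := Lex (ℕ →₀ ℤ)

/-- The ring of Hahn series. -/
abbrev K (C : Type) [CommRing C] : Type := HahnSeries Gam C

/-- Hahn series with coefficients in a module. -/
def H (C M : Type) [CommRing C] [AddCommGroup M] [Module C M] : Type := HahnModule Gam C M

variable {C : Type} [CommRing C] {M M' M'' : Type} [AddCommGroup M] [Module C M]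
  [AddCommGroup M'] [Module C M'] [AddCommGroup M''] [Module C M'']

noncomputable instance : AddCommGroup (H C M) := inferInstanceAs (AddCommGroup (HahnModule Gam C M))
noncomputable instance : Module (K C) (H C M) :=
  inferInstanceAs (Module (K C) (HahnModule Gam C M))
noncomputable instance (priority := low) modH {A : Type} [Ring A] [Module A M] : Module A (H C M) :=
  inferInstanceAs (Module A (HahnSeries Gam M))
instance : IsScalarTower C (K C) (H C M) :=
  inferInstanceAs (IsScalarTower C (K C) (HahnModule Gam C M))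
instance {A : Type} [Ring A] [Algebra C A] [Module A M] [IsScalarTower C A M] :
    IsScalarTower C A (H C M) := inferInstanceAs (IsScalarTower C A (HahnSeries Gam M))

namespace H

/-- Coefficients. -/
def cf (y : H C M) : Gam → M := HahnSeries.coeff y

/-- A series with given coefficients. -/
def mk (f : Gam → M) (h : (support f).IsPWO) : H C M := HahnSeries.mk f h

@[simp] theorem cf_mk (f : Gam → M) (h : (support f).IsPWO) : (mk f h : H C M).cf = f := rfl
theorem pwo (y : H C M) : (support y.cf).IsPWO := HahnSeries.isPWO_support y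
@[ext] theorem ext {x y : H C M} (h : ∀ g, x.cf g = y.cf g) : x = y :=
  HahnSeries.coeff_inj.1 (funext h)
@[simp] theorem cf_zero (g : Gam) : (0 : H C M).cf g = 0 := rfl
@[simp] theorem cf_add (x y : H C M) (g : Gam) : (x + y).cf g = x.cf g + y.cf g := rfl
@[simp] theorem cf_sub (x y : H C M) (g : Gam) : (x - y).cf g = x.cf g - y.cf g := rfl
@[simp] theorem cf_smulA {A : Type} [Ring A] [Module A M] (a : A) (x : H C M) (g : Gam) :
    (a • x).cf g = a • x.cf g := rfl
@[simp] theorem cf_sum {ι : Type} (s : Finset ι) (x : ι → H C M) (g : Gam) :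
    (∑ i ∈ s, x i).cf g = ∑ i ∈ s, (x i).cf g := HahnSeries.coeff_sum g

theorem cf_smul (c : K C) (y : H C M) {s t : Set Gam} (hs : s.IsPWO) (ht : t.IsPWO)
    (h1 : c.support ⊆ s) (h2 : support y.cf ⊆ t) (g : Gam) :
    (c • y).cf g = ∑ p ∈ antidiagonal hs ht g, c.coeff p.1 • y.cf p.2 := by
  have h := HahnModule.coeff_smul_right (x := c) (y := y) (a := g) ht h2
  refine h.trans (sum_subset_zero_on_sdiff ?_ ?_ fun _ _ => rfl)
  · exact vaddAntidiagonal_mono_left _ h1 _ _
  · intro p hp
    have h3 := mem_sdiff.1 hp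
    have h4 := mem_antidiagonal.1 h3.1
    have : c.coeff p.1 = 0 := by
      by_contra e
      exact h3.2 ((mem_vaddAntidiagonal _ _).2 ⟨e, h4.2⟩)
    rw [this, zero_smul]

/-- Functoriality. -/
noncomputable def map (u : M →ₗ[C] M') : H C M →ₗ[K C] H C M' where
  toFun y := mk (fun g => u (y.cf g)) (y.pwo.mono fun g hg e => hg (by simp [e]))
  map_add' x y := by ext; simp
  map_smul' c y := by
    ext g
    rw [RingHom.id_apply, cf_smul c _ c.isPWO_support y.pwo le_rfl
      (fun g hg e => hg (by simp [e])), cf_mk, cf_smul c _ c.isPWO_support y.pwo le_rfl le_rfl]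
    simp

@[simp] theorem cf_map (u : M →ₗ[C] M') (y : H C M) (g : Gam) : (map u y).cf g = u (y.cf g) := rfl

theorem map_map (u : M →ₗ[C] M') (v : M' →ₗ[C] M'') (y : H C M) :
    map v (map u y) = map (v ∘ₗ u) y := rfl

instance {A : Type} [Ring A] [Algebra C A] [Module A M] [IsScalarTower C A M] :
    SMulCommClass A (K C) (H C M) :=
  ⟨fun a c y => (map (Algebra.lsmul C C M a)).map_smul c y⟩

variable (C M) in
/-- Constant series. -/
noncomputable def sgl (A : Type) [Ring A] [Module A M] : M →ₗ[A] H C M :=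
  HahnSeries.single.linearMap (0 : Gam)

variable {A : Type} [Ring A] [Module A M]

theorem cf_sgl (x : M) (g : Gam) : (sgl C M A x).cf g = if g = 0 then x else 0 := by
  change (HahnSeries.single 0 x).coeff g = _
  split_ifs with h
  · rw [h, HahnSeries.coeff_single_same]
  · exact HahnSeries.coeff_single_of_ne h

theorem map_sgl {A' : Type} [Ring A'] [Module A' M'] (u : M →ₗ[C] M') (x : M) :
    map u (sgl C M A x) = sgl C M' A' (u x) := by
  ext g
  rw [cf_map, cf_sgl, cf_sgl]
  split_ifs <;> simp

theorem cf_smul_sgl (c : K C) (x : M) (g : Gam) : (c • sgl C M A x).cf g = c.coeff g • x := by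
  rw [cf_smul c _ (c.isPWO_support.insert g) (Set.isPWO_singleton 0) (Set.subset_insert _ _)
    (fun g hg => by
      by_contra e
      exact hg (by rw [cf_sgl]; exact if_neg e)), sum_eq_single (g, 0)]
  · simp [cf_sgl]
  · intro p hp hne
    obtain ⟨-, h1, h2⟩ := mem_antidiagonal.1 hp
    rw [Set.mem_singleton_iff.1 h1, add_zero] at h2
    exact (hne (Prod.ext h2 h1)).elim
  · intro h
    exact (h (mem_antidiagonal.2 ⟨by simp, rfl, by simp⟩)).elim

theorem exists_lift {X : Type} [Zero X] (y : H C M) (P : M → X → Prop) (h0 : P 0 0)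
    (h : ∀ g, ∃ x, P (y.cf g) x) :
    ∃ x : Gam → X, support x ⊆ support y.cf ∧ ∀ g, P (y.cf g) (x g) := by
  classical
  choose x hx using h
  refine ⟨fun g => if y.cf g = 0 then 0 else x g, fun g hg e => hg (if_pos e), fun g => ?_⟩
  beta_reduce
  split_ifs with e
  · rwa [e]
  · exact hx g

theorem mem_range_map (u : M →ₗ[C] M') (y : H C M') (h : ∀ g, y.cf g ∈ LinearMap.range u) :
    y ∈ LinearMap.range (map u) := by
  obtain ⟨x, h1, h2⟩ := y.exists_lift (fun a x => u x = a) (map_zero u) h
  exact ⟨mk x (y.pwo.mono h1), ext h2⟩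

theorem map_surj {u : M →ₗ[C] M'} (h : Surjective u) : Surjective (map u) :=
  fun y => mem_range_map u y fun _ => h _

theorem map_inj {u : M →ₗ[C] M'} (h : Injective u) : Injective (map u) :=
  fun _ _ e => ext fun g => h (congrArg (fun z => cf z g) e)

theorem map_exact {u : M →ₗ[C] M'} {v : M' →ₗ[C] M''} (h : Exact u v) : Exact (map u) (map v) :=
  fun y => ⟨fun e => mem_range_map u y fun g => (h _).1 (congrArg (fun z => cf z g) e), by
    rintro ⟨x, rfl⟩
    exact ext fun g => h.apply_apply_eq_zero _⟩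

theorem exists_sum {ι : Type} [Fintype ι] (x : ι → M) (y : H C M)
    (h : ∀ g, y.cf g ∈ Submodule.span C (Set.range x)) :
    ∃ c : ι → K C, y = ∑ i, c i • sgl C M A (x i) := by
  obtain ⟨c, h1, h2⟩ := y.exists_lift (fun a (c : ι → C) => ∑ i, c i • x i = a) (by simp)
    fun g => (Submodule.mem_span_range_iff_exists_fun C).1 (h g)
  refine ⟨fun i => ⟨fun g => c g i, y.pwo.mono fun g hg => h1 fun e => hg (by simp [e])⟩, ?_⟩
  ext g
  simp [cf_smul_sgl, h2]

variable [IsArtinianRing C]

theorem mem_of_cf [Module.Finite C M] (P : Submodule C M) (W : Submodule (K C) (H C M))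
    (h : ∀ x ∈ P, sgl C M A x ∈ W) (y : H C M) (hy : ∀ g, y.cf g ∈ P) : y ∈ W := by
  obtain ⟨n, x, hx⟩ := Submodule.fg_iff_exists_fin_generating_family.1 (IsNoetherian.noetherian P)
  obtain ⟨c, rfl⟩ := exists_sum (A := A) x y (hx ▸ hy)
  exact W.sum_mem fun i _ => W.smul_mem _ (h _ (hx ▸ Submodule.subset_span ⟨i, rfl⟩))

theorem hom_ext [Module.Finite C M] {N : Type} [AddCommGroup N] [Module (K C) N]
    {u v : H C M →ₗ[K C] N} (h : ∀ x, u (sgl C M A x) = v (sgl C M A x)) : u = v :=
  LinearMap.ext fun y => mem_of_cf (A := A) ⊤ (LinearMap.eqLocus u v) (fun x _ => h x) y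
    fun _ => trivial

/-- The universal property of base change. -/
theorem exists_ext [Module.Finite C M] {N : Type} [AddCommGroup N] [Module (K C) N] [Module C N]
    [IsScalarTower C (K C) N] (u : M →ₗ[C] N) :
    ∃ Φ : H C M →ₗ[K C] N, ∀ x, Φ (sgl C M A x) = u x := by
  classical
  obtain ⟨n, π, hπ⟩ := Module.Finite.exists_fin' C M
  let co : Fin n → H C (Fin n → C) →ₗ[K C] K C := fun i => map (LinearMap.proj i)
  let Ψ : H C (Fin n → C) →ₗ[K C] N := ∑ i, (co i).smulRight (u (π (Pi.single i 1)))
  have hΨ : ∀ v, Ψ (sgl C _ C v) = u (π v) := fun v => by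
    have : ∀ i, co i (sgl C _ C v) = algebraMap C (K C) (v i) := fun i =>
      map_sgl (A' := C) (LinearMap.proj i) v
    simp only [Ψ, LinearMap.sum_apply, LinearMap.smulRight_apply, this, algebraMap_smul,
      ← map_smul, ← map_sum]
    congr 2
    ext j
    simp [Pi.single_apply]
  obtain ⟨Φ, hΦ⟩ := exists_desc (map_surj hπ) Ψ fun y hy =>
    mem_of_cf (A := C) (LinearMap.ker π) _ (fun x hx => by
      rw [LinearMap.mem_ker, hΨ, hx, map_zero]) y fun g => congrArg (fun z => cf z g) hy
  refine ⟨Φ, fun x => ?_⟩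
  obtain ⟨v, rfl⟩ := hπ x
  rw [← map_sgl (A := C), ← hΨ, ← hΦ]
  rfl

omit [IsArtinianRing C] in
theorem simple_field (m : Ideal C) [m.IsMaximal] : IsSimpleModule (K C) (H C (C ⧸ m)) := by
  let _ := Ideal.Quotient.field m
  have : Nontrivial (H C (C ⧸ m)) := inferInstanceAs (Nontrivial (K (C ⧸ m)))
  refine isSimpleModule_iff_toSpanSingleton_surjective.2 ⟨this, fun y hy z => ?_⟩
  let y' : K (C ⧸ m) := y
  let z' : K (C ⧸ m) := z
  obtain ⟨c, hc⟩ := map_surj (u := Algebra.linearMap C (C ⧸ m)) Ideal.Quotient.mk_surjective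
    (z' / y' : K (C ⧸ m))
  refine ⟨c, ext fun g => ?_⟩
  have h1 : z' = z' / y' * y' := (div_mul_cancel₀ _ hy).symm
  change cf ((show K C from c) • y) g = z'.coeff g
  rw [h1, HahnSeries.coeff_mul_left' c.pwo (by
    rw [← hc]; exact fun g hg e => hg ((congrArg _ e).trans (map_zero (Algebra.linearMap C _)))),
    cf_smul _ y c.pwo y.pwo le_rfl le_rfl]
  refine sum_congr rfl fun p _ => ?_
  rw [← hc, Algebra.smul_def]
  rfl

omit [IsArtinianRing C] in
theorem simple [IsSimpleModule C M] : IsSimpleModule (K C) (H C M) := by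
  obtain ⟨m, hm, ⟨e⟩⟩ := isSimpleModule_iff_quot_maximal.1 (inferInstance : IsSimpleModule C M)
  have := simple_field m
  exact IsSimpleModule.congr (LinearEquiv.ofBijective (map e.toLinearMap)
    ⟨map_inj e.injective, map_surj e.surjective⟩)

omit [IsArtinianRing C] in
theorem len_eq' (h : IsFiniteLength C M) : length (K C) (H C M) = length C M := by
  induction h with
  | @of_subsingleton M _ _ _ =>
    have : Subsingleton (H C M) := ⟨fun a b => ext fun _ => Subsingleton.elim _ _⟩
    simp
  | @of_simple_quotient M _ _ N _ _ ih =>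
    have := simple (C := C) (M := M ⧸ N)
    rw [len_sub_quot N, length_eq_add_of_exact _ _ (map_inj N.subtype_injective)
      (map_surj N.mkQ_surjective) (map_exact (LinearMap.exact_subtype_mkQ N)), ih,
      length_eq_one (K C), length_eq_one C (M ⧸ N)]

theorem len_eq [Module.Finite C M] : length (K C) (H C M) = length C M :=
  len_eq' (isFiniteLength_iff_isNoetherian_isArtinian.2 ⟨inferInstance, inferInstance⟩)

instance [Module.Finite C M] : IsNoetherian (K C) (H C M) :=
  (fin_len (by rw [len_eq]; exact length_ne_top)).1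

instance [Module.Finite C M] : IsArtinian (K C) (H C M) :=
  (fin_len (by rw [len_eq]; exact length_ne_top)).2

omit [IsArtinianRing C]

/-- The derivation in the direction `i`. -/
noncomputable def th (i : ℕ) : H C M →+ H C M where
  toFun y := mk (fun g => ofLex g i • y.cf g) (y.pwo.mono fun g hg e => hg (by simp [e]))
  map_zero' := by ext; simp
  map_add' x y := by ext; simp

@[simp] theorem cf_th (i : ℕ) (y : H C M) (g : Gam) : (th i y).cf g = ofLex g i • y.cf g := rfl

/-- The derivation on the ring. -/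
noncomputable def thK (i : ℕ) (c : K C) : K C := th (C := C) (M := C) i c

theorem th_smul (i : ℕ) (c : K C) (y : H C M) : th i (c • y) = thK i c • y + c • th i y := by
  ext g
  rw [cf_th, cf_add, cf_smul c y c.isPWO_support y.pwo le_rfl le_rfl,
    cf_smul (thK i c) y c.isPWO_support y.pwo (fun g hg e => hg (by
      change ofLex g i • c.coeff g = 0
      rw [e, smul_zero])) le_rfl,
    cf_smul c _ c.isPWO_support y.pwo le_rfl (fun g hg e => hg (by simp [e])), smul_sum,
    ← sum_add_distrib]
  refine sum_congr rfl fun p hp => ?_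
  rw [← (mem_antidiagonal.1 hp).2.2, cf_th, smul_comm (c.coeff p.1)]
  change _ = (ofLex p.1 i • c.coeff p.1) • _ + _
  rw [smul_assoc, ← add_smul]
  rfl

theorem th_map (i : ℕ) (u : M →ₗ[C] M') (y : H C M) : th i (map u y) = map u (th i y) := by
  ext; simp

theorem th_sgl (i : ℕ) (x : M) : th i (sgl C M A x) = 0 := by
  ext g
  rw [cf_th, cf_sgl]
  split_ifs with h <;> simp [h]

variable (C) in
/-- The variables. -/
noncomputable def tv (j : ℕ) : K C := HahnSeries.single (toLex (Finsupp.single j 1)) 1

theorem tv_unit (j : ℕ) : IsUnit (tv C j) :=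
  IsUnit.of_mul_eq_one (HahnSeries.single (-toLex (Finsupp.single j 1)) 1) (by
    rw [tv, HahnSeries.single_mul_single, add_neg_cancel, one_mul]; rfl)

theorem thK_tv (i j : ℕ) : thK i (tv C j) = if i = j then tv C j else 0 := by
  refine HahnSeries.ext (funext fun g => ?_)
  change ofLex g i • (tv C j).coeff g = _
  by_cases e : g = toLex (Finsupp.single j 1)
  · subst e
    split_ifs with h
    · simp [h]
    · simp [Finsupp.single_eq_of_ne h]
  · split_ifs <;> simp [tv, HahnSeries.coeff_single_of_ne e]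

end H

end Pool.Agent.MP_bd94e8_al.H83
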