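import Pool.Agent.MP_bd94e8_al.H83.Defs

/-!
Lengths of modules.
-/

set_option autoImplicit false

namespace Pool.Agent.MP_bd94e8_al.H83

open Module Function

section
variable {R : Type} [Ring R] {G U Φ : Type} [AddCommGroup G] [Module R G] [AddCommGroup U]
  [Module R U] [AddCommGroup Φ] [Module R Φ]

theorem len_ker_range (β : G →ₗ[R] Φ) :
    length R G = length R (LinearMap.ker β) + length R (LinearMap.range β) :=
  length_eq_add_of_exact (LinearMap.ker β).subtype β.rangeRestrict (Submodule.subtype_injective _)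
    β.surjective_rangeRestrict (by
      rw [LinearMap.exact_iff]; simp)

theorem len_sub_quot (W : Submodule R U) : length R U = length R W + length R (U ⧸ W) :=
  length_eq_add_of_exact W.subtype W.mkQ (Submodule.subtype_injective _) W.mkQ_surjective
    (LinearMap.exact_subtype_mkQ W)

theorem len_mono {W W' : Submodule R U} (h : W ≤ W') : length R W ≤ length R W' :=
  length_le_of_injective (Submodule.inclusion h) (Submodule.inclusion_injective h)

theorem len_sub_le (W : Submodule R U) : length R W ≤ length R U :=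
  length_le_of_injective W.subtype W.subtype_injective

theorem len_range_le (α : G →ₗ[R] U) : length R (LinearMap.range α) ≤ length R G :=
  length_le_of_surjective α.rangeRestrict α.surjective_rangeRestrict

theorem len_mid (α : G →ₗ[R] U) (β : U →ₗ[R] Φ) (h : LinearMap.ker β ≤ LinearMap.range α) :
    length R U ≤ length R G + length R Φ := by
  rw [len_ker_range β]
  exact add_le_add ((len_mono h).trans (len_range_le α)) (len_sub_le _)

theorem len_quot_le {W : Submodule R U} {W' : Submodule R Φ} (α : U →ₗ[R] Φ) (hs : Surjective α)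
    (h : W ≤ W'.comap α) : length R (Φ ⧸ W') ≤ length R (U ⧸ W) := by
  refine length_le_of_surjective (W.mapQ W' α h) fun y => ?_
  obtain ⟨y, rfl⟩ := W'.mkQ_surjective y
  obtain ⟨x, rfl⟩ := hs y
  exact ⟨W.mkQ x, rfl⟩

theorem len_quot_le' {W : Submodule R U} {W' : Submodule R Φ} (α : U →ₗ[R] Φ)
    (h : W'.comap α ≤ W) : length R (U ⧸ W) ≤ length R (Φ ⧸ W') := by
  refine (len_quot_le (W := W'.comap α) LinearMap.id surjective_id h).trans ?_
  refine length_le_of_injective ((W'.comap α).mapQ W' α le_rfl) ?_
  rw [← LinearMap.ker_eq_bot, Submodule.ker_mapQ, eq_bot_iff]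
  rintro _ ⟨x, hx, rfl⟩
  exact (Submodule.Quotient.mk_eq_zero _).2 hx

/-- Comparison of colengths along a linear relation. -/
theorem len_rel (α : G →ₗ[R] U) (β : G →ₗ[R] Φ) (W : Submodule R U) (Φ₀ : Submodule R Φ)
    (h : ∀ x, β x ∈ Φ₀ → α x ∈ W) :
    length R (U ⧸ W) ≤ length R (Φ ⧸ Φ₀) + length R (U ⧸ (W ⊔ LinearMap.range α)) := by
  have h1 := len_mid ((Φ₀.comap β).mapQ W α h) (W.mapQ (W ⊔ LinearMap.range α) LinearMap.id
    le_sup_left) (by
      intro y hy
      obtain ⟨y, rfl⟩ := W.mkQ_surjective y
      obtain ⟨w, hw, _, ⟨x, rfl⟩, rfl⟩ :=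
        Submodule.mem_sup.1 ((Submodule.Quotient.mk_eq_zero _).1 hy)
      refine ⟨Submodule.mkQ _ x, ?_⟩
      simp [(Submodule.Quotient.mk_eq_zero _).2 hw])
  exact h1.trans (add_le_add (len_quot_le' β le_rfl) le_rfl)

theorem len_rel' (α : G →ₗ[R] U) (β : G →ₗ[R] Φ) (W : Submodule R U) (Φ₀ : Submodule R Φ)
    (hs : Surjective α) (h : ∀ x, β x ∈ Φ₀ → α x ∈ W) :
    length R (U ⧸ W) ≤ length R (Φ ⧸ Φ₀) :=
  (len_quot_le α hs (W := Φ₀.comap β) h).trans (len_quot_le' β le_rfl)

theorem len_quot_bot : length R (U ⧸ (⊥ : Submodule R U)) = length R U :=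
  (Submodule.quotEquivOfEqBot _ rfl).length_eq

variable (R U) in
/-- The length as a natural number. -/
noncomputable def len : ℕ := (length R U).toNat

theorem len_cast [IsArtinian R U] [IsNoetherian R U] : (len R U : ℕ∞) = length R U :=
  ENat.natCast_toNat length_ne_top

theorem len_pos [IsArtinian R U] [IsNoetherian R U] [Nontrivial U] : 0 < len R U := by
  have h := length_pos (R := R) (M := U)
  rw [← len_cast] at h
  exact_mod_cast h

theorem fin_len (h : length R U ≠ ⊤) : IsNoetherian R U ∧ IsArtinian R U :=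
  isFiniteLength_iff_isNoetherian_isArtinian.1 (length_ne_top_iff.1 h)

/-- A module of length at most `b` is generated by `b` members of any generating family. -/
theorem exists_gen {ι : Type} (x : ι → U) (b : ℕ)
    (h : length R (Submodule.span R (Set.range x)) ≤ b) :
    ∃ s : Finset ι, s.card ≤ b ∧ ∀ i, x i ∈ Submodule.span R (x '' s) := by
  classical
  have key : ∀ n : ℕ, ∃ s : Finset ι, s.card ≤ n ∧ ((∀ i, x i ∈ Submodule.span R (x '' s)) ∨
      (n : ℕ∞) ≤ length R (Submodule.span R (x '' s))) := by
    intro n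
    induction n with
    | zero => exact ⟨∅, le_rfl, Or.inr (by simp)⟩
    | succ n ih =>
      obtain ⟨s, hs, h1⟩ := ih
      by_cases h2 : ∀ i, x i ∈ Submodule.span R (x '' s)
      · exact ⟨s, hs.trans n.le_succ, Or.inl h2⟩
      push Not at h2
      obtain ⟨i, hi⟩ := h2
      refine ⟨insert i s, (Finset.card_insert_le _ _).trans (by omega), Or.inr ?_⟩
      have h1 := h1.resolve_left fun h => hi (h i)
      have hlt : Submodule.span R (x '' s) < Submodule.span R (x '' (insert i s : Finset ι)) := by
        refine lt_of_le_of_ne (Submodule.span_mono (Set.image_mono (by simp))) fun e => hi ?_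
        rw [e]; exact Submodule.subset_span ⟨i, by simp, rfl⟩
      rw [length_submodule] at h1 ⊢
      rw [Nat.cast_succ]
      exact (add_le_add h1 le_rfl).trans (Order.height_add_one_le hlt)
  obtain ⟨s, hs, h1 | h1⟩ := key b
  · exact ⟨s, hs, h1⟩
  refine ⟨s, hs, fun i => ?_⟩
  by_contra hi
  have hlt : Submodule.span R (x '' s) < Submodule.span R (Set.range x) := by
    refine lt_of_le_of_ne (Submodule.span_mono (Set.image_subset_range _ _)) fun e => hi ?_
    rw [e]; exact Submodule.subset_span ⟨i, rfl⟩
  rw [length_submodule] at h1 h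
  have := ((add_le_add h1 le_rfl).trans (Order.height_add_one_le hlt)).trans h
  norm_cast at this
  omega

end

section
variable {R : Type} [CommRing R] {L : Type} [AddCommGroup L] [Module R L]

theorem len_dual_simple (hL : ∀ S S' : Submodule R L, IsAtom S → IsAtom S' → S = S')
    (S : Type) [AddCommGroup S] [Module R S] [IsSimpleModule R S] :
    length R (S →ₗ[R] L) ≤ length R S := by
  by_cases h0 : ∀ u : S →ₗ[R] L, u = 0
  · have : Subsingleton (S →ₗ[R] L) := ⟨fun a b => by rw [h0 a, h0 b]⟩
    simp
  push Not at h0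
  obtain ⟨u, hu⟩ := h0
  have := IsSimpleModule.nontrivial R S
  obtain ⟨x, hx⟩ := exists_ne (0 : S)
  have hsp : ∀ y : S, ∃ c : R, c • x = y := fun y =>
    IsSimpleModule.toSpanSingleton_surjective R hx y
  have at1 : ∀ v : S →ₗ[R] L, v ≠ 0 → IsAtom (LinearMap.range v) := fun v hv => by
    rw [← isSimpleModule_iff_isAtom]
    exact IsSimpleModule.congr
      (LinearEquiv.ofInjective v (v.injective_of_ne_zero hv)).symm
  let ev : (S →ₗ[R] L) →ₗ[R] L := LinearMap.applyₗ x
  have hinj : Injective ev := by
    rw [injective_iff_map_eq_zero]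
    intro v hv
    ext y
    obtain ⟨c, rfl⟩ := hsp y
    have hv' : v x = 0 := hv
    simp [hv']
  have hr : ∀ v, ev v ∈ LinearMap.range u := fun v => by
    by_cases hv : v = 0
    · simp [hv]
    · rw [hL _ _ (at1 u hu) (at1 v hv)]; exact ⟨x, rfl⟩
  exact (length_le_of_injective (ev.codRestrict _ hr) fun a b e =>
    hinj (congrArg Subtype.val e)).trans (len_range_le u)

/-- If `L` has at most one simple submodule, duality into `L` does not increase lengths. -/
theorem len_dual_le (hL : ∀ S S' : Submodule R L, IsAtom S → IsAtom S' → S = S')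
    {M : Type} [AddCommGroup M] [Module R M] (h : IsFiniteLength R M) :
    length R (M →ₗ[R] L) ≤ length R M := by
  induction h with
  | of_subsingleton => simp
  | @of_simple_quotient M _ _ N _ _ ih =>
    rw [len_sub_quot N, add_comm]
    refine (len_mid (LinearMap.lcomp R L N.mkQ) (LinearMap.lcomp R L N.subtype) ?_).trans
      (add_le_add (len_dual_simple hL _) ih)
    intro u hu
    exact ⟨N.liftQ u fun x hx => LinearMap.congr_fun hu ⟨x, hx⟩, by ext; simp⟩

end

end Pool.Agent.MP_bd94e8_al.H83
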