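import Pool.Agent.MP_bd94e8_al.H83.Mat
import Pool.Agent.MP_bd94e8_al.H83.Count

/-!
A generic module from a sequence of modules along which normalized lengths have integer limits.
-/

set_option autoImplicit false
set_option linter.unusedSectionVars false

namespace Pool.Agent.MP_bd94e8_al.H83

open Module Function Filter Topology

variable {C : Type} [CommRing C] [IsArtinianRing C] {A : Type} [Ring A] [Algebra C A]
  [Module.Finite C A]

theorem len_le_len {R U V : Type} [Ring R] [AddCommGroup U] [Module R U] [AddCommGroup V]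
    [Module R V] [IsArtinian R U] [IsNoetherian R U] [IsArtinian R V] [IsNoetherian R V] :
    len R U ≤ len R V ↔ length R U ≤ length R V := by
  rw [← len_cast, ← len_cast, Nat.cast_le]

section
variable {G V : Type} [AddCommGroup G] [Module A G] [Module C G] [IsScalarTower C A G]
  [Module.Finite A G] [IsLocalRing (End A G)] [AddCommGroup V] [Module A V] [Module C V]
  [IsScalarTower C A V] [Module.Finite A V]

/-- The multiplicity of a direct summand is bounded by the endomorphism ring. -/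
theorem mult_le : len C ((G →ₗ[A] V) ⧸ Rad A G V C) ^ 2 ≤
    len C (G →ₗ[A] G) ^ 2 * len C (V →ₗ[A] V) := by
  classical
  let T : Set ℕ := {k | ∃ (i : Fin k → (G →ₗ[A] V)) (r : Fin k → (V →ₗ[A] G)),
    ∀ a b, r a ∘ₗ i b = if a = b then LinearMap.id else 0}
  have hT : ∀ k ∈ T, k ^ 2 ≤ len C (V →ₗ[A] V) := by
    rintro k ⟨i, r, h⟩
    have := length_le_of_injective (R := C) (∑ p : Fin k × Fin k, (pre C V (r p.2) ∘ₗ
      post C G (i p.1)) ∘ₗ LinearMap.proj (φ := fun _ : Fin k × Fin k => G →ₗ[A] G) p)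
      ((injective_iff_map_eq_zero _).2 fun e he => funext fun p => LinearMap.ext fun x => by
        have h1 := congrArg (r p.1) (LinearMap.congr_fun he (i p.2 x))
        have h2 : ∀ a b y, r a (i b y) = if a = b then y else 0 := fun a b y => by
          rw [← LinearMap.comp_apply, h]; split_ifs <;> rfl
        simp only [LinearMap.sum_apply, map_sum, map_zero, LinearMap.zero_apply] at h1
        rw [Finset.sum_eq_single p (fun q _ hq => ?_) (by simp)] at h1
        · simpa [pre, h2] using h1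
        · change r p.1 (i q.1 (e q (r q.2 (i p.2 x)))) = 0
          rw [h2, h2]
          split_ifs with a b
          · exact (hq (Prod.ext a.symm b)).elim
          · simp
          · rfl)
    rw [length_pi_of_fintype, Finset.sum_const, ← len_cast, ← len_cast] at this
    have _ : Nontrivial (G →ₗ[A] G) := inferInstanceAs (Nontrivial (End A G))
    have h3 := len_pos (R := C) (U := G →ₗ[A] G)
    simp only [Finset.card_univ, Fintype.card_prod, Fintype.card_fin, nsmul_eq_mul] at this
    norm_cast at this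
    nlinarith
  have hb : BddAbove T := ⟨_, fun k hk => (Nat.le_self_pow two_ne_zero k).trans (hT k hk)⟩
  have hm := Nat.sSup_mem (s := T) ⟨0, Fin.elim0, Fin.elim0, fun a => a.elim0⟩ hb
  have h1 := hT _ hm
  obtain ⟨i, r, h⟩ := hm
  have h2 := len_rel' (R := C) LinearMap.id (LinearMap.pi fun a => post C G (r a)) (Rad A G V C) ⊥ surjective_id fun u hu => mem_rad.2 fun ⟨t, ht⟩ => by
      have h3 : ∀ a, r a ∘ₗ u = 0 := congrFun hu
      refine (Nat.lt_succ_self _).not_ge (le_csSup hb ⟨Fin.cons u i,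
        Fin.cons (t - ∑ a, t ∘ₗ i a ∘ₗ r a) r, fun a b => ?_⟩)
      induction a using Fin.cases <;> induction b using Fin.cases
      · simp [LinearMap.sub_comp, LinearMap.ext_iff, show ∀ a x, r a (u x) = 0 from
          fun a => LinearMap.congr_fun (h3 a)]
        exact LinearMap.congr_fun ht
      · rename_i b
        have h4 : ∀ a y, r a (i b y) = if a = b then y else 0 := fun a y => by
          rw [← LinearMap.comp_apply, h]; split_ifs <;> rfl
        simp [LinearMap.ext_iff, h4, apply_ite, (Fin.succ_ne_zero b).symm]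
      · simp [h3]
      · simp [h]
  rw [len_quot_bot, length_pi_of_fintype, Finset.sum_const, ← len_cast, ← len_cast] at h2
  simp only [Finset.card_univ, Fintype.card_fin, nsmul_eq_mul] at h2
  norm_cast at h2
  calc _ ≤ (sSup T * len C (G →ₗ[A] G)) ^ 2 := Nat.pow_le_pow_left h2 2
    _ ≤ _ := by rw [mul_pow, mul_comm]; exact Nat.mul_le_mul_left _ h1

end

variable {V : ℕ → Type} [∀ n, AddCommGroup (V n)] [∀ n, Module A (V n)] [∀ n, Module C (V n)]
  [∀ n, IsScalarTower C A (V n)] [∀ n, Module.Finite A (V n)] {S : (ℕ → ℕ) → Prop}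

theorem generic_of_val' (hS : Sm S) (Val : (ℕ → ℕ) → ℕ → Prop)
    (hex : ∀ (B : Type) [AddCommGroup B] [Module A B] [Module.Finite A B] (c : B),
      ∃ k, Val (fun n => len C (LinearMap.range (ev C A (V n) c))) k)
    (hmono : ∀ f g k l, Val f k → Val g l → f ≤ g → k ≤ l ∧ (l ≤ k → S fun n => g n - f n))
    (hbig : ∀ b, S b → ¬ ∀ n, len C (V n) ≤ b n)
    (hF : ∀ (G : Type) [AddCommGroup G] [Module A G] [Module C G] [IsScalarTower C A G]
      [Module.Finite A G] [IsLocalRing (End A G)], Indec A G →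
      S fun n => len C ((G →ₗ[A] V n) ⧸ Rad A G (V n) C)) : HasGeneric A := by
  by_contra hG
  have := noeth C A
  have hf := fun n => finC C A (V n)
  choose w x hx using fun n => Module.Finite.exists_fin' C (V n)
  let N := Seq C V w ⧸ nul C A V w hS
  have : Nontrivial N := ⟨Submodule.mkQ _ x, 0, fun h => by
    obtain ⟨b, hb, h1⟩ := (Submodule.Quotient.mk_eq_zero _).1 h
    refine hbig b hb fun n => ?_
    have h2 := h1 n
    rw [LinearMap.range_eq_top.2 (hx n), Submodule.topEquiv.length_eq, ← len_cast] at h2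
    exact_mod_cast h2⟩
  have hlm : ∀ n (P P' : Submodule C (V n)), P ≤ P' → len C P ≤ len C P' := fun n P P' h =>
    len_le_len.2 (len_mono h)
  have hB : Bdd A N := by
    let T : Submodule (End A N) N → Set ℕ := fun W => {k | ∃ (B : Type) (_ : AddCommGroup B)
      (_ : Module A B) (_ : Module.Finite A B) (c : B), pp A N c ≤ W ∧
      Val (fun n => len C (LinearMap.range (ev C A (V n) c))) k}
    obtain ⟨k₀, hk₀⟩ := hex A 1
    have hT : ∀ W, ∀ k ∈ T W, k ≤ k₀ := by
      rintro W k ⟨B, _, _, _, c, -, hk⟩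
      exact (hmono _ _ _ _ hk hk₀ fun n => hlm n _ _ fun y _ =>
        ⟨LinearMap.toSpanSingleton A _ y, by simp [ev]⟩).1
    have hn : ∀ W, (T W).Nonempty := fun W => by
      obtain ⟨k, hk⟩ := hex A 0
      exact ⟨k, A, inferInstance, inferInstance, inferInstance, 0,
        by rintro _ ⟨v, rfl⟩; simp, hk⟩
    refine ⟨fun W => sSup (T W), k₀, fun W _ => csSup_le (hn W) (hT W), fun W W' _ hW' h => ?_⟩
    obtain ⟨B, _, _, _, c, hc, hk⟩ := Nat.sSup_mem (hn W) ⟨k₀, hT W⟩
    obtain ⟨B', _, _, _, c', rfl⟩ := hW'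
    obtain ⟨l, hl⟩ := hex (B × B') (c, c')
    have hle : ∀ n, LinearMap.range (ev C A (V n) c) ≤ LinearMap.range (ev C A (V n) (c, c')) := by
      rintro n _ ⟨v, rfl⟩
      exact ⟨v ∘ₗ LinearMap.fst A B B', rfl⟩
    have h1 := hmono _ _ _ _ hk hl fun n => hlm n _ _ (hle n)
    refine lt_of_lt_of_le (lt_of_not_ge fun h2 => h.not_ge ?_) (le_csSup ⟨k₀, hT _⟩
      ⟨B × B', inferInstance, inferInstance, inferInstance, (c, c'), ?_, hl⟩)
    · refine le_trans ?_ ((pp_le_of_small hS c (c, c') hle (h1.2 h2)).trans hc)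
      rw [pp_prod]; exact le_sup_right
    · rw [pp_prod]; exact sup_le (hc.trans h.le) le_rfl
  obtain ⟨G, _, _, _, ι, p, hI, hp⟩ := exists_summand hB hG
  let _ : Module C G := Module.compHom G (algebraMap C A)
  have : IsScalarTower C A G := IsScalarTower.of_compHom C A G
  have := finC C A G
  have : IsArtinian A G := isArtinian_of_tower C inferInstance
  have := hI.loc
  obtain ⟨B, _, _, j, hj, hn⟩ := exists_las C (A := A) G
  obtain ⟨s, rfl⟩ := nul_pure hS G ι
  obtain ⟨e, he, h⟩ := nul_cut (A := A) (V := V) hS (hF G hI)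
    (M := fun n => (G →ₗ[A] V n) ⧸ Rad A G (V n) C) (fun n => Submodule.mkQ _ ∘ₗ ofSeq s n)
    fun n => by rw [len_cast]; exact len_sub_le _
  have : ∀ n, ∃ t : (Fin (w n) → C) →ₗ[C] (B →ₗ[A] V n), (pre C (V n) j).rangeRestrict ∘ₗ t =
      (ofSeq s n ∘ₗ e n).codRestrict _ fun z => hn _ _
        ((Submodule.Quotient.mk_eq_zero _).1 (LinearMap.congr_fun (he n) z)) := fun n =>
    Module.projective_lifting_property _ _ (LinearMap.surjective_rangeRestrict _)
  choose t ht using this
  refine hj ⟨p ∘ₗ Submodule.mkQ _ ∘ₗ toSeq t, Eq.trans (LinearMap.ext fun z => congrArg p ?_) hp⟩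
  refine Eq.trans (congrArg (Submodule.mkQ _) ?_) (h (s z))
  exact funext fun n => LinearMap.ext fun y =>
    LinearMap.congr_fun (congrArg Subtype.val (LinearMap.congr_fun (ht n) y)) z

theorem generic_of_lim (F : Filter ℕ) [F.NeBot] (hF : F ≤ atTop) (ω : ℕ → ℝ) (hω : ∀ n, 0 < ω n)
    (hL : ∀ (B : Type) [AddCommGroup B] [Module A B] [Module.Finite A B],
      ∃ k : ℤ, Tendsto (fun n => (len C (B →ₗ[A] V n) : ℝ) / ω n) F (𝓝 k))
    (hbig : ¬ Tendsto (fun n => (len C (V n) : ℝ) / ω n) F (𝓝 0))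
    (hm : ∀ (G : Type) [AddCommGroup G] [Module A G] [Module C G] [IsScalarTower C A G]
      [Module.Finite A G] [IsLocalRing (End A G)], Indec A G →
      Tendsto (fun n => (len C ((G →ₗ[A] V n) ⧸ Rad A G (V n) C) : ℝ) / ω n) F (𝓝 0)) :
    HasGeneric A := by
  have h0 : ∀ (f : ℕ → ℕ) n, 0 ≤ (f n : ℝ) / ω n := fun f n => div_nonneg (by simp) (hω n).le
  refine generic_of_val' (C := C) (V := V)
    (S := fun b => Tendsto (fun n => (b n : ℝ) / ω n) F (𝓝 0))
    ⟨fun a b ha hb => by simpa [add_div] using ha.add hb, fun b h => tendsto_const_nhds.congr' ?_⟩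
    (fun f k => Tendsto (fun n => (f n : ℝ) / ω n) F (𝓝 k)) (fun B _ _ _ c => ?_)
    (fun f g k l a b h => ⟨?_, fun h' => ?_⟩) (fun b hb h => hbig ?_) hm
  · filter_upwards [hF h] with n hn
    simp [show b n = 0 from hn]
  · obtain ⟨k, hk⟩ := hL B
    obtain ⟨l, hl⟩ := hL (B ⧸ Submodule.span A {c})
    have h1 : Tendsto (fun n => (len C (LinearMap.range (ev C A (V n) c)) : ℝ) / ω n) F
        (𝓝 (k - l : ℤ)) := by
      simpa [len_hom_pp (C := C) c, add_div] using hk.sub hl
    have h2 : (0 : ℤ) ≤ k - l := by exact_mod_cast ge_of_tendsto' h1 (h0 _)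
    exact ⟨(k - l).toNat, by rwa [← Int.toNat_of_nonneg h2, Int.cast_natCast] at h1⟩
  · exact_mod_cast le_of_tendsto_of_tendsto' a b fun n =>
      div_le_div_of_nonneg_right (by exact_mod_cast h n) (hω n).le
  · have h1 : (k : ℝ) ≤ l := le_of_tendsto_of_tendsto' a b fun n =>
      div_le_div_of_nonneg_right (by exact_mod_cast h n) (hω n).le
    obtain rfl : l = k := le_antisymm h' (by exact_mod_cast h1)
    simpa [Nat.cast_sub (h _), sub_div] using b.sub a
  · exact squeeze_zero (h0 _)
      (fun n => div_le_div_of_nonneg_right (by exact_mod_cast h n) (hω n).le) hb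

variable (A) in
theorem hom_bound (B : Type) [AddCommGroup B] [Module A B] [Module.Finite A B] :
    ∃ r, ∀ (M : Type) [AddCommGroup M] [Module A M] [Module C M] [IsScalarTower C A M]
      [Module.Finite A M], len C (B →ₗ[A] M) ≤ r * len C M := by
  obtain ⟨n, x, hx⟩ := Module.Finite.exists_fin (R := A) (M := B)
  refine ⟨n, fun M _ _ _ _ _ => ?_⟩
  have := finC C A M
  have := length_le_of_injective (LinearMap.pi fun j => ev C A M (x j)) fun u v h =>
    LinearMap.ext_on_range hx fun j => congrFun h j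
  rw [length_pi_of_fintype, Finset.sum_const, ← len_cast, ← len_cast] at this
  simp only [Finset.card_univ, Fintype.card_fin, nsmul_eq_mul] at this
  exact_mod_cast this

/-- Infinitely many indecomposable modules of bounded length give a generic module. -/
theorem generic_of_bdd (hI : ∀ n, Indec A (V n)) (hne : ∀ p q, p ≠ q → IsEmpty (V p ≃ₗ[A] V q))
    (N : ℕ) (hN : ∀ n, len C (V n) ≤ N) : HasGeneric A := by
  have hF : (hyperfilter ℕ : Filter ℕ) ≤ atTop := Nat.cofinite_eq_atTop ▸ hyperfilter_le_cofinite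
  refine generic_of_lim (C := C) (V := V) (hyperfilter ℕ) hF 1 (fun _ => one_pos)
    (fun B _ _ _ => ?_) (fun h => ?_) fun G _ _ _ _ _ _ _ => tendsto_const_nhds.congr' (hF ?_)
  · obtain ⟨r, hr⟩ := hom_bound (C := C) A B
    obtain ⟨k, -, hk⟩ := (Ultrafilter.finite_biUnion_mem_iff (f := hyperfilter ℕ)
      (s := fun k => {n | len C (B →ₗ[A] V n) = k}) (Set.finite_Iic (r * N))).1
      (univ_mem' fun n => Set.mem_biUnion ((hr _).trans (Nat.mul_le_mul_left r (hN n))) rfl)
    refine ⟨k, tendsto_const_nhds.congr' ?_⟩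
    filter_upwards [hk] with n hn
    simp [show len C (B →ₗ[A] V n) = k from hn]
  · refine (ge_of_tendsto' h fun n => ?_).not_gt one_pos
    have := finC C A (V n)
    have := (hI n).1
    simpa using Nat.succ_le_of_lt (len_pos (R := C) (U := V n))
  · have h1 : ∀ n, IsEmpty (G ≃ₗ[A] V n) → (0 : ℝ) =
        len C ((G →ₗ[A] V n) ⧸ Rad A G (V n) C) / (1 : ℕ → ℝ) n := fun n hn => by
      have : Subsingleton ((G →ₗ[A] V n) ⧸ Rad A G (V n) C) :=
        Submodule.Quotient.subsingleton_iff.2 (top_unique fun u _ =>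
          (mem_rad' (hI n)).2 fun h => hn.elim (LinearEquiv.ofBijective u h))
      simp [len]
    by_cases h : ∃ p, Nonempty (G ≃ₗ[A] V p)
    · obtain ⟨p, ⟨e⟩⟩ := h
      filter_upwards [eventually_gt_atTop p] with n hn
      exact h1 n ⟨fun e' => (hne p n hn.ne).elim (e.symm.trans e')⟩
    · exact univ_mem' fun n => h1 n ⟨fun e => h ⟨n, ⟨e⟩⟩⟩

end Pool.Agent.MP_bd94e8_al.H83
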