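import Pool.Agent.MP_bd94e8_al.H83.Mesh2

/-!
Sections with a subadditive vector give generic modules.
-/

set_option autoImplicit false
set_option linter.unusedSectionVars false

namespace Pool.Agent.MP_bd94e8_al.H83

open Module Function Finset Filter

variable {C : Type} [CommRing C] [IsArtinianRing C] {A : Type} [Ring A] [Algebra C A]
  [Module.Finite C A]

variable {r : ℕ} {Z : ℕ → Type} [∀ p, AddCommGroup (Z p)] [∀ p, Module A (Z p)]
  [∀ p, Module C (Z p)] [∀ p, IsScalarTower C A (Z p)] [∀ p, Module.Finite A (Z p)]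
  [∀ p, IsLocalRing (End A (Z p))] (D : Msh A r Z)

theorem len_hom_pi {ι : Type} [Fintype ι] [DecidableEq ι] (B : Type) [AddCommGroup B] [Module A B]
    [Module.Finite A B] (q : ι → ℕ) :
    len C (B →ₗ[A] ∀ i, Z (q i)) = ∑ i, len C (B →ₗ[A] Z (q i)) := by
  have := (LinearEquiv.linearMapPi (R := A) (M₂ := B) (φ := fun i => Z (q i)) C).length_eq
  rw [length_pi_of_fintype, ← len_cast] at this
  simp only [← len_cast] at this
  exact_mod_cast this.symm

namespace Msh
include D

theorem hb_le {c : ℕ} (hc : ∀ p, c ≤ p → dd C A Z (p + r) = dd C A Z p) :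
    ∃ e : ℕ, ∀ s, c + r ≤ s → hb C A (Sl r Z s) (Sl r Z s) (Sl r Z c) ≤ e := by
  obtain ⟨m, hm⟩ := D.n_le hc
  let d := ∑ i ∈ range r, dd C A Z (c + i)
  have hd : ∀ q, c ≤ q → dd C A Z q ≤ d := fun q => by
    induction q using Nat.strong_induction_on with
    | _ q ih =>
    intro hq
    by_cases h : c + r ≤ q
    · obtain ⟨p, rfl⟩ : ∃ p, q = p + r := ⟨q - r, by omega⟩
      have := D.hr
      rw [hc p (by omega)]
      exact ih p (by omega) (by omega)
    · obtain ⟨i, rfl⟩ : ∃ i, q = c + i := ⟨q - c, by omega⟩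
      exact single_le_sum (f := fun i => dd C A Z (c + i)) (fun _ _ => Nat.zero_le _)
        (mem_range.2 (by omega))
  have h : ∀ t q s, c + r ≤ q → c ≤ s → s ≤ q + t →
      hb C A (Z q) (Z s) (Sl r Z c) ≤ (d * (m + 1) ^ t : ℕ) := fun t q => by
    have h0 : ∀ s, c + r ≤ q → c ≤ s → s ≤ q → hb C A (Z q) (Z s) (Sl r Z c) ≤ d :=
      fun s h1 h2 h3 => by
        refine (len_quot_le (W := Rad A _ _ C) (W' := Thru C A _ _ _) LinearMap.id surjective_id
          fun u hu => D.back' h2 (Or.inr h3) fun _ => hu).trans ?_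
        rw [D.len_top]
        split_ifs
        · exact_mod_cast hd s h2
        · simp
    induction t with
    | zero => simpa using h0
    | succ t ih =>
    intro s h1 h2 h3
    by_cases h : s ≤ q
    · refine (h0 s h1 h2 h).trans ?_
      exact_mod_cast Nat.le_mul_of_pos_right _ (by positivity)
    obtain ⟨p, rfl⟩ : ∃ p, s = p + r := ⟨s - r, by omega⟩
    refine (len_quot_le (post C (Z q) (D.g p)) (fun u => (D.as p).right _ u
      (D.nsect (D.rad_ne (C := C) (by omega) u))) fun _ => thru_post _).trans ?_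
    refine (hb_pi (M := Z q)).trans_le ((sum_le_card_nsmul _ _ _ fun a _ => ih _ h1
      (by have := D.lt p a; omega) (by have := D.gt p a; omega)).trans ?_)
    rw [card_univ, Fintype.card_fin, nsmul_eq_mul]
    norm_cast
    rw [pow_succ, ← mul_assoc d, mul_comm]
    exact Nat.mul_le_mul_left _ ((hm p (by omega)).trans m.le_succ)
  refine ⟨r * (r * (d * (m + 1) ^ r)), fun s hs => hb_pi_src.trans ?_⟩
  refine (sum_le_card_nsmul _ _ ((r * (d * (m + 1) ^ r) : ℕ) : ℕ∞) fun i _ => ?_).trans (by simp)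
  rw [hb_pi]
  exact (sum_le_card_nsmul _ _ _ fun j _ => h r _ _ (by omega) (by omega) (by omega)).trans (by simp)

variable (C) in
include C in
theorem ev_nsect (n : ℕ) : ∀ (B : Type) [AddCommGroup B] [Module A B], length A B ≤ n →
    ∀ᶠ s in atTop, ∀ u : B →ₗ[A] Z s, ¬ ∃ w : Z s →ₗ[A] B, u ∘ₗ w = LinearMap.id := by
  induction n using Nat.strong_induction_on with
  | _ n ih =>
  intro B _ _ hn
  by_cases h : ∀ s, ∀ u : B →ₗ[A] Z s, ¬ ∃ w : Z s →ₗ[A] B, u ∘ₗ w = LinearMap.id
  · exact Eventually.of_forall h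
  push Not at h
  obtain ⟨s, u, w, e⟩ := h
  obtain ⟨_, _⟩ := fin_len (ne_top_of_le_ne_top (ENat.natCast_ne_top n) hn)
  have hlt : length A (LinearMap.ker u) < n := (Submodule.length_lt fun h => by
    have := (D.ind s).1
    rw [LinearMap.ker_eq_top.1 h, LinearMap.zero_comp] at e
    exact zero_ne_one (α := End A (Z s)) e).trans_le hn
  obtain ⟨m, hm⟩ := ENat.ne_top_iff_exists.1 hlt.ne_top
  filter_upwards [ih m (by rw [← hm] at hlt; exact_mod_cast hlt) _ hm.ge, eventually_gt_atTop s]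
    with t h1 h2
  rintro u' ⟨w', e'⟩
  let k : B →ₗ[A] LinearMap.ker u := (LinearMap.id - w ∘ₗ u).codRestrict _ fun x =>
    by simpa [sub_eq_zero] using (LinearMap.congr_fun e (u x)).symm
  refine h1 (u' ∘ₗ Submodule.subtype _) (exists_sect (v := k ∘ₗ w') ?_)
  refine (IsLocalRing.isUnit_or_isUnit_of_add_one (a := (u' ∘ₗ w) ∘ₗ u ∘ₗ w') ?_).resolve_left
    (D.rad_ne (C := C) h2.ne' _ _)
  refine Eq.trans (LinearMap.ext fun x => ?_) e'
  simp [k]

variable (C) in
include C in
theorem ev_nsect' (B : Type) [AddCommGroup B] [Module A B] [Module.Finite A B] :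
    ∀ᶠ s in atTop, ∀ u : B →ₗ[A] Z s, ¬ ∃ w : Z s →ₗ[A] B, u ∘ₗ w = LinearMap.id := by
  have := noeth C A
  have : IsArtinianRing A := isArtinian_of_tower C inferInstance
  exact D.ev_nsect C _ B len_cast.ge

theorem len_add {B : Type} [AddCommGroup B] [Module A B] [Module.Finite A B] {p : ℕ}
    (h : ∀ u : B →ₗ[A] Z (p + r), ¬ ∃ w : Z (p + r) →ₗ[A] B, u ∘ₗ w = LinearMap.id) :
    len C (B →ₗ[A] Z p) + len C (B →ₗ[A] Z (p + r)) = ∑ a, len C (B →ₗ[A] Z (D.pos p a)) := by
  have := length_eq_add_of_exact (post C B (D.f p)) (post C B (D.g p))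
    (fun u v e => (LinearMap.cancel_left (D.as p).inj).1 e) (fun u => (D.as p).right _ u (h u))
    fun u => ⟨fun e => (D.as p).lift e, by
      rintro ⟨v, rfl⟩
      exact LinearMap.ext fun x => (D.as p).exact.apply_apply_eq_zero _⟩
  rw [← len_cast, ← len_cast, ← len_cast, len_hom_pi] at this
  exact_mod_cast this.symm

variable (C) in
include C in
theorem far {ι : Type} [Fintype ι] [DecidableEq ι] (q : ℕ → ι → ℕ) (hq : ∀ n i, n ≤ q n i) :
    Far A fun n => ∀ i, Z (q n i) := by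
  intro G _ _ _ hG
  have := noeth C A
  have : IsArtinianRing A := isArtinian_of_tower C inferInstance
  have := hG.loc
  obtain ⟨c, hc⟩ := eventually_atTop.1 (D.ev_nsect' C G)
  obtain ⟨k, v, hv⟩ := Module.Finite.exists_fin (R := C) (M := G →ₗ[A] Sl r Z c)
  refine ⟨Fin k → Sl r Z c, inferInstance, inferInstance, LinearMap.pi v, ?_,
    eventually_atTop.2 ⟨c, fun n hn u => ?_⟩⟩
  · rw [← mem_rad (R := C), pi_sum (LinearMap.pi v)]
    refine Submodule.sum_mem _ fun j _ => rad_post (R := C) ?_ _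
    rw [pi_sum (LinearMap.proj j ∘ₗ LinearMap.pi v)]
    refine Submodule.sum_mem _ fun i _ => rad_post (R := C) ((mem_rad' (D.ind _)).2 fun hb => ?_) _
    exact hc (c + i) (by omega) (LinearMap.proj i ∘ₗ LinearMap.proj j ∘ₗ LinearMap.pi v) ⟨
      (LinearEquiv.ofBijective _ hb).symm.toLinearMap,
      LinearMap.ext (LinearEquiv.ofBijective _ hb).apply_symm_apply⟩
  · change u ∈ LinearMap.range (pre C _ (LinearMap.pi v))
    rw [pi_sum u]
    refine Submodule.sum_mem _ fun i _ => thru_le (fun v' w => ?_) (thru_post (T := Sl r Z c) _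
      (D.back c _ (hn.trans (hq n i)) (fun t h _ => hc t (by omega)) _ fun h => hc _ (by omega) _))
    obtain ⟨x, rfl⟩ := (Submodule.mem_span_range_iff_exists_fun C).1 (hv ▸ Submodule.mem_top (x := v'))
    refine ⟨w ∘ₗ ∑ j, x j • LinearMap.proj j, LinearMap.ext fun y => ?_⟩
    simp

theorem tame {c : ℕ} (hc : ∀ p, c ≤ p → dd C A Z (p + r) = dd C A Z p) {ξ : Fin r → ℝ}
    (hξ : Sub (D.al c) ξ) : HasGeneric A := by
  classical
  obtain ⟨N, hN, h⟩ := (D.car hc).linear hξ
  have := D.hr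
  refine generic_of_lin (C := C) (V := fun n => ∀ i : {i // ξ i ≠ 0}, Z (c + n * N * r + i.1))
    (fun n => ?_) (D.far C _ fun n i => ?_) fun B _ _ _ => ?_
  · obtain ⟨i, hi⟩ := Function.ne_iff.1 hξ.ne
    have := (D.ind (c + n * N * r + i)).1
    exact Pi.nontrivial_at (⟨i, hi⟩ : {i // ξ i ≠ 0})
  · have := Nat.le_mul_of_pos_right (n * N) D.hr
    have := Nat.le_mul_of_pos_right n hN
    omega
  · obtain ⟨ρ, β, h⟩ := h (fun n i => len C (B →ₗ[A] Z (c + n * r + i))) (by
      obtain ⟨s, hs⟩ := eventually_atTop.1 (D.ev_nsect' C B)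
      refine eventually_atTop.2 ⟨s, fun n hn i => ?_⟩
      have := Nat.le_mul_of_pos_right n D.hr
      rw [← D.sum_pos hc fun q => (len C (B →ₗ[A] Z q) : ℤ),
        show c + (n + 1) * r + i = c + n * r + i + r by ring]
      exact_mod_cast D.len_add (hs _ (by omega)))
    refine ⟨ρ, β, ?_⟩
    filter_upwards [h] with n hn
    rw [len_hom_pi, ← hn, Nat.cast_sum]

end Msh

end Pool.Agent.MP_bd94e8_al.H83
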