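import Pool.Agent.MP_bd94e8_al.H83.Gen
import Pool.Agent.MP_bd94e8_al.H83.Tame

/-!
Finite sections force generic modules.
-/

set_option autoImplicit false
set_option linter.unusedSectionVars false

namespace Pool.Agent.MP_bd94e8_al.H83

open Module Function Finset Filter H

variable {C : Type} [CommRing C] [IsArtinianRing C] {A : Type} [Ring A] [Algebra C A]
  [Module.Finite C A]

theorem surj_of_dual {U W : Type} [AddCommGroup U] [Module (K C) U] [AddCommGroup W]
    [Module (K C) W] [IsNoetherian (K C) W] (Φ : U →ₗ[K C] W)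
    (h : ∀ (m : MaximalSpectrum C) (ψ : W →ₗ[K C] H C (C ⧸ m.asIdeal)), ψ ∘ₗ Φ = 0 → ψ = 0) :
    Surjective Φ := by
  rw [← LinearMap.range_eq_top]
  refine (eq_top_or_exists_le_coatom _).resolve_right fun ⟨N, hN, hle⟩ => ?_
  obtain ⟨M, hM, ⟨e⟩⟩ := isSimpleModule_iff_quot_maximal.1 (isSimpleModule_iff_isCoatom.2 hN)
  let m := M.comap (algebraMap C (K C))
  have hm : m.IsMaximal := IsArtinianRing.isMaximal_of_isPrime m
  have := simple_field m
  let π : K C →ₗ[K C] H C (C ⧸ m) := H.map (M := C) m.mkQ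
  have h1 := LinearMap.isCoatom_ker_of_surjective (f := π) (map_surj m.mkQ_surjective)
  have h2 : M = LinearMap.ker π := (h1.le_iff.1 fun y hy => mem_of_cf (M := C) (A := C) m M
    (fun x hx => hx) y fun g => (Submodule.Quotient.mk_eq_zero _).1
      (congrArg (fun z => cf z g) hy)).resolve_left hM.ne_top
  have h3 := h ⟨m, hm⟩ (M.liftQ π h2.le ∘ₗ e.toLinearMap ∘ₗ N.mkQ) (LinearMap.ext fun x => by
    simp [(Submodule.Quotient.mk_eq_zero N).2 (hle ⟨x, rfl⟩)])
  refine h1.1 (top_unique fun y _ => ?_)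
  obtain ⟨x, hx⟩ := (e.surjective.comp N.mkQ_surjective) (M.mkQ y)
  exact (congrArg (M.liftQ π h2.le) hx).symm.trans (LinearMap.congr_fun h3 x)

theorem map_smul_left {M M' : Type} [AddCommGroup M] [Module C M] [AddCommGroup M'] [Module C M']
    (c : C) (u : M →ₗ[C] M') : H.map (c • u) = algebraMap C (K C) c • H.map u :=
  LinearMap.ext fun y => by rw [LinearMap.smul_apply, algebraMap_smul]; rfl

variable {r : ℕ} {Z : ℕ → Type} [∀ p, AddCommGroup (Z p)] [∀ p, Module A (Z p)]
  [∀ p, Module C (Z p)] [∀ p, IsScalarTower C A (Z p)] [∀ p, Module.Finite A (Z p)]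
  [∀ p, IsLocalRing (End A (Z p))] (D : Msh A r Z)

namespace Msh

variable (C) in
/-- The forgetful functor. -/
noncomputable def fn1 : Fn C D 0 fun p => H C (Z p) where
  act := ⟨⟨fun u => H.map (u.restrictScalars C), fun _ _ => rfl⟩,
    fun c u => map_smul_left c (u.restrictScalars C)⟩
  comp _ _ _ := rfl
  id _ := rfl
  inj p _ x h := H.ext fun g => (D.as p).inj (funext fun a =>
    (congrArg (fun z => cf z g) (h a)).trans (by simp))
  ex p _ x h := by
    obtain ⟨z, hz⟩ := (map_exact (u := (D.f p).restrictScalars C) (v := (D.g p).restrictScalars C)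
      (D.as p).exact (∑ a, H.map (LinearMap.single C (fun a => Z (D.pos p a)) a) (x a))).1
      (by rw [map_sum]; exact h)
    refine ⟨z, fun a => H.ext fun g => (congrFun (congrArg (fun z => cf z g) hz) a).trans ?_⟩
    simp
  th i := H.th i
  leib i _ := th_smul i
  nat i _ _ u := th_map i _

variable (C) in
/-- The dual of maps to a slice. -/
noncomputable def fn2 (c : ℕ) (L : Type) [AddCommGroup L] [Module C L] :
    Fn C D (c + r) fun p => H C (Z p →ₗ[A] Sl r Z c) →ₗ[K C] H C L where
  act := ⟨⟨fun u => LinearMap.lcomp (K C) _ (H.map (pre C _ u)), fun u v => by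
      ext ψ : 1
      exact (congrArg (ψ ∘ₗ ·) (by ext; simp)).trans (LinearMap.comp_add _ _ _)⟩,
    fun t u => by
      ext ψ : 1
      refine Eq.trans (congrArg (fun v => ψ ∘ₗ H.map v) (by ext; simp)) ((congrArg (ψ ∘ₗ ·)
        (map_smul_left t (pre C _ u))).trans (LinearMap.comp_smul _ _ _))⟩
  comp _ _ _ := rfl
  id _ := rfl
  inj p hp ψ h := hom_ext (A := C) fun v => by
    obtain ⟨v, rfl⟩ := D.left v (D.nretr_sl C hp v)
    rw [map_sum, map_sum]
    exact sum_eq_zero fun a _ => (congrArg ψ (map_sgl (A := C) (pre C _ (D.fc p a)) (v a))).symm.trans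
      (LinearMap.congr_fun (h a) _)
  ex p hp ψ h := by
    obtain ⟨z, hz⟩ := exists_desc (map_surj (u := pre C (Sl r Z c) (D.f p)) fun v =>
      (D.as p).left _ v (D.nretr_sl C hp v))
      (∑ a, ψ a ∘ₗ H.map (pre C _ (LinearMap.single A (fun a => Z (D.pos p a)) a))) fun x hx => by
        obtain ⟨y, rfl⟩ := mem_range_map (pre C _ (D.g p)) x fun g =>
          (D.as p).desc (congrArg (fun z => cf z g) hx)
        have := LinearMap.congr_fun h y
        rw [LinearMap.sum_apply] at this
        rw [LinearMap.mem_ker, LinearMap.sum_apply]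
        exact this
    refine ⟨z, fun a => LinearMap.ext fun x => (LinearMap.congr_fun hz (H.map (pre C _
      (LinearMap.proj (φ := fun a => Z (D.pos p a)) a)) x)).trans ?_⟩
    rw [LinearMap.sum_apply, sum_eq_single a (fun b _ e => ?_) (by simp)]
    · exact congrArg (ψ a) (H.ext fun g => LinearMap.ext fun y => by simp)
    · exact (congrArg (ψ b) (H.ext fun g => LinearMap.ext fun y => by simp [e.symm])).trans
        (map_zero _)
  th i _ :=
    { toFun := fun ψ =>
        { toFun := fun x => H.th i (ψ x) - ψ (H.th i x)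
          map_add' := fun x y => by simp only [map_add]; abel
          map_smul' := fun t x => by simp [th_smul, smul_sub] }
      map_zero' := by ext; simp
      map_add' := fun _ _ => LinearMap.ext fun x => by simp; abel }
  leib i _ t ψ := LinearMap.ext fun x => by simp [th_smul, smul_sub, add_sub_assoc]
  nat i _ _ u ψ := LinearMap.ext fun x => by simp [th_map]

include D

theorem step (hG : ¬ HasGeneric A) {c y : ℕ} (hc : ∀ p, c ≤ p → dd C A Z (p + r) = dd C A Z p)
    {ε κ : ℝ} (hε : 0 < ε) (hκ : 0 ≤ κ) (hg : Grow (D.al (c + r + r)) ε κ) (h1 : c + r ≤ y)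
    (h2 : y ≤ c + r + r) : ∃ e : ℕ, ∀ᶠ n : ℕ in atTop,
      ∑ i : Fin r, hb C A (Z y) (Z (c + r + r + n * r + i + r)) (Sl r Z c) ≤
        e + ∑ i : Fin r, hb C A (Z y) (Z (c + r + r + n * r + i)) (Sl r Z c) := by
  have := noeth C A
  have := fun p => finC C A (Z p)
  obtain ⟨e, he⟩ := D.hb_le hc
  have hc' : ∀ p, c + r + r ≤ p → _ := fun p hp => hc p (by omega)
  have g1 := (D.fn1 C).gen hc' hε hκ hg (Nat.zero_le _) h2
  have g2 := eventually_all.2 fun m : MaximalSpectrum C => by
    have := m.isMaximal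
    have := simple_field m.asIdeal
    have hf := fun p => fin_len (ne_top_of_le_ne_top length_ne_top (len_dual_le (R := K C)
      (L := H C (C ⧸ m.asIdeal)) (M := H C (Z p →ₗ[A] Sl r Z c))
      (fun S S' a b => ((eq_bot_or_eq_top S).resolve_left a.1).trans
        ((eq_bot_or_eq_top S').resolve_left b.1).symm)
      (isFiniteLength_iff_isNoetherian_isArtinian.2 ⟨inferInstance, inferInstance⟩)))
    have := fun p => (hf p).1
    have := fun p => (hf p).2
    exact (D.fn2 C c (C ⧸ m.asIdeal)).gen hc' hε hκ hg h1 h2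
  refine ⟨e + len C (Z y →ₗ[A] Z y), ?_⟩
  filter_upwards [(tendsto_add_atTop_nat 1).eventually g1, (tendsto_add_atTop_nat 1).eventually g2]
    with n g1 g2
  let p : Fin r → ℕ := fun i => c + r + r + n * r + i
  have hq : ∀ i, p i + r = c + r + r + (n + 1) * r + i := fun i => by simp only [p]; ring
  obtain ⟨k, h, hs⟩ := Module.Finite.exists_fin (R := C) (M := Z y →ₗ[A] ∀ i, Z (p i + r))
  choose l ρ hρ using fun i => Module.Finite.exists_fin' A (Z (p i + r))
  have h3 := count (C := C) (T := Sl r Z c) hG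
    (ι := LinearMap.piMap fun i => (LinearMap.ker (ρ i)).subtype) (ρ := LinearMap.piMap ρ)
    (fun x => ⟨fun e => ⟨fun i => ⟨x i, congrFun e i⟩, rfl⟩, by
      rintro ⟨x, rfl⟩
      exact funext fun i => (x i).2⟩) (Surjective.piMap hρ) h hs
    ((injective_iff_map_eq_zero _).2 fun a ha => g1 _ hq k h hs a fun i => by
      have := congrArg (H.map (LinearMap.proj (R := C) (φ := fun i => Z (p i + r)) i)) ha
      rw [gm_apply, map_sum, map_zero] at this
      simp only [map_smul] at this
      exact this)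
    (surj_of_dual _ fun m ψ hψ => g2 m _ hq k h hs ψ fun i => LinearMap.ext fun x => by
      have := LinearMap.congr_fun hψ
        (H.map (pre C _ (LinearMap.proj (φ := fun i => Z (p i + r)) i)) x)
      rw [LinearMap.comp_apply, gm_apply, map_sum] at this
      simp only [map_smul] at this
      rw [LinearMap.sum_apply]
      exact this)
  rw [hb_pi] at h3
  refine h3.trans (add_le_add ?_ ((kq_pi _).trans (sum_le_sum fun i _ =>
    (D.as (p i)).kq_le (Submodule.subtype_injective _) (LinearMap.exact_subtype_ker_map _) (hρ i))))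
  rw [Nat.cast_add, len_cast]
  refine add_le_add ?_ le_rfl
  have := he (c + r + r + (n + 1) * r) (by omega)
  have e1 : ∀ q : Fin r → ℕ, (∀ i, q i = c + r + r + (n + 1) * r + i) →
      hb C A (∀ i, Z (q i)) (∀ i, Z (q i)) (Sl r Z c) ≤ e := fun q hq => by
    obtain rfl := funext hq
    exact this
  exact e1 _ hq

variable (C) in
include C in
theorem generic : HasGeneric A := by
  obtain ⟨c, hc⟩ := D.dd_per C
  have hc' : ∀ p, c + r + r ≤ p → _ := fun p hp => hc p (by omega)
  by_cases hξ : ∃ ξ, Sub (D.al (c + r + r)) ξ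
  · exact D.tame hc' hξ.choose_spec
  by_contra hG
  obtain ⟨ε, κ, hε, hκ, hg⟩ := exists_grow D.hr hξ
  let ψ : Fin r → ℕ → ℕ := fun y q =>
    len C ((Z (c + r + y) →ₗ[A] Z q) ⧸ Thru C A (Z (c + r + y)) (Z q) (Sl r Z c))
  have hψ : ∀ (y : Fin r) q, hb C A (Z (c + r + y)) (Z q) (Sl r Z c) = ψ y q :=
    fun _ _ => len_cast.symm
  choose e he using fun y : Fin r => D.step hG hc hε hκ hg (y := c + r + y) (by omega) (by omega)
  refine not_lin (c' := ∑ y, e y) hε (fun n => ∑ i : Fin r, ∑ y, (ψ y (c + r + r + n * r + i) : ℝ))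
    (fun n => ?_) (fun n => hg _ (fun _ _ => by positivity) n fun m _ i => ?_) ?_
  · obtain ⟨y, hy⟩ := D.hb_ne (C := C) (c := c) (m := c + r + r + n * r + (⟨0, D.hr⟩ : Fin r))
      (by omega)
    rw [hψ] at hy
    refine le_trans ?_ (single_le_sum (fun _ _ => by positivity) (mem_univ ⟨0, D.hr⟩))
    refine le_trans ?_ (single_le_sum (fun _ _ => by positivity) (mem_univ y))
    exact_mod_cast Nat.pos_of_ne_zero (by exact_mod_cast hy)
  · rw [← D.sum_pos hc' fun q => ∑ y, (ψ y q : ℝ), show c + r + r + (m + 1) * r + i =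
      c + r + r + m * r + i + r by ring, sum_comm, ← sum_add_distrib]
    refine sum_le_sum fun y _ => ?_
    have := D.hb_super (C := C) (Z (c + r + y)) (c := c) (p := c + r + r + m * r + i) (by omega)
    simp only [hψ] at this
    exact_mod_cast this
  · filter_upwards [eventually_all.2 he] with n hn
    rw [sum_comm, sum_comm (f := fun (i y : Fin r) => (ψ y (c + r + r + n * r + i) : ℝ)),
      ← sum_add_distrib]
    refine sum_le_sum fun y _ => ?_
    have := hn y
    simp only [hψ] at this
    simp only [show ∀ i : Fin r, c + r + r + (n + 1) * r + i = c + r + r + n * r + i + r from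
      fun i => by ring]
    exact_mod_cast this.trans_eq (add_comm _ _)

end Msh

end Pool.Agent.MP_bd94e8_al.H83
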