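import Pool.Agent.MP_bd94e8_al.H83.Rad

/-!
A finitely generated cogenerator over the ground ring, and left almost split maps.
-/

set_option autoImplicit false
set_option linter.unusedSectionVars false

namespace Pool.Agent.MP_bd94e8_al.H83

open Module Function Finset

variable {C : Type} [CommRing C] [IsArtinianRing C]

theorem surj_of_len {R U V : Type} [Ring R] [AddCommGroup U] [Module R U] [AddCommGroup V]
    [Module R V] [IsArtinian R V] [IsNoetherian R V] {f : U →ₗ[R] V} (hf : Injective f)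
    (h : length R V ≤ length R U) : Surjective f := by
  by_contra hs
  have := Submodule.length_lt (R := R) (mt LinearMap.range_eq_top.1 hs)
  rw [← (LinearEquiv.ofInjective f hf).length_eq] at this
  exact this.not_ge h

variable (C) in
/-- Every simple module occurs at most once in the socle. -/
def Mult (L : Type) [AddCommGroup L] [Module C L] : Prop :=
  ∀ m : Ideal C, m.IsMaximal → ∀ x y : L, (∀ c ∈ m, c • x = 0) → (∀ c ∈ m, c • y = 0) → x ≠ 0 →
    y ∈ Submodule.span C {x}

section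
variable {L : Type} [AddCommGroup L] [Module C L]

theorem Mult.simple (hL : Mult C L) (S : Type) [AddCommGroup S] [Module C S] [IsSimpleModule C S] :
    length C (S →ₗ[C] L) ≤ length C S := by
  by_cases h0 : ∀ u : S →ₗ[C] L, u = 0
  · have : Subsingleton (S →ₗ[C] L) := ⟨fun a b => by rw [h0 a, h0 b]⟩
    simp
  push Not at h0
  obtain ⟨u, hu⟩ := h0
  have := IsSimpleModule.nontrivial C S
  obtain ⟨x, hx⟩ := exists_ne (0 : S)
  let ev : (S →ₗ[C] L) →ₗ[C] L := LinearMap.applyₗ x
  have hinj : Injective ev := (injective_iff_map_eq_zero _).2 fun v hv => LinearMap.ext fun y => by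
    obtain ⟨c, rfl⟩ := IsSimpleModule.toSpanSingleton_surjective C hx y
    have hv' : v x = 0 := hv
    simp [hv']
  have hk : ∀ (v : S →ₗ[C] L), ∀ c ∈ LinearMap.ker (LinearMap.toSpanSingleton C S x),
      c • v x = 0 := fun v c hc => by
    rw [← map_smul, show c • x = 0 from hc, map_zero]
  have hr : ∀ v, ev v ∈ LinearMap.range u := fun v =>
    Submodule.span_le.2 (by rintro _ rfl; exact ⟨x, rfl⟩)
      (hL _ (IsSimpleModule.ker_toSpanSingleton_isMaximal C hx) (u x) (v x) (hk u) (hk v)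
        fun e => hu (hinj (e.trans (map_zero ev).symm)))
  exact (length_le_of_injective (ev.codRestrict _ hr) fun a b e =>
    hinj (congrArg Subtype.val e)).trans (len_range_le u)

theorem Mult.len_le' (hL : Mult C L) {M : Type} [AddCommGroup M] [Module C M]
    (h : IsFiniteLength C M) : length C (M →ₗ[C] L) ≤ length C M := by
  induction h with
  | of_subsingleton => simp
  | @of_simple_quotient M _ _ N _ _ ih =>
    rw [len_sub_quot N, add_comm]
    refine (len_mid (LinearMap.lcomp C L N.mkQ) (LinearMap.lcomp C L N.subtype) ?_).trans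
      (add_le_add (hL.simple _) ih)
    intro u hu
    exact ⟨N.liftQ u fun x hx => LinearMap.congr_fun hu ⟨x, hx⟩, by ext; simp⟩

theorem Mult.len_le (hL : Mult C L) (M : Type) [AddCommGroup M] [Module C M] [Module.Finite C M] :
    length C (M →ₗ[C] L) ≤ length C M :=
  hL.len_le' (isFiniteLength_iff_isNoetherian_isArtinian.2 ⟨inferInstance, inferInstance⟩)

end

variable (C) in
theorem exists_mat : ∃ (L : Type) (_ : AddCommGroup L) (_ : Module C L) (_ : Module.Finite C L),
    Mult C L ∧ ∀ (V : Type) [AddCommGroup V] [Module C V] [Module.Finite C V] (x : V), x ≠ 0 →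
      ∃ φ : V →ₗ[C] L, φ x ≠ 0 := by
  let T : Set ℕ := {n | ∃ (L : Type) (_ : AddCommGroup L) (_ : Module C L) (_ : Module.Finite C L),
    Mult C L ∧ len C L = n}
  have hb : BddAbove T := ⟨len C C, by
    rintro _ ⟨L, _, _, _, hL, rfl⟩
    have := hL.len_le C
    rw [(LinearMap.ringLmapEquivSelf C C L).length_eq, ← len_cast, ← len_cast] at this
    exact_mod_cast this⟩
  obtain ⟨L, _, _, _, hL, e⟩ := Nat.sSup_mem (s := T) ⟨_, PUnit, inferInstance, inferInstance,
    inferInstance, fun _ _ _ _ _ _ h => (h rfl).elim, rfl⟩ hb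
  have hmax : ∀ (P : Type) [AddCommGroup P] [Module C P] [Module.Finite C P], Mult C P →
      ∀ j : L →ₗ[C] P, Injective j → Surjective j := fun P _ _ _ hP j hj => surj_of_len hj (by
    rw [← len_cast, ← len_cast, e]
    exact_mod_cast le_csSup hb ⟨P, _, _, inferInstance, hP, rfl⟩)
  have hret : ∀ (P : Type) [AddCommGroup P] [Module C P] [Module.Finite C P] (j : L →ₗ[C] P),
      Injective j → ∃ r : P →ₗ[C] L, ∀ y, r (j y) = y := fun P _ _ _ j hj => by
    obtain ⟨Q, hQ, hm⟩ := set_has_maximal_iff_noetherian.2 (inferInstanceAs (IsNoetherian C P))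
      {Q | Disjoint Q (LinearMap.range j)} ⟨⊥, disjoint_bot_left⟩
    have hi : Injective (Q.mkQ ∘ₗ j) := (injective_iff_map_eq_zero _).2 fun y hy =>
      (injective_iff_map_eq_zero _).1 hj y (Submodule.disjoint_def.1 hQ _
        ((Submodule.Quotient.mk_eq_zero _).1 hy) ⟨y, rfl⟩)
    have hs : ∀ m : Ideal C, m.IsMaximal → ∀ z : P ⧸ Q, (∀ c ∈ m, c • z = 0) →
        ∃ y, (Q.mkQ ∘ₗ j) y = z := fun m hm' z hz => by
      obtain ⟨p, rfl⟩ := Q.mkQ_surjective z
      by_cases hp : p ∈ Q
      · exact ⟨0, by simp [(Submodule.Quotient.mk_eq_zero _).2 hp]⟩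
      have h1 : ¬ Disjoint (Q ⊔ Submodule.span C {p}) (LinearMap.range j) := fun h =>
        hm _ h (left_lt_sup.2 fun h' => hp (h' (Submodule.mem_span_singleton_self p)))
      rw [Submodule.disjoint_def] at h1
      push Not at h1
      obtain ⟨_, h1, ⟨y, rfl⟩, h2⟩ := h1
      obtain ⟨q, hq, _, h3, h4⟩ := Submodule.mem_sup.1 h1
      obtain ⟨c, rfl⟩ := Submodule.mem_span_singleton.1 h3
      have h5 : (Q.mkQ ∘ₗ j) y = c • Q.mkQ p := by
        simp [← h4, (Submodule.Quotient.mk_eq_zero _).2 hq]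
      obtain ⟨d, a, ha, h6⟩ := hm'.exists_inv (x := c) fun hc => h2 (by
        rw [(injective_iff_map_eq_zero _).1 hi y (h5.trans (hz c hc)), map_zero])
      refine ⟨d • y, ?_⟩
      rw [map_smul, h5, smul_smul, eq_sub_of_add_eq h6, sub_smul, hz a ha, one_smul, sub_zero]
    have hb : Bijective (Q.mkQ ∘ₗ j) := ⟨hi, hmax _ (fun m hm' x y hx hy h0 => by
      obtain ⟨x, rfl⟩ := hs m hm' x hx
      obtain ⟨y, rfl⟩ := hs m hm' y hy
      obtain ⟨c, rfl⟩ := Submodule.mem_span_singleton.1 (hL m hm' x y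
        (fun c hc => hi (by rw [map_smul, hx c hc, map_zero]))
        (fun c hc => hi (by rw [map_smul, hy c hc, map_zero])) fun e => h0 (by rw [e, map_zero]))
      exact Submodule.mem_span_singleton.2 ⟨c, (map_smul _ _ _).symm⟩) _ hi⟩
    exact ⟨(LinearEquiv.ofBijective _ hb).symm.toLinearMap ∘ₗ Q.mkQ, fun y =>
      (LinearEquiv.ofBijective _ hb).symm_apply_apply y⟩
  refine ⟨L, inferInstance, inferInstance, inferInstance, hL, fun V _ _ _ x hx => ?_⟩
  obtain ⟨m, hm, hle⟩ := Ideal.exists_le_maximal (LinearMap.ker (LinearMap.toSpanSingleton C V x))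
    ((Ideal.ne_top_iff_one _).2 (by simpa using hx))
  obtain ⟨l, hl, h0⟩ : ∃ l : L, (∀ c ∈ m, c • l = 0) ∧ l ≠ 0 := by
    by_contra h
    push Not at h
    refine (hmax (L × (C ⧸ m)) (fun m' hm' x y hx hy h0 => ?_) (LinearMap.inl C L _)
      LinearMap.inl_injective (0, 1)).elim fun y hy => hm.ne_top ((Ideal.eq_top_iff_one _).2
        (Ideal.Quotient.eq_zero_iff_mem.1 (congrArg Prod.snd hy).symm))
    by_cases e : m' = m
    · subst e
      obtain ⟨b, hb⟩ := Ideal.Quotient.exists_inv (I := m') (a := x.2) fun e =>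
        h0 (Prod.ext (h _ fun c hc => congrArg Prod.fst (hx c hc)) e)
      obtain ⟨c, hc⟩ := Ideal.Quotient.mk_surjective (b * y.2)
      refine Submodule.mem_span_singleton.2 ⟨c, Prod.ext ?_ ?_⟩
      · rw [Prod.smul_fst, h _ fun c hc => congrArg Prod.fst (hx c hc),
          h _ fun c hc => congrArg Prod.fst (hy c hc), smul_zero]
      · rw [Prod.smul_snd, Algebra.smul_def, Ideal.Quotient.algebraMap_eq, hc, mul_right_comm,
          mul_comm b, hb, one_mul]
    · obtain ⟨a, ha, b, hb, hab⟩ := Submodule.mem_sup.1 ((Ideal.eq_top_iff_one _).1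
        (hm'.coprime_of_ne hm e))
      have h2 : ∀ z : L × (C ⧸ m), (∀ c ∈ m', c • z = 0) → z.2 = 0 := fun z hz => by
        rw [← one_smul C z.2, ← hab, add_smul, show a • z.2 = 0 from congrArg Prod.snd (hz a ha),
          Algebra.smul_def, Ideal.Quotient.algebraMap_eq, Ideal.Quotient.eq_zero_iff_mem.2 hb]
        simp
      obtain ⟨c, hc⟩ := Submodule.mem_span_singleton.1 (hL m' hm' x.1 y.1
        (fun c hc => congrArg Prod.fst (hx c hc)) (fun c hc => congrArg Prod.fst (hy c hc))
        fun e => h0 (Prod.ext e (h2 x hx)))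
      exact Submodule.mem_span_singleton.2 ⟨c, Prod.ext hc (by simp [h2 x hx, h2 y hy])⟩
  let Q : Submodule C (L × V) := Submodule.span C {(l, -x)}
  obtain ⟨r, hr⟩ := hret _ (Q.mkQ ∘ₗ LinearMap.inl C L V) ((injective_iff_map_eq_zero _).2
    fun y hy => by
      obtain ⟨c, hc⟩ := Submodule.mem_span_singleton.1 ((Submodule.Quotient.mk_eq_zero _).1 hy)
      have h1 : c • -x = 0 := congrArg Prod.snd hc
      exact (congrArg Prod.fst hc).symm.trans (hl c (hle (by simpa using h1))))
  refine ⟨r ∘ₗ Q.mkQ ∘ₗ LinearMap.inr C L V, fun e => h0 ((hr l).symm.trans (Eq.trans ?_ e))⟩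
  exact congrArg r ((Submodule.Quotient.eq _).2 (by simp [Q]))

variable {A : Type} [Ring A] [Algebra C A] [Module.Finite C A]

variable (C) in
/-- Left almost split maps exist. -/
theorem exists_las (G : Type) [AddCommGroup G] [Module A G] [Module C G] [IsScalarTower C A G]
    [Module.Finite A G] [IsLocalRing (End A G)] :
    ∃ (B : Type) (_ : AddCommGroup B) (_ : Module A B) (j : G →ₗ[A] B),
      (¬ ∃ t : B →ₗ[A] G, t ∘ₗ j = LinearMap.id) ∧
      ∀ (V : Type) [AddCommGroup V] [Module A V] [Module C V] [IsScalarTower C A V]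
        [Module.Finite A V] (u : G →ₗ[A] V), u ∈ Rad A G V C → ∃ v : B →ₗ[A] V, v ∘ₗ j = u := by
  classical
  obtain ⟨L, _, _, _, hL, hc⟩ := exists_mat C
  have := finC C A G
  obtain ⟨n, φ, hφ⟩ := Module.Finite.exists_fin (R := C) (M := G →ₗ[C] L)
  let ρ : (Fin n → A) →ₗ[C] (G →ₗ[C] L) := ∑ i, LinearMap.llcomp C G G L (φ i) ∘ₗ
    (Algebra.lsmul C C G (A := A)).toLinearMap ∘ₗ LinearMap.proj i
  have hρ : ∀ a x, ρ a x = ∑ i, φ i (a i • x) := fun a x => by simp [ρ]
  have h1 : ∀ i x, ρ (Pi.single i 1) x = φ i x := fun i x => by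
    rw [hρ, sum_eq_single i (fun j _ h => by simp [h]) (by simp)]; simp
  have hs : Surjective ρ := LinearMap.range_eq_top.1 (top_unique (hφ ▸ Submodule.span_le.2
    (by rintro _ ⟨i, rfl⟩; exact ⟨_, LinearMap.ext (h1 i)⟩)))
  have hη : Injective (LinearMap.applyₗ : G →ₗ[C] (G →ₗ[C] L) →ₗ[C] L) :=
    (injective_iff_map_eq_zero _).2 fun x hx => by
      by_contra h
      obtain ⟨ψ, hψ⟩ := hc G x h
      exact hψ (LinearMap.congr_fun hx ψ)
  have hu : ∀ x y : G, (∀ a, ρ a x = ρ a y) → x = y := fun x y h => hη (LinearMap.ext fun ψ => by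
    obtain ⟨a, rfl⟩ := hs ψ
    exact h a)
  obtain ⟨m, k, hk⟩ := Submodule.fg_iff_exists_fin_generating_family.1
    (IsNoetherian.noetherian (LinearMap.ker ρ))
  let κ : ∀ (V : Type) [AddCommGroup V] [Module A V] [Module C V] [IsScalarTower C A V],
      (Fin m → V) →ₗ[C] (Fin n → V) := fun V _ _ _ _ =>
    LinearMap.pi fun i => ∑ j, Algebra.lsmul C C V (k j i) ∘ₗ LinearMap.proj j
  have hκ : ∀ (V : Type) [AddCommGroup V] [Module A V] [Module C V] [IsScalarTower C A V] w i,
      κ V w i = ∑ j, k j i • w j := fun V _ _ _ _ w i => by simp [κ]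
  have dual : ∀ (V : Type) [AddCommGroup V] [Module A V] [Module C V] [IsScalarTower C A V]
      (ψ : (Fin n → V) →ₗ[C] L), (∀ w, ψ (κ V w) = 0) →
      ∃ t : V →ₗ[A] G, ∀ v, ψ v = ∑ i, φ i (t (v i)) := fun V _ _ _ _ ψ hψ => by
    have : ∀ y : V, ∃ x : G, ∀ a, ρ a x = ψ fun i => a i • y := fun y => by
      obtain ⟨τ, hτ⟩ := exists_desc hs (ψ ∘ₗ LinearMap.pi fun i =>
        ((LinearMap.toSpanSingleton A V y).restrictScalars C) ∘ₗ LinearMap.proj i) (by
          rw [← hk, Submodule.span_le]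
          rintro _ ⟨j, rfl⟩
          refine Eq.trans (congrArg ψ (funext fun i => ?_)) (hψ (Pi.single j y))
          rw [hκ, sum_eq_single j (fun j _ h => by simp [h]) (by simp)]; simp)
      obtain ⟨x, rfl⟩ := surj_of_len hη ((hL.len_le _).trans (hL.len_le _)) τ
      exact ⟨x, LinearMap.congr_fun hτ⟩
    choose t ht using this
    refine ⟨⟨⟨t, fun y z => hu _ _ fun a => ?_⟩, fun c y => hu _ _ fun a => ?_⟩, fun v => ?_⟩
    · simp only [map_add, ht, smul_add]
      exact map_add ψ _ _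
    · have := ht y fun i => a i * c
      simp only [hρ, mul_smul] at this
      rw [ht, hρ]
      exact this.symm
    · conv_lhs => rw [← univ_sum_single v, map_sum]
      refine sum_congr rfl fun i _ => ?_
      rw [← h1]
      refine Eq.trans (congrArg ψ (funext fun j => ?_)) (ht _ _).symm
      by_cases h : j = i
      · subst h; simp
      · simp [h]
  let α : (G →ₗ[A] G) →ₗ[C] ((Fin n → G) ⧸ LinearMap.range (κ G)) →ₗ[C] L :=
    (Submodule.liftQ _ (∑ i, (LinearMap.llcomp C _ G L (φ i) ∘ₗ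
      (((LinearMap.id : (G →ₗ[A] G) →ₗ[C] G →ₗ[A] G).flip).restrictScalars C)) ∘ₗ
        LinearMap.proj i) (by
        rintro _ ⟨w, rfl⟩
        refine LinearMap.ext fun t => ?_
        have : ∀ j, ∑ i, φ i (k j i • t (w j)) = 0 := fun j => by
          rw [← hρ, show ρ (k j) = 0 from (hk ▸ Submodule.subset_span ⟨j, rfl⟩ :
            k j ∈ LinearMap.ker ρ), LinearMap.zero_apply]
        simp only [LinearMap.sum_apply, LinearMap.comp_apply, LinearMap.proj_apply, hκ, map_sum]
        rw [sum_comm]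
        simpa using sum_eq_zero fun j _ => this j)).flip
  have hα : ∀ t x, α t (Submodule.mkQ _ x) = ∑ i, φ i (t (x i)) := fun t x => by simp [α]
  obtain ⟨ξ, h2, h3⟩ : ∃ ξ, (α ∘ₗ (Rad A G G C).subtype).flip ξ = 0 ∧ ξ ≠ 0 := by
    by_contra h
    push Not at h
    have a1 := (length_le_of_injective _ ((injective_iff_map_eq_zero _).2 h)).trans (hL.len_le _)
    have a2 := (length_le_of_injective α ((injective_iff_map_eq_zero _).2 fun t ht =>
      LinearMap.ext fun x => hu _ _ fun a => by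
        have := hα t fun i => a i • x
        simp only [ht, map_smul, ← hρ] at this
        simpa using this.symm)).trans (hL.len_le _)
    refine (Submodule.length_lt (R := C) (N := Rad A G G C) fun e => ?_).not_ge (a2.trans a1)
    exact mem_rad.1 (e ▸ trivial : LinearMap.id ∈ Rad A G G C) ⟨LinearMap.id, rfl⟩
  obtain ⟨x, rfl⟩ := Submodule.mkQ_surjective _ ξ
  let Q : Submodule A (G × (Fin m → A)) :=
    Submodule.span A (Set.range fun i => (x i, -fun j => k j i))
  refine ⟨_, inferInstance, inferInstance, Q.mkQ ∘ₗ LinearMap.inl A G _, ?_, fun V _ _ _ _ _ u h => ?_⟩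
  · rintro ⟨t, ht⟩
    refine h3 ((Submodule.Quotient.mk_eq_zero _).2
      ⟨fun j => t (Q.mkQ (0, Pi.single j 1)), funext fun i => ?_⟩)
    rw [hκ, ← LinearMap.id_apply (R := A) (x i), ← ht]
    simp only [← map_smul, ← map_sum]
    refine congrArg t ((Submodule.Quotient.eq _).2 (neg_mem_iff.1 ?_))
    refine Submodule.subset_span ⟨i, ?_⟩
    ext j <;> simp [Prod.fst_sum, Prod.snd_sum, Pi.single_apply]
  · have := finC C A V
    obtain ⟨w, hw⟩ : (fun i => u (x i)) ∈ LinearMap.range (κ V) := by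
      by_contra h4
      obtain ⟨ψ, hψ⟩ := hc _ _ (mt (Submodule.Quotient.mk_eq_zero _).1 h4)
      obtain ⟨t, ht⟩ := dual V (ψ ∘ₗ Submodule.mkQ _) fun w =>
        (congrArg ψ ((Submodule.Quotient.mk_eq_zero _).2 ⟨w, rfl⟩)).trans (map_zero ψ)
      exact hψ ((ht _).trans ((hα (t ∘ₗ u) x).symm.trans
        (LinearMap.congr_fun h2 ⟨_, rad_post h t⟩)))
    refine ⟨Q.liftQ (u.coprod (Fintype.linearCombination A w)) (Submodule.span_le.2 ?_), by
      ext; simp⟩
    rintro _ ⟨i, rfl⟩
    have := congrFun hw i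
    rw [hκ] at this
    simp [Fintype.linearCombination_apply, this]

end Pool.Agent.MP_bd94e8_al.H83
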