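import Pool.Agent.MP_bd94e8_al.H83.Rad

/-!
A family of modules closed under almost split sequences, with a finite section.
-/

set_option autoImplicit false
set_option linter.unusedSectionVars false

namespace Pool.Agent.MP_bd94e8_al.H83

open Module Function Finset

variable {C : Type} [CommRing C] [IsArtinianRing C] {A : Type} [Ring A] [Algebra C A]
  [Module.Finite C A]

section
variable {M N P T : Type} [AddCommGroup M] [Module A M] [AddCommGroup N] [Module A N] [Module C N]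
  [IsScalarTower C A N] [AddCommGroup P] [Module A P] [Module C P] [IsScalarTower C A P]
  [AddCommGroup T] [Module A T]

variable (C M) in
/-- Composition with a fixed map on the target. -/
def post (w : N →ₗ[A] P) : (M →ₗ[A] N) →ₗ[C] (M →ₗ[A] P) :=
  ⟨⟨fun u => w ∘ₗ u, fun _ _ => LinearMap.comp_add _ _ _⟩, fun _ _ => by ext; simp⟩

@[simp] theorem post_apply (w : N →ₗ[A] P) (u : M →ₗ[A] N) : post C M w u = w ∘ₗ u := rfl
@[simp] theorem pre_apply (w : T →ₗ[A] M) (u : M →ₗ[A] N) : pre C N w u = u ∘ₗ w := rfl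

variable (C A M N T) in
/-- Sums of maps that factor through `T`. -/
def Thru : Submodule C (M →ₗ[A] N) :=
  Submodule.span C {u | ∃ (v : M →ₗ[A] T) (w : T →ₗ[A] N), w ∘ₗ v = u}

theorem mem_thru (v : M →ₗ[A] T) (w : T →ₗ[A] N) : w ∘ₗ v ∈ Thru C A M N T :=
  Submodule.subset_span ⟨v, w, rfl⟩

theorem thru_le {W : Submodule C (M →ₗ[A] N)} (h : ∀ (v : M →ₗ[A] T) (w : T →ₗ[A] N), w ∘ₗ v ∈ W) :
    Thru C A M N T ≤ W := Submodule.span_le.2 (by rintro _ ⟨v, w, rfl⟩; exact h v w)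

theorem thru_post (w : N →ₗ[A] P) {u : M →ₗ[A] N} (h : u ∈ Thru C A M N T) :
    w ∘ₗ u ∈ Thru C A M P T :=
  thru_le (W := (Thru C A M P T).comap (post C M w)) (fun v w' => mem_thru v (w ∘ₗ w')) h

theorem thru_pre {M' : Type} [AddCommGroup M'] [Module A M'] (w : M' →ₗ[A] M) {u : M →ₗ[A] N}
    (h : u ∈ Thru C A M N T) : u ∘ₗ w ∈ Thru C A M' N T :=
  thru_le (W := (Thru C A M' N T).comap (pre C N w)) (fun v w' => mem_thru (v ∘ₗ w) w') h

variable (C A M N T) in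
/-- The length of the space of maps modulo those through `T`. -/
noncomputable def hb : ℕ∞ := length C ((M →ₗ[A] N) ⧸ Thru C A M N T)

variable {ι : Type} [Fintype ι] [DecidableEq ι] {X : ι → Type} [∀ i, AddCommGroup (X i)]
  [∀ i, Module A (X i)]

theorem pi_sum (v : M →ₗ[A] ∀ i, X i) :
    v = ∑ i, LinearMap.single A X i ∘ₗ LinearMap.proj i ∘ₗ v := by
  ext x j
  simp

theorem pi_sum' (v : (∀ i, X i) →ₗ[A] M) :
    v = ∑ i, (v ∘ₗ LinearMap.single A X i) ∘ₗ LinearMap.proj i := by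
  refine LinearMap.ext fun x => ?_
  simp [← map_sum, univ_sum_single]

theorem comp_sum {κ : Type} (s : Finset κ) (w : N →ₗ[A] T) (u : κ → (M →ₗ[A] N)) :
    w ∘ₗ (∑ i ∈ s, u i) = ∑ i ∈ s, w ∘ₗ u i := LinearMap.ext fun x => by simp

theorem sum_comp {κ : Type} (s : Finset κ) (w : T →ₗ[A] M) (u : κ → (M →ₗ[A] N)) :
    (∑ i ∈ s, u i) ∘ₗ w = ∑ i ∈ s, u i ∘ₗ w := LinearMap.ext fun x => by simp

theorem hb_pi_src : hb C A (∀ i, X i) N T ≤ ∑ i, hb C A (X i) N T := by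
  simp only [hb]
  rw [← length_pi_of_fintype, ← len_quot_bot (U := ∀ i, _)]
  refine len_quot_le' (LinearMap.pi fun i => Submodule.mkQ _ ∘ₗ pre C N (LinearMap.single A X i))
    fun v hv => ?_
  rw [pi_sum' v]
  exact Submodule.sum_mem _ fun i _ =>
    thru_pre _ ((Submodule.Quotient.mk_eq_zero _).1 (congrFun hv i))

variable [∀ i, Module C (X i)] [∀ i, IsScalarTower C A (X i)]

theorem hb_pi : hb C A M (∀ i, X i) T = ∑ i, hb C A M (X i) T := by
  simp only [hb]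
  rw [← length_pi_of_fintype, ← len_quot_bot (U := ∀ i, _ ⧸ _)]
  let e : (M →ₗ[A] ∀ i, X i) →ₗ[C] ∀ i, (M →ₗ[A] X i) ⧸ Thru C A M (X i) T :=
    LinearMap.pi fun i => Submodule.mkQ _ ∘ₗ post C M (LinearMap.proj i)
  refine le_antisymm (len_quot_le' e fun v hv => ?_) (len_quot_le e (fun y => ?_) fun v hv => ?_)
  · rw [pi_sum v]
    exact Submodule.sum_mem _ fun i _ =>
      thru_post _ ((Submodule.Quotient.mk_eq_zero _).1 (congrFun hv i))
  · choose u hu using fun i => Submodule.mkQ_surjective _ (y i)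
    exact ⟨LinearMap.pi u, funext hu⟩
  · exact funext fun i => (Submodule.Quotient.mk_eq_zero _).2 (thru_post _ hv)

end

variable (A) (r : ℕ) (Z : ℕ → Type) [∀ p, AddCommGroup (Z p)] [∀ p, Module A (Z p)]

/-- The data of the almost split sequences. -/
structure Msh where
  hr : 0 < r
  n : ℕ → ℕ
  pos : ∀ p, Fin (n p) → ℕ
  lt : ∀ p a, p < pos p a
  gt : ∀ p a, pos p a < p + r
  f : ∀ p, Z p →ₗ[A] ∀ a, Z (pos p a)
  g : ∀ p, (∀ a, Z (pos p a)) →ₗ[A] Z (p + r)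
  as : ∀ p, AlmostSplit (f p) (g p)
  ind : ∀ p, Indec A (Z p)
  ne : ∀ p q, p ≠ q → IsEmpty (Z p ≃ₗ[A] Z q)

/-- A slice. -/
abbrev Sl (c : ℕ) : Type := ∀ i : Fin r, Z (c + i)

variable {A r Z} [∀ p, Module C (Z p)] [∀ p, IsScalarTower C A (Z p)] [∀ p, Module.Finite A (Z p)]
  [∀ p, IsLocalRing (End A (Z p))] (D : Msh A r Z)

namespace Msh

/-- Components of the left almost split map. -/
def fc (p : ℕ) (a : Fin (D.n p)) : Z p →ₗ[A] Z (D.pos p a) := LinearMap.proj a ∘ₗ D.f p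

/-- Components of the right almost split map. -/
def gc (p : ℕ) (a : Fin (D.n p)) : Z (D.pos p a) →ₗ[A] Z (p + r) :=
  D.g p ∘ₗ LinearMap.single A (fun a => Z (D.pos p a)) a

include D

theorem rad_ne {p q : ℕ} (h : p ≠ q) (u : Z p →ₗ[A] Z q) : u ∈ Rad A (Z p) (Z q) C :=
  (mem_rad' (D.ind q)).2 fun hb => (D.ne p q h).false (LinearEquiv.ofBijective u hb)

theorem nsect {p q : ℕ} {u : Z p →ₗ[A] Z q} (h : u ∈ Rad A (Z p) (Z q) C) :
    ¬ ∃ s : Z q →ₗ[A] Z p, u ∘ₗ s = LinearMap.id := not_sect (D.ind p) (D.ind q) h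

theorem rad_pre {p q s : ℕ} {u : Z q →ₗ[A] Z s} (h : u ∈ Rad A (Z q) (Z s) C) (v : Z p →ₗ[A] Z q) :
    u ∘ₗ v ∈ Rad A (Z p) (Z s) C := (mem_rad' (D.ind s)).2 fun hb =>
  D.nsect h ⟨v ∘ₗ (LinearEquiv.ofBijective _ hb).symm.toLinearMap,
    LinearMap.ext (LinearEquiv.ofBijective _ hb).apply_symm_apply⟩

variable {M : Type} [AddCommGroup M] [Module A M] [Module.Finite A M]

theorem left {p : ℕ} (u : Z p →ₗ[A] M) (h : ¬ ∃ t : M →ₗ[A] Z p, t ∘ₗ u = LinearMap.id) :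
    ∃ v : ∀ a, Z (D.pos p a) →ₗ[A] M, u = ∑ a, v a ∘ₗ D.fc p a := by
  obtain ⟨v, rfl⟩ := (D.as p).left M u h
  refine ⟨fun a => v ∘ₗ LinearMap.single A (fun a => Z (D.pos p a)) a, ?_⟩
  conv_lhs => rw [pi_sum' v, sum_comp]
  rfl

theorem right {p : ℕ} (u : M →ₗ[A] Z (p + r))
    (h : ¬ ∃ t : Z (p + r) →ₗ[A] M, u ∘ₗ t = LinearMap.id) :
    ∃ v : ∀ a, M →ₗ[A] Z (D.pos p a), u = ∑ a, D.gc p a ∘ₗ v a := by
  obtain ⟨v, rfl⟩ := (D.as p).right M u h
  refine ⟨fun a => LinearMap.proj a ∘ₗ v, ?_⟩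
  conv_lhs => rw [pi_sum v, comp_sum]
  rfl

theorem back (c s : ℕ) (hs : c ≤ s)
    (h : ∀ t, c + r ≤ t → t < s → ∀ u : M →ₗ[A] Z t, ¬ ∃ w : Z t →ₗ[A] M, u ∘ₗ w = LinearMap.id)
    (u : M →ₗ[A] Z s) (hu : c + r ≤ s → ¬ ∃ w : Z s →ₗ[A] M, u ∘ₗ w = LinearMap.id) :
    u ∈ Thru C A M (Z s) (Sl r Z c) := by
  induction s using Nat.strong_induction_on with
  | _ s ih =>
  by_cases h1 : c + r ≤ s
  · obtain ⟨p, rfl⟩ : ∃ p, s = p + r := ⟨s - r, by omega⟩
    obtain ⟨v, rfl⟩ := D.right u (hu h1)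
    refine Submodule.sum_mem _ fun a _ => thru_post _ (ih _ (D.gt p a) (by have := D.lt p a; omega)
      (fun t h2 h3 => h t h2 (h3.trans (D.gt p a))) _ fun h2 => h _ h2 (D.gt p a) _)
  · obtain ⟨i, rfl⟩ : ∃ i : Fin r, s = c + i := ⟨⟨s - c, by omega⟩, by simp; omega⟩
    convert mem_thru (C := C) (LinearMap.single A (fun i : Fin r => Z (c + i)) i ∘ₗ u)
      (LinearMap.proj i)
    ext; simp

theorem back' {c q s : ℕ} (hs : c ≤ s) (hq : q < c + r ∨ s ≤ q) {u : Z q →ₗ[A] Z s}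
    (hu : c + r ≤ s → u ∈ Rad A (Z q) (Z s) C) : u ∈ Thru C A (Z q) (Z s) (Sl r Z c) :=
  D.back c s hs (fun _ _ _ u => D.nsect (D.rad_ne (C := C) (by omega) u)) u
    fun h => D.nsect (hu h)

variable (C) in
include C in
theorem nsect_sl {c s : ℕ} (h : c + r ≤ s) (u : Sl r Z c →ₗ[A] Z s) :
    ¬ ∃ w : Z s →ₗ[A] Sl r Z c, u ∘ₗ w = LinearMap.id := by
  rintro ⟨w, e⟩
  refine mem_rad.1 (show LinearMap.id ∈ Rad A (Z s) (Z s) C from ?_) ⟨LinearMap.id, rfl⟩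
  rw [← e, pi_sum w, comp_sum]
  exact Submodule.sum_mem _ fun i _ => rad_post (R := C) (rad_post
    (D.rad_ne (C := C) (q := c + i) (by omega) (LinearMap.proj i ∘ₗ w)) _) _

variable (C) in
include C in
theorem nretr_sl {c s : ℕ} (h : c + r ≤ s) (u : Z s →ₗ[A] Sl r Z c) :
    ¬ ∃ w : Sl r Z c →ₗ[A] Z s, w ∘ₗ u = LinearMap.id := by
  rw [← mem_rad (R := C), pi_sum u]
  exact Submodule.sum_mem _ fun i _ =>
    rad_post (D.rad_ne (C := C) (q := c + i) (by omega) (LinearMap.proj i ∘ₗ u)) _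

theorem hb_super (Y : Type) [AddCommGroup Y] [Module A Y] {c p : ℕ} (h : c ≤ p) :
    ∑ a, hb C A Y (Z (D.pos p a)) (Sl r Z c) ≤
      hb C A Y (Z p) (Sl r Z c) + hb C A Y (Z (p + r)) (Sl r Z c) := by
  rw [← hb_pi]
  refine len_mid (Submodule.mapQ _ _ (post C Y (D.f p)) fun _ => thru_post _)
    (Submodule.mapQ _ _ (post C Y (D.g p)) fun _ => thru_post _) fun y hy => ?_
  obtain ⟨u, rfl⟩ := Submodule.mkQ_surjective _ y
  have h1 : D.g p ∘ₗ u ∈ Thru C A Y _ _ := (Submodule.Quotient.mk_eq_zero _).1 hy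
  obtain ⟨u', h2, h3⟩ := thru_le (W := (Thru C A Y _ (Sl r Z c)).map (post C Y (D.g p)))
    (fun v w => by
      obtain ⟨w', rfl⟩ := (D.as p).right _ w (D.nsect_sl C (by omega) w)
      exact ⟨_, mem_thru v w', rfl⟩) h1
  have h4 : ∀ x, (u - u') x ∈ LinearMap.range (D.f p) := fun x => ((D.as p).exact _).1 (by
    rw [LinearMap.sub_apply, map_sub, sub_eq_zero]; exact (LinearMap.congr_fun h3 x).symm)
  let e := LinearEquiv.ofInjective _ (D.as p).inj
  refine ⟨Submodule.mkQ _ (e.symm.toLinearMap ∘ₗ (u - u').codRestrict _ h4),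
    (Submodule.Quotient.eq _).2 ?_⟩
  have : post C Y (D.f p) (e.symm.toLinearMap ∘ₗ (u - u').codRestrict _ h4) = u - u' :=
    LinearMap.ext fun x => congrArg Subtype.val (e.apply_symm_apply _)
  rw [this, sub_sub_cancel_left]
  exact neg_mem h2

theorem nsect_free {c s : ℕ} (h : c + r ≤ s) (u : A →ₗ[A] Z s) :
    ¬ ∃ w : Z s →ₗ[A] A, u ∘ₗ w = LinearMap.id := by
  obtain ⟨p, rfl⟩ : ∃ p, s = p + r := ⟨s - r, by omega⟩
  rintro ⟨w, e⟩
  obtain ⟨v, rfl⟩ := Module.projective_lifting_property _ u (D.as p).surj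
  exact (D.as p).nonsplit ⟨v ∘ₗ w, e⟩

theorem hb_ne {c m : ℕ} (hm : c + r ≤ m) :
    ∃ y : Fin r, hb C A (Z (c + r + y)) (Z m) (Sl r Z c) ≠ 0 := by
  classical
  by_contra hn
  push Not at hn
  have h1 : ∀ (y : Fin r) (u : Z (c + r + y) →ₗ[A] Z m), u ∈ Thru C A _ _ (Sl r Z c) :=
    fun y u => (Submodule.Quotient.mk_eq_zero _).1
      (@Subsingleton.elim _ (length_eq_zero_iff.1 (hn y)) _ _)
  let lam : ∀ q, Z q → ℕ := fun q x =>
    ∑ t ∈ range (c + r + r), len C (LinearMap.range (ev C A (Z t) x))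
  let P : ∀ q, Z q → Prop := fun q x => c ≤ q ∧ q < c + r + r ∧ ∃ ψ : Z q →ₗ[A] Z m, ψ x ≠ 0
  have step : ∀ {B : Type} [AddCommGroup B] [Module A B] (x : B) (ψ : B →ₗ[A] Z m) (b : ℕ),
      ψ ∈ Thru C A B (Z m) (Sl r Z b) → ψ x ≠ 0 →
      ∃ (i : Fin r) (u : B →ₗ[A] Z (b + i)) (ψ' : Z (b + i) →ₗ[A] Z m), ψ' (u x) ≠ 0 := by
    intro B _ _ x ψ b h hx
    by_contra h2
    push Not at h2
    refine hx (thru_le (W := LinearMap.ker (ev C A (Z m) x)) (fun v w => ?_) h)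
    change (w ∘ₗ v) x = 0
    rw [pi_sum v, comp_sum, LinearMap.sum_apply]
    exact sum_eq_zero fun i _ => h2 i (LinearMap.proj i ∘ₗ v) (w ∘ₗ LinearMap.single A (fun i : Fin r => Z (b + i)) i)
  have hne : ∃ k, ∃ q x, P q x ∧ lam q x = k := by
    have := (D.ind m).1
    obtain ⟨z, hz⟩ := exists_ne (0 : Z m)
    obtain ⟨i, u, ψ, h⟩ := step (1 : A) (LinearMap.toSpanSingleton A _ z) c
      (D.back c m (by omega) (fun t h _ u => D.nsect_free h u) _ fun h => D.nsect_free h _)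
      (by simpa using hz)
    exact ⟨_, c + i, u 1, ⟨by omega, by omega, ψ, h⟩, rfl⟩
  obtain ⟨q, x, ⟨h2, h3, ψ, hψ⟩, hk⟩ := Nat.find_spec hne
  obtain ⟨q', u, hq, h4⟩ : ∃ (q' : ℕ) (u : Z q →ₗ[A] Z q'), q ≠ q' ∧ P q' (u x) := by
    by_cases h : q < c + r
    · obtain ⟨i, u, ψ', h5⟩ := step x ψ (c + r) (D.back' hm (Or.inl (by omega))
        fun _ => D.rad_ne (by omega) _) hψ
      exact ⟨_, u, by omega, by omega, by omega, ψ', h5⟩
    · obtain ⟨y, rfl⟩ : ∃ y : Fin r, q = c + r + y := ⟨⟨q - (c + r), by omega⟩, by simp; omega⟩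
      obtain ⟨i, u, ψ', h5⟩ := step x ψ c (h1 y ψ) hψ
      exact ⟨_, u, by omega, by omega, by omega, ψ', h5⟩
  refine Nat.find_min hne (show lam q' (u x) < _ from ?_) ⟨q', u x, h4, rfl⟩
  rw [← hk]
  have hf := fun t => finC C A (Z t)
  have hle : ∀ t, LinearMap.range (ev C A (Z t) (u x)) ≤ LinearMap.range (ev C A (Z t) x) := by
    rintro t _ ⟨w, rfl⟩
    exact ⟨w ∘ₗ u, rfl⟩
  refine sum_lt_sum (fun t _ => ?_) ⟨q, mem_range.2 h3, ?_⟩
  · have := len_mono (hle t)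
    rw [← len_cast, ← len_cast] at this
    exact_mod_cast this
  · have := Submodule.height_strictMono (lt_of_le_of_ne (hle q) fun e => by
      obtain ⟨w, hw⟩ : x ∈ LinearMap.range (ev C A (Z q) (u x)) := e ▸ ⟨LinearMap.id, rfl⟩
      have h5 := (IsLocalRing.isUnit_or_isUnit_of_add_one
        (add_sub_cancel (w ∘ₗ u : End A (Z q)) 1)).resolve_left (D.rad_ne (C := C) hq u w)
      refine hψ ?_
      rw [((End.isUnit_iff _).1 h5).1 (a₁ := x) (a₂ := 0) (by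
        rw [map_zero]; exact sub_eq_zero.2 hw.symm), map_zero])
    rw [← length_submodule, ← length_submodule, ← len_cast, ← len_cast] at this
    exact_mod_cast this

end Msh

end Pool.Agent.MP_bd94e8_al.H83
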