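import Mathlib

/-!
Additive and subadditive functions on `ℕ Δ` for a finite valued quiver `Δ`.
-/

set_option autoImplicit false

namespace Pool.Agent.MP_bd94e8_al.H83

open Finset Filter

variable {r : ℕ} {α : Fin r → Fin r → ℕ} {d : Fin r → ℕ} {ξ : Fin r → ℝ}

variable (α) in
/-- The sum over the middle term of a mesh. -/
def ms {R : Type} [CommRing R] (x y : Fin r → R) (i : Fin r) : R :=
  ∑ j, α i j * if i < j then x j else y j

variable (α d) in
/-- Symmetrizable data. -/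
structure Car : Prop where
  pos : ∀ i, 0 < d i
  diag : ∀ i, α i i = 0
  sym : ∀ i j, α i j * d j = α j i * d i

variable (α ξ) in
/-- A nonzero subadditive vector. -/
structure Sub : Prop where
  nn : ∀ i, 0 ≤ ξ i
  ne : ξ ≠ 0
  le : ∀ i, ∑ j, α i j * ξ j ≤ 2 * ξ i

variable (α) in
/-- Exponential growth of superadditive functions. -/
def Grow (ε c : ℝ) : Prop :=
  ∀ φ : ℕ → Fin r → ℝ, (∀ n i, 0 ≤ φ n i) → ∀ n,
    (∀ m < n, ∀ i, ms α (φ m) (φ (m + 1)) i ≤ φ m i + φ (m + 1) i) →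
    ε * ∑ m ∈ range n, ∑ i, φ m i ≤ ∑ i, φ n i + c * ∑ i, φ 0 i

theorem exists_grow (hr : 0 < r) (h : ¬ ∃ ξ, Sub α ξ) : ∃ ε c, 0 < ε ∧ 0 ≤ c ∧ Grow α ε c := by
  let G : (Fin r → ℝ) → ℝ := fun s => ∑ i, max 0 (∑ j, α i j * s j - 2 * s i)
  have : Nonempty (Fin r) := ⟨⟨0, hr⟩⟩
  obtain ⟨s₀, hs₀, hm⟩ := (isCompact_stdSimplex ℝ (Fin r)).exists_isMinOn
    Set.Nonempty.of_subtype (f := G) (by fun_prop)
  have hpos : 0 < G s₀ := by
    by_contra hn
    have h1 := (sum_eq_zero_iff_of_nonneg fun i _ => le_max_left _ _).1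
      (le_antisymm (not_lt.1 hn) (sum_nonneg fun i _ => le_max_left _ _))
    refine h ⟨s₀, hs₀.1, fun e => by simpa [e] using hs₀.2, fun i => ?_⟩
    have := le_max_right 0 (∑ j, α i j * s₀ j - 2 * s₀ i)
    rw [h1 i (mem_univ i)] at this
    linarith
  have hG : ∀ s : Fin r → ℝ, (∀ i, 0 ≤ s i) → G s₀ * ∑ i, s i ≤ G s := fun s hs => by
    rcases (sum_nonneg fun i (_ : i ∈ univ) => hs i).eq_or_lt with e | e
    · rw [← e, mul_zero]; exact sum_nonneg fun i _ => le_max_left _ _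
    have h1 : G s₀ ≤ G fun i => s i / ∑ i, s i :=
      hm ⟨fun i => div_nonneg (hs i) e.le, by rw [← sum_div, div_self e.ne']⟩
    refine (mul_le_mul_of_nonneg_right h1 e.le).trans (le_of_eq ?_)
    rw [sum_mul]
    refine sum_congr rfl fun i _ => ?_
    rw [max_mul_of_nonneg _ _ e.le, zero_mul, sub_mul, sum_mul, mul_assoc, div_mul_cancel₀ _ e.ne']
    congr 2
    exact sum_congr rfl fun j _ => by rw [mul_assoc, div_mul_cancel₀ _ e.ne']
  refine ⟨G s₀, ∑ i, ∑ j, α i j, hpos, by positivity, fun φ h0 n hn => ?_⟩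
  rw [sum_comm]
  refine (hG _ fun i => sum_nonneg fun m _ => h0 m i).trans ?_
  rw [sum_mul, ← sum_add_distrib]
  refine sum_le_sum fun i _ => ?_
  have hS : 0 ≤ ∑ i, φ 0 i := sum_nonneg fun i _ => h0 0 i
  refine max_le (add_nonneg (h0 n i) (by positivity)) ?_
  have h1 := sum_le_sum fun m hm => hn m (mem_range.1 hm) i
  have h2 : ∀ j, ∑ m ∈ range n, φ (m + 1) j = ∑ m ∈ range n, φ m j + φ n j - φ 0 j := fun j => by
    rw [← sum_range_succ (fun m => φ m j), sum_range_succ' (fun m => φ m j)]; ring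
  rw [sum_add_distrib, h2] at h1
  simp only [ms] at h1
  rw [sum_comm] at h1
  have h3 : ∑ j, α i j * (∑ m ∈ range n, φ m j - ∑ i, φ 0 i) ≤
      ∑ j, ∑ m ∈ range n, α i j * if i < j then φ m j else φ (m + 1) j := sum_le_sum fun j _ => by
    rw [← mul_sum]
    refine mul_le_mul_of_nonneg_left ?_ (by positivity)
    have := single_le_sum (fun i _ => h0 0 i) (mem_univ j)
    split_ifs
    · linarith
    · rw [h2]; linarith [h0 n j]
  simp only [mul_sub, sum_sub_distrib, ← sum_mul] at h3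
  linarith [h0 0 i]

theorem not_lin {ε c c' : ℝ} (hε : 0 < ε) (L : ℕ → ℝ) (h1 : ∀ n, 1 ≤ L n)
    (h2 : ∀ n, ε * ∑ m ∈ range n, L m ≤ L n + c) (h3 : ∀ᶠ n in atTop, L (n + 1) ≤ L n + c') :
    False := by
  obtain ⟨n₀, h3⟩ := eventually_atTop.1 h3
  have h4 : ∀ n, L (n₀ + n) ≤ L n₀ + |c'| * n := fun n => by
    induction n with
    | zero => simp
    | succ n ih =>
      have := h3 (n₀ + n) (by omega)
      rw [← add_assoc]; push_cast
      linarith [le_abs_self c']
  have h5 : ∀ n : ℕ, ε * n - c ≤ L n := fun n => by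
    have : (n : ℝ) ≤ ∑ m ∈ range n, L m := by
      simpa using sum_le_sum fun m (_ : m ∈ range n) => h1 m
    nlinarith [h2 n]
  obtain ⟨n, hn⟩ := exists_nat_gt ((|L n₀| + 2 * |c'| + |c| + ε * |c|) / ε ^ 2 + 1)
  have hq : 0 ≤ (|L n₀| + 2 * |c'| + |c| + ε * |c|) / ε ^ 2 := by positivity
  have hn1 : (1 : ℝ) ≤ n := by linarith
  have hn2 : |L n₀| + 2 * |c'| + |c| + ε * |c| < ε ^ 2 * n := by
    rw [← div_lt_iff₀' (by positivity)]; linarith
  have h6 : n * (ε * n - c) ≤ ∑ m ∈ range (n₀ + n + n), L m := by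
    rw [sum_range_add]
    have a : 0 ≤ ∑ m ∈ range (n₀ + n), L m := sum_nonneg fun m _ => by linarith [h1 m]
    have b : ∑ m ∈ range n, (ε * n - c) ≤ ∑ m ∈ range n, L (n₀ + n + m) := sum_le_sum fun m _ => by
      refine le_trans ?_ (h5 _)
      push_cast
      nlinarith [Nat.cast_nonneg (α := ℝ) n₀, Nat.cast_nonneg (α := ℝ) m]
    simp only [sum_const, card_range, nsmul_eq_mul] at b
    linarith
  have h7 := h2 (n₀ + n + n)
  have h8 := h4 (n + n)
  rw [← add_assoc] at h8
  push_cast at h8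
  have h9 := mul_le_mul_of_nonneg_left h6 hε.le
  have := mul_lt_mul_of_pos_right hn2 (show (0 : ℝ) < n by linarith)
  have e1 := le_abs_self c
  have e2 := le_abs_self (L n₀)
  have e3 : |L n₀| ≤ |L n₀| * n := le_mul_of_one_le_right (abs_nonneg _) hn1
  have e4 : |c| ≤ |c| * n := le_mul_of_one_le_right (abs_nonneg _) hn1
  have e5 : ε * (n * c) ≤ ε * (n * |c|) := by gcongr
  nlinarith

variable (α) in
/-- The defect of additivity at `i`. -/
def df (x : Fin r → ℝ) (i : Fin r) : ℝ := 2 * x i - ∑ j, α i j * x j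

variable (α d) in
/-- The Tits form. -/
noncomputable def tits (x y : Fin r → ℝ) : ℝ := ∑ i, x i * df α y i / d i

theorem Car.sym' (h : Car α d) (i j : Fin r) : (α i j : ℝ) / d i = α j i / d j := by
  have := h.pos i
  have := h.pos j
  rw [div_eq_div_iff (by positivity) (by positivity)]
  exact_mod_cast h.sym i j

theorem tits_eq (x y : Fin r → ℝ) : tits α d x y =
    ∑ i, 2 * (x i * y i) / d i - ∑ i, ∑ j, (α i j : ℝ) / d i * (x i * y j) := by
  rw [tits, ← sum_sub_distrib]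
  refine sum_congr rfl fun i _ => ?_
  rw [df, mul_sub, sub_div, mul_sum, sum_div]
  congr 1
  · ring
  · exact sum_congr rfl fun j _ => by ring

theorem Car.tits_comm (h : Car α d) (x y : Fin r → ℝ) : tits α d x y = tits α d y x := by
  rw [tits_eq, tits_eq, sum_comm (f := fun i j => (α i j : ℝ) / d i * (x i * y j))]
  congr 1
  · exact sum_congr rfl fun i _ => by ring
  · exact sum_congr rfl fun i _ => sum_congr rfl fun j _ => by rw [h.sym' j i]; ring

theorem Car.tits_add (h : Car α d) (x : Fin r → ℝ) (i : Fin r) (t : ℝ) :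
    tits α d (x + Pi.single i t) (x + Pi.single i t) =
      tits α d x x + 2 * t * df α x i / d i + 2 * t ^ 2 / d i := by
  have h1 : ∀ a b y, tits α d (a + b) y = tits α d a y + tits α d b y := fun a b y => by
    simp only [tits, Pi.add_apply, add_mul, add_div, sum_add_distrib]
  have h2 : ∀ y, tits α d (Pi.single i t) y = t * df α y i / d i := fun y => by
    rw [tits, sum_eq_single i] <;> simp +contextual
  have h3 : df α (Pi.single i t) i = 2 * t := by
    rw [df, sum_eq_single i] <;> simp +contextual [h.diag]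
  rw [h1, h.tits_comm x, h.tits_comm (Pi.single i t), h1, h1, h.tits_comm x (Pi.single i t), h2,
    h2, h3]
  ring

theorem Car.tits_nonneg (h : Car α d) (hξ : Sub α ξ) {x : Fin r → ℝ} (hx : ∀ i, ξ i = 0 → x i = 0) :
    0 ≤ tits α d x x := by
  obtain ⟨y, rfl⟩ : ∃ y : Fin r → ℝ, x = fun i => ξ i * y i := ⟨fun i => x i / ξ i, funext fun i => by
    by_cases e : ξ i = 0
    · simp [e, hx i e]
    · field_simp⟩
  have h1 : 0 ≤ ∑ i, ∑ j, (α i j : ℝ) / d i * (ξ i * ξ j) * (y i - y j) ^ 2 :=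
    sum_nonneg fun i _ => sum_nonneg fun j _ => by
      have := hξ.nn i
      have := hξ.nn j
      positivity
  have h2 : ∑ i, ∑ j, (α i j : ℝ) / d i * (ξ i * ξ j) * y j ^ 2 =
      ∑ i, ∑ j, (α i j : ℝ) / d i * (ξ i * ξ j) * y i ^ 2 := by
    rw [sum_comm]
    exact sum_congr rfl fun i _ => sum_congr rfl fun j _ => by rw [h.sym' j i]; ring
  have h3 : ∑ i, ∑ j, (α i j : ℝ) / d i * (ξ i * ξ j) * y i ^ 2 ≤
      ∑ i, 2 * (ξ i * y i * (ξ i * y i)) / d i := sum_le_sum fun i _ => by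
    have := mul_le_mul_of_nonneg_left (hξ.le i)
      (show 0 ≤ ξ i * y i ^ 2 / d i by have := hξ.nn i; positivity)
    rw [mul_sum] at this
    calc _ = _ := sum_congr rfl fun j _ => by ring
      _ ≤ _ := this
      _ = _ := by ring
  have h4 : ∑ i, ∑ j, (α i j : ℝ) / d i * (ξ i * ξ j) * (y i - y j) ^ 2 =
      ∑ i, ∑ j, (α i j : ℝ) / d i * (ξ i * ξ j) * y i ^ 2 +
      ∑ i, ∑ j, (α i j : ℝ) / d i * (ξ i * ξ j) * y j ^ 2 -
      2 * ∑ i, ∑ j, (α i j : ℝ) / d i * (ξ i * y i * (ξ j * y j)) := by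
    simp only [mul_sum, ← sum_add_distrib, ← sum_sub_distrib]
    exact sum_congr rfl fun i _ => sum_congr rfl fun j _ => by ring
  rw [tits_eq]
  linarith

theorem Car.incr (h : Car α d) (hξ : Sub α ξ) (φ : ℕ → Fin r → ℝ)
    (h0 : ∀ n i, ξ i = 0 → φ n i = 0)
    (hφ : ∀ n i, φ n i + φ (n + 1) i = ms α (φ n) (φ (n + 1)) i) (n : ℕ) (i : Fin r) :
    (φ (n + 1) i - φ n i) ^ 2 ≤ 2 * d i * tits α d (φ 0) (φ 0) := by
  let z : ℕ → ℕ → Fin r → ℝ := fun n t j => if j.1 < t then φ (n + 1) j else φ n j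
  have h1 : ∀ n (i : Fin r), df α (z n i) i = φ n i - φ (n + 1) i := fun n i => by
    have : ∑ j, α i j * z n i j = ms α (φ n) (φ (n + 1)) i := sum_congr rfl fun j _ => by
      rcases lt_trichotomy i j with e | rfl | e
      · rw [if_pos e]; simp only [z]; rw [if_neg (by omega)]
      · simp [h.diag]
      · rw [if_neg e.not_gt]; simp only [z]; rw [if_pos (by omega)]
    rw [df, this, ← hφ]
    simp only [z, lt_irrefl, if_false]
    ring
  have h2 : ∀ n t, t ≤ r → tits α d (z n t) (z n t) = tits α d (φ n) (φ n) := fun n t => by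
    induction t with
    | zero => intro _; simp [z]
    | succ t ih =>
      intro ht
      have : z n (t + 1) = z n t + Pi.single ⟨t, ht⟩ (φ (n + 1) ⟨t, ht⟩ - φ n ⟨t, ht⟩) := by
        funext j
        by_cases e : j = ⟨t, ht⟩
        · subst e; simp [z]
        · have : j.1 ≠ t := fun e' => e (Fin.ext e')
          simp only [z, Pi.add_apply, Pi.single_eq_of_ne e, add_zero]
          exact if_congr (by omega) rfl rfl
      rw [this, h.tits_add, ih (by omega), h1 n ⟨t, ht⟩]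
      ring
  have h3 : ∀ n, tits α d (φ n) (φ n) = tits α d (φ 0) (φ 0) := fun n => by
    induction n with
    | zero => rfl
    | succ n ih =>
      rw [← ih, ← h2 n r le_rfl]
      have : z n r = φ (n + 1) := funext fun j => if_pos j.2
      rw [this]
  have h4 := h.tits_nonneg hξ (x := z n i + Pi.single i ((φ (n + 1) i - φ n i) / 2)) fun j e => by
    by_cases e' : j = i
    · subst e'; simp [z, h0 _ _ e]
    · simp [z, h0 _ _ e, Pi.single_eq_of_ne e']
  rw [h.tits_add, h1, h2 n i i.2.le, h3] at h4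
  have := h.pos i
  have h5 : (0 : ℝ) < d i := by positivity
  have h6 := mul_nonneg h4 h5.le
  field_simp at h6
  nlinarith

theorem Car.cut (h : Car α d) (hξ : Sub α ξ) {i j : Fin r} (hi : ξ i = 0) (hj : ξ j ≠ 0) :
    α i j = 0 ∧ α j i = 0 := by
  have h1 := hξ.le i
  rw [hi, mul_zero] at h1
  have h2 := (sum_eq_zero_iff_of_nonneg fun j _ => mul_nonneg (Nat.cast_nonneg _) (hξ.nn j)).1
    (le_antisymm h1 (sum_nonneg fun j _ => mul_nonneg (Nat.cast_nonneg _) (hξ.nn j))) j (mem_univ j)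
  have h3 : α i j = 0 := by simpa [hj] using h2
  have h4 := h.sym i j
  rw [h3, zero_mul] at h4
  exact ⟨h3, (mul_eq_zero.1 h4.symm).resolve_right (h.pos i).ne'⟩

variable (α ξ) in
/-- Additive functions with support in the support of `ξ`. -/
def sol : Submodule ℤ (ℕ → Fin r → ℤ) where
  carrier := {φ | (∀ n i, ξ i = 0 → φ n i = 0) ∧
    ∀ n i, φ n i + φ (n + 1) i = ms α (φ n) (φ (n + 1)) i}
  zero_mem' := ⟨fun _ _ _ => rfl, fun n i => by simp [ms]⟩
  add_mem' := by
    rintro φ ψ ⟨a, b⟩ ⟨a', b'⟩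
    refine ⟨fun n i e => by simp [a n i e, a' n i e], fun n i => ?_⟩
    rw [Pi.add_apply, Pi.add_apply, Pi.add_apply, Pi.add_apply, add_add_add_comm, b, b', ms, ms, ms,
      ← sum_add_distrib]
    exact sum_congr rfl fun j _ => by split_ifs <;> simp [mul_add]
  smul_mem' := by
    rintro c φ ⟨a, b⟩
    refine ⟨fun n i e => by simp [a n i e], fun n i => ?_⟩
    simp only [Pi.smul_apply, smul_eq_mul]
    rw [← mul_add, b, ms, ms, mul_sum]
    exact sum_congr rfl fun j _ => by split_ifs <;> simp [mul_left_comm]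

theorem Car.sol_zero (h : Car α d) {φ : ℕ → Fin r → ℤ} (hφ : φ ∈ sol α ξ) (h0 : φ 0 = 0) :
    φ = 0 := by
  funext n
  induction n with
  | zero => exact h0
  | succ n ih =>
    funext i
    induction i using WellFoundedLT.induction with
    | _ i hi =>
      have := hφ.2 n i
      rw [ih, ms, sum_eq_zero fun j _ => ?_] at this
      · simpa using this
      rcases lt_trichotomy i j with e | rfl | e
      · simp [e]
      · simp [h.diag]
      · simp [e.not_gt, hi j e]

theorem sol_shift {φ : ℕ → Fin r → ℤ} (hφ : φ ∈ sol α ξ) (k : ℕ) :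
    (fun n => φ (k + n)) ∈ sol α ξ := ⟨fun _ => hφ.1 _, fun _ => hφ.2 _⟩

theorem Car.period (h : Car α d) (hξ : Sub α ξ) : ∃ a N, 0 < N ∧ ∀ φ ∈ sol α ξ, ∀ n,
    φ (a + N + n + 1) - φ (a + N + n) = φ (a + n + 1) - φ (a + n) := by
  have : Module.Finite ℤ (sol α ξ) := Module.Finite.of_injective
    (LinearMap.proj 0 ∘ₗ (sol α ξ).subtype) ((injective_iff_map_eq_zero _).2 fun φ e =>
      Subtype.ext (h.sol_zero φ.2 e))
  obtain ⟨s, g, hg⟩ := Module.Finite.exists_fin (R := ℤ) (M := sol α ξ)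
  have hb : ∀ k i, ∃ B : ℤ, ∀ n, (g k).1 (n + 1) i - (g k).1 n i ∈ Set.Icc (-B) B := fun k i => by
    obtain ⟨B, hB⟩ := exists_nat_ge (2 * d i * tits α d (fun i => (g k).1 0 i) fun i => (g k).1 0 i)
    refine ⟨B, fun n => abs_le.1 ?_⟩
    have := (h.incr hξ (fun n i => (g k).1 n i) (fun n i e => by simp [(g k).2.1 n i e])
      (fun n i => by
        have := congrArg (Int.cast : ℤ → ℝ) ((g k).2.2 n i)
        simpa [ms, apply_ite (Int.cast : ℤ → ℝ)] using this) n i).trans hB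
    have h2 : ((g k).1 (n + 1) i - (g k).1 n i) ^ 2 ≤ B := by exact_mod_cast this
    rw [Int.abs_eq_natAbs]
    exact (Int.natAbs_le_self_sq _).trans h2
  choose B hB using hb
  obtain ⟨a, b, hab, e⟩ := Set.Finite.exists_lt_map_eq_of_forall_mem
    (f := fun n k i => (g k).1 (n + 1) i - (g k).1 n i)
    (t := {x | ∀ k, x k ∈ {y : Fin r → ℤ | ∀ i, y i ∈ Set.Icc (-B k i) (B k i)}})
    (fun n k i => hB k i n) (Set.Finite.pi' fun k => Set.Finite.pi' fun i => Set.finite_Icc _ _)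
  obtain ⟨N, rfl⟩ := Nat.exists_eq_add_of_le hab.le
  refine ⟨a, N, by omega, fun φ hφ n => ?_⟩
  have h1 : φ (a + N + 1) - φ (a + N) = φ (a + 1) - φ a := by
    have : (⟨φ, hφ⟩ : sol α ξ) ∈ Submodule.span ℤ (Set.range g) := hg ▸ Submodule.mem_top
    refine Submodule.span_induction (p := fun x _ => x.1 (a + N + 1) - x.1 (a + N) =
      x.1 (a + 1) - x.1 a) ?_ (by simp) (fun x y _ _ p q => ?_) (fun c x _ p => ?_) this
    · rintro _ ⟨k, rfl⟩
      exact (congrFun e k).symm
    · simp only [Submodule.coe_add, Pi.add_apply]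
      rw [add_sub_add_comm, p, q, add_sub_add_comm]
    · simp only [Submodule.coe_smul, Pi.smul_apply]
      rw [← smul_sub, p, smul_sub]
  have h2 := h.sol_zero (sub_mem (sub_mem (sol_shift hφ (a + N + 1)) (sol_shift hφ (a + N)))
    (sub_mem (sol_shift hφ (a + 1)) (sol_shift hφ a))) (sub_eq_zero.2 h1)
  have h3 := sub_eq_zero.1 (congrFun h2 n)
  simpa only [Pi.sub_apply, add_right_comm _ 1 n] using h3

open Classical in
theorem Car.linear (h : Car α d) (hξ : Sub α ξ) : ∃ N, 0 < N ∧ ∀ φ : ℕ → Fin r → ℤ,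
    (∀ᶠ n in atTop, ∀ i, φ n i + φ (n + 1) i = ms α (φ n) (φ (n + 1)) i) →
    ∃ ρ β : ℤ, ∀ᶠ n : ℕ in atTop, ∑ i : {i // ξ i ≠ 0}, φ (n * N) i = ρ * n + β := by
  obtain ⟨a, N, hN, h1⟩ := h.period hξ
  refine ⟨N, hN, fun φ hφ => ?_⟩
  obtain ⟨k, hk⟩ := eventually_atTop.1 hφ
  have h2 := h1 (fun n i => if ξ i = 0 then 0 else φ (k + n) i) ⟨fun n i e => if_pos e, fun n i => by
    beta_reduce
    by_cases e : ξ i = 0
    · rw [if_pos e, if_pos e, ms, sum_eq_zero fun j _ => ?_]
      · rfl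
      by_cases e' : ξ j = 0
      · simp [e']
      · simp [(h.cut hξ e e').1]
    · rw [if_neg e, if_neg e, ← add_assoc, hk _ (by omega), ms, ms]
      refine sum_congr rfl fun j _ => ?_
      by_cases e' : ξ j = 0
      · simp [(h.cut hξ e' e).2]
      · simp [e', add_assoc]⟩
  let S : ℕ → ℤ := fun n => ∑ i : {i // ξ i ≠ 0}, φ n i
  have h3 : ∀ n, S (k + a + n + N) - S (k + a + n) = S (k + a + N) - S (k + a) := fun n => by
    induction n with
    | zero => rfl
    | succ n ih =>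
      rw [← ih, sub_eq_sub_iff_sub_eq_sub]
      simp only [S, ← sum_sub_distrib]
      refine sum_congr rfl fun i _ => ?_
      have := congrFun (h2 n) i
      simp only [Pi.sub_apply, if_neg i.2] at this
      rw [show k + a + (n + 1) + N = k + (a + N + n + 1) by ring,
        show k + a + (n + 1) = k + (a + n + 1) by ring, show k + a + n + N = k + (a + N + n) by ring,
        add_assoc k a n]
      exact this
  refine ⟨S (k + a + N) - S (k + a), S ((k + a) * N) - (S (k + a + N) - S (k + a)) * (k + a : ℕ),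
    eventually_atTop.2 ⟨k + a, fun n hn => ?_⟩⟩
  induction n, hn using Nat.le_induction with
  | base => simp [S]
  | succ n hn ih =>
    obtain ⟨m, hm⟩ := Nat.exists_eq_add_of_le (hn.trans (Nat.le_mul_of_pos_right n hN))
    have := h3 m
    rw [← hm] at this
    change S _ = _ at ih ⊢
    rw [add_mul, one_mul]
    push_cast at ih ⊢
    linarith

end Pool.Agent.MP_bd94e8_al.H83
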