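import Pool.Agent.MP_bd94e8_al.H83.Mesh
import Pool.Agent.MP_bd94e8_al.H83.Num

/-!
The valuation of the meshes is eventually periodic and symmetrizable.
-/

set_option autoImplicit false
set_option linter.unusedSectionVars false

namespace Pool.Agent.MP_bd94e8_al.H83

open Module Function Finset

variable {C : Type} [CommRing C] [IsArtinianRing C] {A : Type} [Ring A] [Algebra C A]
  [Module.Finite C A]

section
variable {M X E Y : Type} [AddCommGroup M] [Module A M] [AddCommGroup X] [Module A X]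
  [AddCommGroup E] [Module A E] [AddCommGroup Y] [Module A Y] {f : X →ₗ[A] E} {g : E →ₗ[A] Y}

theorem exists_fac (hf : Injective f) (v : M →ₗ[A] E) (h : ∀ x, v x ∈ LinearMap.range f) :
    ∃ z : M →ₗ[A] X, f ∘ₗ z = v :=
  ⟨(LinearEquiv.ofInjective _ hf).symm.toLinearMap ∘ₗ v.codRestrict _ h, LinearMap.ext fun _ =>
    congrArg Subtype.val ((LinearEquiv.ofInjective _ hf).apply_symm_apply _)⟩

theorem AlmostSplit.lift (h : AlmostSplit f g) {v : M →ₗ[A] E} (e : g ∘ₗ v = 0) :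
    ∃ z : M →ₗ[A] X, f ∘ₗ z = v :=
  exists_fac h.inj v fun x => (h.exact _).1 (LinearMap.congr_fun e x)

theorem AlmostSplit.desc (h : AlmostSplit f g) {v : E →ₗ[A] M} (e : v ∘ₗ f = 0) :
    ∃ z : Y →ₗ[A] M, z ∘ₗ g = v :=
  exists_desc h.surj v fun x hx => by
    obtain ⟨y, rfl⟩ := (h.exact x).1 hx
    exact LinearMap.congr_fun e y

theorem AlmostSplit.comp (h : AlmostSplit f g) : g ∘ₗ f = 0 :=
  LinearMap.ext h.exact.apply_apply_eq_zero

theorem sum_single {ι : Type} [Fintype ι] [DecidableEq ι] {X : ι → Type} [∀ i, AddCommGroup (X i)]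
    [∀ i, Module A (X i)] (v : ∀ i, X i →ₗ[A] M) (i : ι) :
    (∑ j, v j ∘ₗ LinearMap.proj j) ∘ₗ LinearMap.single A X i = v i :=
  LinearMap.ext fun x => LinearMap.lsum_piSingle A X ℕ v i x

end

theorem len_quot_eq {R U Φ : Type} [Ring R] [AddCommGroup U] [Module R U] [AddCommGroup Φ]
    [Module R Φ] {W : Submodule R U} {W' : Submodule R Φ} (α : U →ₗ[R] Φ) (hs : Surjective α)
    (h : W ≤ W'.comap α) (h' : W' ≤ W.map α) (h0 : LinearMap.ker α ≤ W) :
    length R (Φ ⧸ W') = length R (U ⧸ W) :=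
  le_antisymm (len_quot_le α hs h) (len_quot_le' α fun x hx => by
    obtain ⟨y, hy, e⟩ := h' hx
    rw [← sub_add_cancel x y]
    exact W.add_mem (h0 (by rw [LinearMap.mem_ker, map_sub, e, sub_self])) hy)

theorem len_quot_pi {R ι : Type} [CommRing R] [Fintype ι] [DecidableEq ι] {U : ι → Type}
    [∀ i, AddCommGroup (U i)] [∀ i, Module R (U i)] (W : ∀ i, Submodule R (U i)) :
    length R ((∀ i, U i) ⧸ Submodule.pi Set.univ W) = ∑ i, length R (U i ⧸ W i) :=
  (Submodule.quotientPi W).length_eq.trans (length_pi_of_fintype ..)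

variable {r : ℕ} {Z : ℕ → Type} [∀ p, AddCommGroup (Z p)] [∀ p, Module A (Z p)]
  [∀ p, Module C (Z p)] [∀ p, IsScalarTower C A (Z p)] [∀ p, Module.Finite A (Z p)]
  [∀ p, IsLocalRing (End A (Z p))] (D : Msh A r Z)

variable (C A Z) in
/-- The length of the top of the endomorphism ring. -/
noncomputable def dd (q : ℕ) : ℕ := len C ((Z q →ₗ[A] Z q) ⧸ Rad A (Z q) (Z q) C)

variable (C A Z) in
/-- The square of the radical. -/
def Rad2 (q s : ℕ) : Submodule C (Z q →ₗ[A] Z s) := Submodule.span C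
  {u | ∃ t, ∃ v ∈ Rad A (Z q) (Z t) C, ∃ w ∈ Rad A (Z t) (Z s) C, w ∘ₗ v = u}

theorem dd_pos (q : ℕ) : 0 < dd C A Z q := by
  have : Nontrivial ((Z q →ₗ[A] Z q) ⧸ Rad A (Z q) (Z q) C) :=
    Submodule.Quotient.nontrivial_iff.2 fun e =>
      mem_rad.1 (e ▸ Submodule.mem_top (x := LinearMap.id)) ⟨LinearMap.id, rfl⟩
  exact len_pos

namespace Msh

/-- The number of arrows. -/
def ar (p q : ℕ) : ℕ := #{a | D.pos p a = q}

include D

theorem len_top (t s : ℕ) : length C ((Z t →ₗ[A] Z s) ⧸ Rad A (Z t) (Z s) C) =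
    if t = s then dd C A Z s else 0 := by
  split_ifs with h
  · subst h; exact len_cast.symm
  · have := Submodule.Quotient.subsingleton_iff.2 (top_unique fun u _ => D.rad_ne (C := C) h u)
    simp

theorem irr_left {q s : ℕ} (h1 : q ≠ s) (h2 : q + r ≠ s) :
    length C ((Z q →ₗ[A] Z s) ⧸ Rad2 C A Z q s) = (D.ar q s * dd C A Z s : ℕ) := by
  let α : (∀ a, Z (D.pos q a) →ₗ[A] Z s) →ₗ[C] (Z q →ₗ[A] Z s) :=
    ∑ a, pre C _ (D.fc q a) ∘ₗ LinearMap.proj a
  have hα : ∀ v, α v = ∑ a, v a ∘ₗ D.fc q a := fun v => by simp [α]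
  refine Eq.trans (b := _) (len_quot_eq (W := Submodule.pi Set.univ fun a => Rad A _ _ C) α
    (fun u => ?_) (fun v hv => ?_) (Submodule.span_le.2 ?_) fun v hv a _ => ?_) ?_
  rotate_right
  · rw [len_quot_pi]
    simp only [D.len_top, ar]
    norm_cast
    rw [← sum_filter, sum_const, smul_eq_mul]
  · obtain ⟨v, rfl⟩ := D.left u (mem_rad.1 (D.rad_ne (C := C) h1 u))
    exact ⟨v, hα v⟩
  · rw [Submodule.mem_comap, hα]
    exact Submodule.sum_mem _ fun a _ => Submodule.subset_span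
      ⟨_, _, D.rad_ne (D.lt q a).ne _, _, hv a trivial, rfl⟩
  · rintro _ ⟨t, v, hv, w, hw, rfl⟩
    obtain ⟨v, rfl⟩ := D.left v (mem_rad.1 hv)
    exact ⟨fun a => w ∘ₗ v a, fun a _ => D.rad_pre hw _, by rw [hα, comp_sum]; rfl⟩
  · obtain ⟨z, hz⟩ := (D.as q).desc (v := ∑ a, v a ∘ₗ LinearMap.proj a)
      (by rw [sum_comp]; exact (hα v).symm.trans hv)
    rw [← sum_single v a, ← hz]
    exact D.rad_pre (D.rad_ne h2 z) (D.gc q a)

theorem irr_right {q p : ℕ} (h1 : q ≠ p) (h2 : q ≠ p + r) :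
    length C ((Z q →ₗ[A] Z (p + r)) ⧸ Rad2 C A Z q (p + r)) = (D.ar p q * dd C A Z q : ℕ) := by
  let α : (∀ a, Z q →ₗ[A] Z (D.pos p a)) →ₗ[C] (Z q →ₗ[A] Z (p + r)) :=
    ∑ a, post C _ (D.gc p a) ∘ₗ LinearMap.proj a
  have hα : ∀ v, α v = ∑ a, D.gc p a ∘ₗ v a := fun v => by simp [α]
  refine Eq.trans (b := _) (len_quot_eq (W := Submodule.pi Set.univ fun a => Rad A _ _ C) α
    (fun u => ?_) (fun v hv => ?_) (Submodule.span_le.2 ?_) fun v hv a _ => ?_) ?_
  rotate_right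
  · rw [len_quot_pi]
    simp only [D.len_top, ar]
    norm_cast
    rw [sum_congr rfl fun a _ => show _ = if D.pos p a = q then dd C A Z q else 0 by
      by_cases h : D.pos p a = q
      · rw [if_pos h, if_pos h.symm, h]
      · rw [if_neg h, if_neg (Ne.symm h)], ← sum_filter, sum_const, smul_eq_mul]
  · obtain ⟨v, rfl⟩ := D.right u (D.nsect (D.rad_ne (C := C) h2 u))
    exact ⟨v, hα v⟩
  · rw [Submodule.mem_comap, hα]
    exact Submodule.sum_mem _ fun a _ => Submodule.subset_span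
      ⟨_, _, hv a trivial, _, D.rad_ne (D.gt p a).ne _, rfl⟩
  · rintro _ ⟨t, v, hv, w, hw, rfl⟩
    obtain ⟨w, rfl⟩ := D.right w (D.nsect hw)
    exact ⟨fun a => w a ∘ₗ v, fun a _ => rad_post hv _, by rw [hα, sum_comp]; rfl⟩
  · obtain ⟨z, hz⟩ := (D.as p).lift (v := LinearMap.pi v)
      (by rw [pi_sum (LinearMap.pi v), comp_sum]; exact (hα v).symm.trans hv)
    change LinearMap.proj a ∘ₗ LinearMap.pi v ∈ _
    rw [← hz]
    exact rad_post (D.rad_ne (C := C) h1 z) (D.fc p a)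

theorem ar_rel {p q : ℕ} (h1 : p < q) (h2 : q < p + r) :
    D.ar q (p + r) * dd C A Z (p + r) = D.ar p q * dd C A Z q := by
  have := (D.irr_left (C := C) h2.ne (by omega)).symm.trans (D.irr_right h1.ne' h2.ne)
  exact_mod_cast this

theorem dd_le (p : ℕ) : dd C A Z (p + r) ≤ dd C A Z p := by
  let E := ∀ a, Z (D.pos p a)
  let G : Submodule C ((Z p →ₗ[A] Z p) × (E →ₗ[A] E) × (Z (p + r) →ₗ[A] Z (p + r))) :=
    LinearMap.eqLocus (pre C E (D.f p) ∘ₗ LinearMap.fst _ _ _ ∘ₗ LinearMap.snd _ _ _)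
      (post C _ (D.f p) ∘ₗ LinearMap.fst _ _ _) ⊓
    LinearMap.eqLocus (post C E (D.g p) ∘ₗ LinearMap.fst _ _ _ ∘ₗ LinearMap.snd _ _ _)
      (pre C _ (D.g p) ∘ₗ LinearMap.snd _ _ _ ∘ₗ LinearMap.snd _ _ _)
  have hs : ∀ s : Z (p + r) →ₗ[A] E, ¬ IsUnit (D.g p ∘ₗ s) := fun s h =>
    (D.as p).nonsplit (exists_sect h)
  have := len_rel' (G := G) (LinearMap.snd _ _ _ ∘ₗ LinearMap.snd _ _ _ ∘ₗ G.subtype)
    (LinearMap.fst _ _ _ ∘ₗ G.subtype) (Rad A _ _ C) (Rad A _ _ C) (fun u => ?_) ?_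
  · rw [← len_cast, ← len_cast] at this
    exact_mod_cast this
  · obtain ⟨w, hw⟩ := (D.as p).right E (u ∘ₗ D.g p) fun ⟨s, e⟩ =>
      hs s (by
        have := (D.ind (p + r)).1
        exact (End.isUnit_iff _).2 ((D.ind _).bij (u := D.g p ∘ₗ s) e).1)
    obtain ⟨χ, hχ⟩ := (D.as p).lift (v := w ∘ₗ D.f p) (by
      rw [← LinearMap.comp_assoc, hw, LinearMap.comp_assoc, (D.as p).comp, LinearMap.comp_zero])
    exact ⟨⟨(χ, w, u), hχ.symm, hw⟩, rfl⟩
  · rintro ⟨⟨χ, w, u⟩, h1, h2⟩ h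
    change w ∘ₗ D.f p = D.f p ∘ₗ χ at h1
    change D.g p ∘ₗ w = u ∘ₗ D.g p at h2
    obtain ⟨χ', rfl⟩ := (D.as p).left _ χ (mem_rad.1 h)
    obtain ⟨s, e⟩ := (D.as p).desc (v := w - D.f p ∘ₗ χ') (by
      rw [LinearMap.sub_comp, h1, LinearMap.comp_assoc, sub_self])
    refine (mem_rad' (D.ind _)).2 fun hb => hs s ?_
    have : D.g p ∘ₗ s = u := (LinearMap.cancel_right (D.as p).surj).1 (by
      rw [LinearMap.comp_assoc, e, LinearMap.comp_sub, h2, ← LinearMap.comp_assoc, (D.as p).comp,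
        LinearMap.zero_comp, sub_zero])
    rw [this]
    exact (End.isUnit_iff _).2 hb

variable (C) in
theorem dd_per : ∃ c, ∀ p, c ≤ p → dd C A Z (p + r) = dd C A Z p := by
  let S : ℕ → ℕ := fun p => ∑ i ∈ range r, dd C A Z (p + i)
  have h : ∀ p, S (p + 1) + dd C A Z p = S p + dd C A Z (p + r) := fun p => by
    have h1 := sum_range_succ (fun i => dd C A Z (p + i)) r
    have h2 := sum_range_succ' (fun i => dd C A Z (p + i)) r
    simp only [S, add_assoc, add_comm 1]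
    exact h2.symm.trans h1
  obtain ⟨c, hc⟩ := WellFoundedLT.antitone_chain_condition (f := S)
    (antitone_nat_of_succ_le fun p => by have := h p; have := D.dd_le (C := C) p; omega)
  refine ⟨c, fun p hp => ?_⟩
  have := h p
  rw [← hc p hp, ← hc (p + 1) (by omega)] at this
  omega

omit [∀ p, Module.Finite A (Z p)] [∀ p, IsLocalRing (End A (Z p))] in
theorem ar_zero {p q : ℕ} (h : q ≤ p ∨ p + r ≤ q) : D.ar p q = 0 :=
  card_eq_zero.2 (filter_eq_empty_iff.2 fun a _ e => by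
    have := D.lt p a; have := D.gt p a; omega)

/-- The valuation of a section. -/
def al (c : ℕ) (i j : Fin r) : ℕ := D.ar (c + i) (if i < j then c + j else c + r + j)

variable {c : ℕ} (hc : ∀ p, c ≤ p → dd C A Z (p + r) = dd C A Z p)
include hc

theorem ar_per {p : ℕ} (hp : c ≤ p) (q n : ℕ) : D.ar (p + n * r) (q + n * r) = D.ar p q := by
  induction n with
  | zero => simp
  | succ n ih =>
  rw [← ih, add_one_mul, ← add_assoc, ← add_assoc]
  generalize hp' : p + n * r = p'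
  generalize q + n * r = q'
  by_cases h : q' ≤ p' ∨ p' + r ≤ q'
  · rw [D.ar_zero h, D.ar_zero (by omega)]
  have h1 := D.ar_rel (C := C) (p := p') (q := q') (by omega) (by omega)
  have h2 := D.ar_rel (C := C) (p := q') (q := p' + r) (by omega) (by omega)
  rw [hc q' (by omega), h1] at h2
  exact Nat.eq_of_mul_eq_mul_right (dd_pos _) h2

theorem car : Car (D.al c) fun i => dd C A Z (c + i) := by
  have h : ∀ i j : Fin r, i < j → D.al c i j * dd C A Z (c + j) = D.al c j i * dd C A Z (c + i) :=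
    fun i j h => by
      rw [al, al, if_pos h, if_neg h.not_gt, ← D.ar_rel (by omega) (by omega), hc _ (by omega),
        add_right_comm]
  refine ⟨fun i => dd_pos _, fun i => ?_, fun i j => ?_⟩
  · rw [al, if_neg (lt_irrefl i), D.ar_zero (by omega)]
  · rcases lt_trichotomy i j with e | rfl | e
    exacts [h i j e, rfl, (h j i e).symm]

theorem sum_pos {R : Type} [CommRing R] (φ : ℕ → R) (n : ℕ) (i : Fin r) :
    ∑ a, φ (D.pos (c + n * r + i) a) =
      ms (D.al c) (fun j => φ (c + n * r + j)) (fun j => φ (c + (n + 1) * r + j)) i := by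
  let Q : Fin r → ℕ := fun j => (if i < j then c + j else c + r + j) + n * r
  have h : ∀ a, ∃ j, D.pos (c + n * r + i) a = Q j ∧ ∀ j', j' ≠ j → D.pos _ a ≠ Q j' := fun a => by
    have := D.lt _ a
    have := D.gt _ a
    by_cases h : D.pos _ a < c + n * r + r
    · refine ⟨⟨D.pos _ a - (c + n * r), by omega⟩, ?_, fun j' h => ?_⟩ <;>
        simp only [Q, Fin.lt_def, Ne, Fin.ext_iff] at * <;> split_ifs <;> omega
    · refine ⟨⟨D.pos _ a - (c + n * r + r), by omega⟩, ?_, fun j' h => ?_⟩ <;>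
        simp only [Q, Fin.lt_def, Ne, Fin.ext_iff] at * <;> split_ifs <;> omega
  trans ∑ a, ∑ j, if D.pos (c + n * r + i) a = Q j then φ (Q j) else 0
  · refine sum_congr rfl fun a _ => ?_
    obtain ⟨j, h1, h2⟩ := h a
    rw [sum_eq_single j (fun j' _ h => if_neg (h2 j' h)) (by simp), if_pos h1, h1]
  rw [sum_comm]
  refine sum_congr rfl fun j _ => ?_
  rw [← sum_filter, sum_const, nsmul_eq_mul, al, ← D.ar_per hc (by omega) _ n, add_right_comm c i]
  congr 1
  simp only [Q]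
  split_ifs <;> congr 1 <;> ring

theorem n_le : ∃ m, ∀ p, c ≤ p → D.n p ≤ m := by
  refine ⟨∑ i, ∑ j, D.al c i j, fun p hp => ?_⟩
  obtain ⟨n, i, rfl⟩ : ∃ (n : ℕ) (i : Fin r), p = c + n * r + i :=
    ⟨(p - c) / r, ⟨(p - c) % r, Nat.mod_lt _ D.hr⟩, by
      have := Nat.div_add_mod' (p - c) r
      simp only; omega⟩
  have := D.sum_pos hc (fun _ => (1 : ℤ)) n i
  simp only [ms, sum_const, card_univ, Fintype.card_fin, ite_self, mul_one, nsmul_eq_mul] at this
  norm_cast at this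
  rw [this]
  exact single_le_sum (f := fun i => ∑ j, D.al c i j) (fun _ _ => Nat.zero_le _) (mem_univ i)

end Msh

end Pool.Agent.MP_bd94e8_al.H83
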