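import Pool.Agent.MP_bd94e8_al.H83.Len

/-!
Subgroups of finite definition, pure quotients, and modules of finite endolength.
-/

set_option autoImplicit false

namespace Pool.Agent.MP_bd94e8_al.H83

open Module Function

variable {A : Type} [Ring A] {M : Type} [AddCommGroup M] [Module A M]

variable (A M) in
/-- The values at `c₀` of the maps that kill all `c j`. -/
def ppz {C ι : Type} [AddCommGroup C] [Module A C] (c : ι → C) (c₀ : C) :
    Submodule (End A M) M where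
  carrier := {x | ∃ v : C →ₗ[A] M, (∀ j, v (c j) = 0) ∧ v c₀ = x}
  add_mem' := by
    rintro _ _ ⟨v, hv, rfl⟩ ⟨w, hw, rfl⟩
    exact ⟨v + w, fun j => by simp [hv j, hw j], rfl⟩
  zero_mem' := ⟨0, fun _ => rfl, rfl⟩
  smul_mem' := by
    rintro e _ ⟨v, hv, rfl⟩
    exact ⟨e ∘ₗ v, fun j => by simp [hv j], rfl⟩

variable (A M) in
/-- The values at `c`. -/
def pp {C : Type} [AddCommGroup C] [Module A C] (c : C) : Submodule (End A M) M where
  carrier := {x | ∃ v : C →ₗ[A] M, v c = x}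
  add_mem' := by
    rintro _ _ ⟨v, rfl⟩ ⟨w, rfl⟩
    exact ⟨v + w, rfl⟩
  zero_mem' := ⟨0, rfl⟩
  smul_mem' := by
    rintro e _ ⟨v, rfl⟩
    exact ⟨e ∘ₗ v, rfl⟩

/-- Subgroups of finite definition. -/
def IsPP (W : Submodule (End A M) M) : Prop :=
  ∃ (C : Type) (_ : AddCommGroup C) (_ : Module A C) (_ : Module.Finite A C) (c : C), W = pp A M c

theorem isPP_ppz {C ι : Type} [AddCommGroup C] [Module A C] [Module.Finite A C] (c : ι → C)
    (c₀ : C) : IsPP (ppz A M c c₀) := by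
  refine ⟨C ⧸ Submodule.span A (Set.range c), inferInstance, inferInstance, inferInstance,
    Submodule.mkQ _ c₀, le_antisymm ?_ ?_⟩
  · rintro _ ⟨v, hv, rfl⟩
    exact ⟨Submodule.liftQ _ v (Submodule.span_le.2 (by rintro _ ⟨j, rfl⟩; exact hv j)), rfl⟩
  · rintro _ ⟨v, rfl⟩
    refine ⟨v ∘ₗ Submodule.mkQ _, fun j => ?_, rfl⟩
    rw [LinearMap.comp_apply, Submodule.mkQ_apply,
      (Submodule.Quotient.mk_eq_zero _).2 (Submodule.subset_span (Set.mem_range_self j)), map_zero]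

theorem pp_prod {C C' : Type} [AddCommGroup C] [Module A C] [AddCommGroup C'] [Module A C']
    (c : C) (c' : C') : pp A M (c, c') = pp A M c ⊔ pp A M c' := by
  refine le_antisymm ?_ (sup_le ?_ ?_)
  · rintro _ ⟨v, rfl⟩
    rw [show (c, c') = LinearMap.inl A C C' c + LinearMap.inr A C C' c' by simp, map_add]
    exact Submodule.add_mem_sup ⟨v ∘ₗ _, rfl⟩ ⟨v ∘ₗ _, rfl⟩
  · rintro _ ⟨v, rfl⟩
    exact ⟨v ∘ₗ LinearMap.fst A C C', rfl⟩
  · rintro _ ⟨v, rfl⟩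
    exact ⟨v ∘ₗ LinearMap.snd A C C', rfl⟩

theorem IsPP.sup {W W' : Submodule (End A M) M} (h : IsPP W) (h' : IsPP W') : IsPP (W ⊔ W') := by
  obtain ⟨C, _, _, _, c, rfl⟩ := h
  obtain ⟨C', _, _, _, c', rfl⟩ := h'
  exact ⟨C × C', inferInstance, inferInstance, inferInstance, (c, c'), (pp_prod c c').symm⟩

theorem IsPP.inf {W W' : Submodule (End A M) M} (h : IsPP W) (h' : IsPP W') : IsPP (W ⊓ W') := by
  obtain ⟨C, _, _, _, c, rfl⟩ := h
  obtain ⟨C', _, _, _, c', rfl⟩ := h'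
  convert isPP_ppz (M := M) (A := A) (fun _ : Unit => (c, -c')) (c, 0)
  refine le_antisymm ?_ ?_
  · rintro x ⟨⟨v, hv⟩, w, hw⟩
    exact ⟨v.coprod w, fun _ => by simp [hv, hw], by simp [hv]⟩
  · rintro _ ⟨v, hv, rfl⟩
    refine ⟨⟨v ∘ₗ LinearMap.inl A C C', rfl⟩, v ∘ₗ LinearMap.inr A C C', ?_⟩
    have := hv ()
    rw [show (c, -c') = (c, 0) - (0, c') by simp, map_sub, sub_eq_zero] at this
    exact this.symm

theorem isPP_top : IsPP (⊤ : Submodule (End A M) M) :=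
  ⟨A, inferInstance, inferInstance, inferInstance, 1, top_unique
    (fun x _ => ⟨LinearMap.toSpanSingleton A M x, by simp⟩) |>.symm⟩

theorem isPP_bot : IsPP (⊥ : Submodule (End A M) M) :=
  ⟨A, inferInstance, inferInstance, inferInstance, 0, bot_unique
    (by rintro _ ⟨v, rfl⟩; simp) |>.symm⟩

variable (A M) in
/-- Chains of subgroups of finite definition have bounded length. -/
def Bdd : Prop :=
  ∃ (lam : Submodule (End A M) M → ℕ) (B : ℕ), (∀ W, IsPP W → lam W ≤ B) ∧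
    ∀ W W', IsPP W → IsPP W' → W < W' → lam W < lam W'

variable (A M) in
/-- A finite system of linear equations with a solution. -/
structure Dat where
  C : Type
  [acg : AddCommGroup C]
  [mod : Module A C]
  [fin : Module.Finite A C]
  u : C →ₗ[A] M
  ι : Type
  [fι : Finite ι]
  c : ι → C
  y : ι → M

attribute [instance] Dat.acg Dat.mod Dat.fin Dat.fι

/-- The system has its parameters in `Γ`. -/
def Dat.In (σ : Dat A M) (Γ : Submodule A (M × M)) : Prop := ∀ j, (σ.u (σ.c j), σ.y j) ∈ Γ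

/-- A solution of the transported system. -/
def Dat.Sol (σ : Dat A M) (v : σ.C →ₗ[A] M) : Prop := ∀ j, v (σ.c j) = σ.y j

/-- `Γ` preserves solvability of finite systems. -/
def Pres (Γ : Submodule A (M × M)) : Prop := ∀ σ : Dat A M, σ.In Γ → ∃ v, σ.Sol v

theorem pres_step {Γ : Submodule A (M × M)} {x y : M}
    (h : ∀ (σ : Dat A M) (c₀ : σ.C), σ.In Γ → σ.u c₀ = x → ∃ v, σ.Sol v ∧ v c₀ = y) :
    Pres (Γ ⊔ Submodule.span A {(x, y)}) := by
  intro σ hσ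
  have : ∀ j, ∃ a : A, (σ.u (σ.c j) - a • x, σ.y j - a • y) ∈ Γ := fun j => by
    obtain ⟨g, hg, z, hz, e⟩ := Submodule.mem_sup.1 (hσ j)
    obtain ⟨a, rfl⟩ := Submodule.mem_span_singleton.1 hz
    refine ⟨a, ?_⟩
    rw [← eq_sub_iff_add_eq] at e
    rw [e] at hg
    exact hg
  choose a ha using this
  obtain ⟨v, hv, hy⟩ := h ⟨σ.C × A, σ.u.coprod (LinearMap.toSpanSingleton A M x), σ.ι,
    fun j => (σ.c j, -a j), fun j => σ.y j - a j • y⟩ (0, 1)
    (fun j => by simpa [sub_eq_add_neg] using ha j) (by simp)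
  refine ⟨v ∘ₗ LinearMap.inl A _ _, fun j => ?_⟩
  have h1 : v (σ.c j, -a j) = σ.y j - a j • y := hv j
  have h2 : v (0, 1) = y := hy
  rw [show (σ.c j, -a j) = (σ.c j, 0) - a j • (0, 1) by simp, map_sub, map_smul, h2,
    sub_left_inj] at h1
  exact h1

theorem pres_ext (hB : Bdd A M) {Γ : Submodule A (M × M)} (hΓ : Pres Γ) (x : M) :
    ∃ y, Pres (Γ ⊔ Submodule.span A {(x, y)}) := by
  classical
  obtain ⟨lam, B, -, hl⟩ := hB
  have hne : ∃ n, ∃ (σ : Dat A M) (c₀ : σ.C), σ.In Γ ∧ σ.u c₀ = x ∧ lam (ppz A M σ.c c₀) = n :=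
    ⟨_, ⟨A, LinearMap.toSpanSingleton A M x, Empty, Empty.elim, Empty.elim⟩, (1 : A),
      fun j => j.elim, by simp, rfl⟩
  obtain ⟨σ₀, c₀, h0, hx0, hm⟩ := Nat.find_spec hne
  obtain ⟨v₀, hv₀⟩ := hΓ σ₀ h0
  refine ⟨v₀ c₀, pres_step fun σ c hσ hx => ?_⟩
  let τ : Dat A M := ⟨σ₀.C × σ.C, σ₀.u.coprod σ.u, σ₀.ι ⊕ σ.ι ⊕ Unit,
    Sum.elim (fun j => (σ₀.c j, 0)) (Sum.elim (fun j => (0, σ.c j)) fun _ => (c₀, -c)),
    Sum.elim σ₀.y (Sum.elim σ.y fun _ => 0)⟩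
  have hτ : τ.In Γ := by
    rintro (j | j | j)
    · simpa [τ] using h0 j
    · simpa [τ] using hσ j
    · simp only [τ, Sum.elim_inr, LinearMap.coprod_apply, map_neg, hx0, hx, add_neg_cancel]
      exact Γ.zero_mem
  have hle : ppz A M τ.c (c₀, 0) ≤ ppz A M σ₀.c c₀ := by
    rintro _ ⟨v, hv, rfl⟩
    exact ⟨v ∘ₗ LinearMap.inl A _ _, fun j => hv (Sum.inl j), rfl⟩
  have heq : ppz A M τ.c (c₀, 0) = ppz A M σ₀.c c₀ := by
    by_contra hn
    have h1 := hl _ _ (isPP_ppz _ _) (isPP_ppz _ _) (lt_of_le_of_ne hle hn)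
    rw [hm] at h1
    exact Nat.find_min hne h1 ⟨τ, (c₀, 0), hτ, by simp [τ, hx0], rfl⟩
  obtain ⟨v, hv⟩ := hΓ τ hτ
  have h2 : v₀ c₀ - v (c₀, 0) ∈ ppz A M τ.c (c₀, 0) := by
    rw [heq]
    exact ⟨v₀ - v ∘ₗ LinearMap.inl A _ _, fun j => sub_eq_zero.2
      ((hv₀ j).trans (hv (Sum.inl j)).symm), rfl⟩
  obtain ⟨w, hw, hw0⟩ := h2
  refine ⟨(v + w) ∘ₗ LinearMap.inr A _ _, fun j => ?_, ?_⟩
  · have h3 : v (0, σ.c j) = σ.y j := hv (Sum.inr (Sum.inl j))
    have h4 : w (0, σ.c j) = 0 := hw (Sum.inr (Sum.inl j))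
    change v (0, σ.c j) + w (0, σ.c j) = _
    rw [h3, h4, add_zero]
  · have h3 : v (c₀, -c) = 0 := hv (Sum.inr (Sum.inr ()))
    have h4 : w (c₀, -c) = 0 := hw (Sum.inr (Sum.inr ()))
    have e : ((c₀, -c) : σ₀.C × σ.C) = (c₀, 0) - (0, c) := by simp
    rw [e, map_sub, sub_eq_zero] at h3 h4
    change v (0, c) + w (0, c) = _
    rw [← h3, ← h4, hw0, add_sub_cancel]

theorem exists_end (hB : Bdd A M) {x y : M}
    (h : ∀ W : Submodule (End A M) M, IsPP W → x ∈ W → y ∈ W) :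
    ∃ e : End A M, e x = y := by
  have h0 : Pres (⊥ ⊔ Submodule.span A {(x, y)}) := pres_step fun σ c hσ hx => by
    have h1 : ∀ j, σ.u (σ.c j) = 0 ∧ σ.y j = 0 := fun j => by simpa using hσ j
    obtain ⟨v, hv, e⟩ := h _ (isPP_ppz σ.c c) ⟨σ.u, fun j => (h1 j).1, hx⟩
    exact ⟨v, fun j => (hv j).trans (h1 j).2.symm, e⟩
  obtain ⟨Γ, hle, hΓ⟩ := zorn_le_nonempty₀ {Γ : Submodule A (M × M) | Pres Γ} (by
    intro s hs hc Γ₀ h₀
    refine ⟨sSup s, fun σ hσ => ?_, fun z hz => le_sSup hz⟩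
    have : ∀ j, ∃ Γ : s, (σ.u (σ.c j), σ.y j) ∈ Γ.1 := fun j => by
      obtain ⟨Γ, h1, h2⟩ := (Submodule.mem_sSup_of_directed ⟨_, h₀⟩ hc.directedOn).1 (hσ j)
      exact ⟨⟨Γ, h1⟩, h2⟩
    choose g hg using this
    have : Nonempty s := ⟨⟨_, h₀⟩⟩
    obtain ⟨z, hz⟩ := (directedOn_iff_directed.1 hc.directedOn).finite_le g
    exact hs z.2 σ fun j => hz j (hg j)) _ h0
  have hs : ∀ z, ∃ w, (z, w) ∈ Γ := fun z => by
    obtain ⟨w, hw⟩ := pres_ext hB hΓ.prop z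
    exact ⟨w, hΓ.le_of_ge hw le_sup_left (Submodule.mem_sup_right (Submodule.subset_span rfl))⟩
  have hz : ∀ w, (0, w) ∈ Γ → w = 0 := fun w hw => by
    obtain ⟨v, hv⟩ := hΓ.prop ⟨A, 0, Unit, fun _ => 0, fun _ => w⟩ fun _ => hw
    exact (hv ()).symm.trans (map_zero v)
  have hu : ∀ z w w', (z, w) ∈ Γ → (z, w') ∈ Γ → w = w' := fun z w w' h1 h2 =>
    sub_eq_zero.1 (hz _ (by simpa using Γ.sub_mem h1 h2))
  choose e he using hs
  refine ⟨⟨⟨e, fun a b => hu _ _ _ (he _) (Γ.add_mem (he a) (he b))⟩,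
    fun a b => hu _ _ _ (he _) (Γ.smul_mem a (he b))⟩, hu _ _ _ (he x) (hle ?_)⟩
  exact Submodule.mem_sup_right (Submodule.subset_span rfl)

theorem Bdd.isPP (hB : Bdd A M) (U : Submodule (End A M) M) : IsPP U := by
  classical
  obtain ⟨lam, B, hb, hl⟩ := id hB
  have h1 : ∀ x ∈ U, ∃ W, IsPP W ∧ x ∈ W ∧ W ≤ U := fun x hx => by
    have hne : ∃ n, ∃ W, IsPP W ∧ x ∈ W ∧ lam W = n := ⟨_, ⊤, isPP_top, trivial, rfl⟩
    obtain ⟨W, hW, hxW, hm⟩ := Nat.find_spec hne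
    refine ⟨W, hW, hxW, fun y hy => ?_⟩
    obtain ⟨e, rfl⟩ := exists_end hB (x := x) (y := y) fun W' hW' hx' => by
      by_contra hn
      have := hl _ _ (hW.inf hW') hW (lt_of_le_of_ne inf_le_left fun e => hn (by
        rw [← e] at hy; exact hy.2))
      rw [hm] at this
      exact Nat.find_min hne this ⟨_, hW.inf hW', ⟨hxW, hx'⟩, rfl⟩
    exact U.smul_mem e hx
  have hne : ∃ n, ∃ W, IsPP W ∧ W ≤ U ∧ B - lam W = n := ⟨_, ⊥, isPP_bot, bot_le, rfl⟩
  obtain ⟨W, hW, hWU, hm⟩ := Nat.find_spec hne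
  suffices U = W from this ▸ hW
  refine le_antisymm (fun x hx => ?_) hWU
  by_contra hn
  obtain ⟨W', hW', hx', hle⟩ := h1 x hx
  have h2 := hl _ _ hW (hW.sup hW') (lt_of_le_of_ne le_sup_left fun e => hn (by
    rw [e]; exact Submodule.mem_sup_right hx'))
  have h3 := hb _ (hW.sup hW')
  exact Nat.find_min hne (show B - lam (W ⊔ W') < _ by omega)
    ⟨_, hW.sup hW', sup_le hWU hle, rfl⟩

theorem Bdd.fin (hB : Bdd A M) : IsNoetherian (End A M) M ∧ IsArtinian (End A M) M := by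
  obtain ⟨lam, B, hb, hl⟩ := id hB
  have h1 : StrictMono lam := fun W W' h => hl _ _ (hB.isPP _) (hB.isPP _) h
  have h2 : StrictAnti fun W => B - lam W := fun W W' h => by
    have := h1 h
    have := hb _ (hB.isPP W')
    change B - lam W' < B - lam W
    omega
  exact ⟨isNoetherian_iff'.2 h2.wellFoundedGT, h1.wellFoundedLT⟩

section
variable {M' M'' : Type} [AddCommGroup M'] [Module A M'] [AddCommGroup M''] [Module A M'']

/-- Pure epimorphisms: maps from finitely generated modules lift. -/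
def Pure (π : M →ₗ[A] M') : Prop :=
  ∀ (C : Type) [AddCommGroup C] [Module A C] [Module.Finite A C] (u : C →ₗ[A] M'),
    ∃ v, π ∘ₗ v = u

theorem Bdd.pure (hB : Bdd A M) {π : M →ₗ[A] M'} (hπ : Pure π) : Bdd A M' := by
  obtain ⟨lam, B, hb, hl⟩ := hB
  let S : Submodule (End A M') M' → Set ℕ := fun W =>
    {n | ∃ V, IsPP V ∧ (∀ x ∈ V, π x ∈ W) ∧ lam V = n}
  have hS : ∀ W, BddAbove (S W) := fun W => ⟨B, by rintro _ ⟨V, hV, -, rfl⟩; exact hb V hV⟩
  have hn : ∀ W, (S W).Nonempty := fun W => ⟨_, ⊥, isPP_bot, by simp, rfl⟩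
  refine ⟨fun W => sSup (S W), B, fun W _ => csSup_le (hn W) ?_, fun W W' _ hW' h => ?_⟩
  · rintro _ ⟨V, hV, -, rfl⟩; exact hb V hV
  obtain ⟨V, hV, hVW, e⟩ := Nat.sSup_mem (hn W) (hS W)
  obtain ⟨C, _, _, _, c, rfl⟩ := hW'
  have hp : IsPP (pp A M c) := ⟨C, inferInstance, inferInstance, inferInstance, c, rfl⟩
  change sSup (S W) < sSup (S _)
  rw [← e]
  refine (hl _ _ hV (hV.sup hp) (lt_of_le_of_ne le_sup_left fun e' => h.not_ge ?_)).trans_le
    (le_csSup (hS _) ⟨_, hV.sup hp, fun x hx => ?_, rfl⟩)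
  · rintro _ ⟨u, rfl⟩
    obtain ⟨v, rfl⟩ := hπ C u
    exact hVW _ (by rw [e']; exact Submodule.mem_sup_right ⟨v, rfl⟩)
  · obtain ⟨a, ha, _, ⟨v, rfl⟩, rfl⟩ := Submodule.mem_sup.1 hx
    rw [map_add]
    exact add_mem (h.le (hVW a ha)) ⟨π ∘ₗ v, rfl⟩

end

/-- A finite presentation. -/
theorem exists_pres [IsNoetherianRing A] (C : Type) [AddCommGroup C] [Module A C]
    [Module.Finite A C] : ∃ (n m : ℕ) (ρ : (Fin n → A) →ₗ[A] C) (k : Fin m → Fin n → A),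
      Surjective ρ ∧ Submodule.span A (Set.range k) = LinearMap.ker ρ := by
  obtain ⟨n, ρ, hρ⟩ := Module.Finite.exists_fin' A C
  obtain ⟨m, k, hk⟩ := Submodule.fg_iff_exists_fin_generating_family.1
    (IsNoetherian.noetherian (LinearMap.ker ρ))
  exact ⟨n, m, ρ, k, hρ, hk⟩

theorem exists_desc {P C N : Type} [AddCommGroup P] [Module A P] [AddCommGroup C] [Module A C]
    [AddCommGroup N] [Module A N] {ρ : P →ₗ[A] C} (hρ : Surjective ρ) (b : P →ₗ[A] N)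
    (h : LinearMap.ker ρ ≤ LinearMap.ker b) : ∃ u : C →ₗ[A] N, u ∘ₗ ρ = b :=
  ⟨(LinearMap.ker ρ).liftQ b h ∘ₗ (ρ.quotKerEquivOfSurjective hρ).symm.toLinearMap, by
    ext x; simp⟩

theorem exists_indec_pure [IsNoetherianRing A] [Nontrivial M] :
    ∃ Q : Submodule A M, Pure Q.mkQ ∧ Indec A (M ⧸ Q) := by
  obtain ⟨x, hx⟩ := exists_ne (0 : M)
  obtain ⟨Q, -, hQ⟩ := zorn_le_nonempty₀ {Q : Submodule A M | Pure Q.mkQ ∧ x ∉ Q} (by
    intro s hs hc Q₀ h₀
    have hmem := fun z => Submodule.mem_sSup_of_directed (z := z) ⟨_, h₀⟩ hc.directedOn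
    refine ⟨sSup s, ⟨fun C _ _ _ u => ?_, fun h => ?_⟩, fun z hz => le_sSup hz⟩
    · obtain ⟨n, m, ρ, k, hρ, hk⟩ := exists_pres (A := A) C
      obtain ⟨b, hb⟩ := Module.projective_lifting_property _ (u ∘ₗ ρ) (sSup s).mkQ_surjective
      have : ∀ j, ∃ Q : s, b (k j) ∈ Q.1 := fun j => by
        have h1 : ρ (k j) = 0 := by
          rw [← LinearMap.mem_ker, ← hk]; exact Submodule.subset_span ⟨j, rfl⟩
        have h2 := LinearMap.congr_fun hb (k j)
        simp only [LinearMap.comp_apply, h1, map_zero, Submodule.mkQ_apply,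
          Submodule.Quotient.mk_eq_zero] at h2
        obtain ⟨Q, h3, h4⟩ := (hmem _).1 h2
        exact ⟨⟨Q, h3⟩, h4⟩
      choose g hg using this
      have : Nonempty s := ⟨⟨_, h₀⟩⟩
      obtain ⟨z, hz⟩ := (directedOn_iff_directed.1 hc.directedOn).finite_le g
      obtain ⟨u₀, hu₀⟩ := exists_desc hρ (z.1.mkQ ∘ₗ b) (by
        rw [← hk, Submodule.span_le]
        rintro _ ⟨j, rfl⟩
        exact (Submodule.Quotient.mk_eq_zero _).2 (hz j (hg j)))
      obtain ⟨v, hv⟩ := (hs z.2).1 C u₀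
      refine ⟨v, LinearMap.ext fun y => ?_⟩
      obtain ⟨y, rfl⟩ := hρ y
      have h5 : z.1.mkQ (v (ρ y)) = z.1.mkQ (b y) := by
        rw [← LinearMap.comp_apply, hv, ← LinearMap.comp_apply, hu₀]; rfl
      have h6 : (sSup s).mkQ (b y) = u (ρ y) := LinearMap.congr_fun hb y
      rw [LinearMap.comp_apply, ← h6]
      exact (Submodule.Quotient.eq _).2 (le_sSup z.2 ((Submodule.Quotient.eq _).1 h5))
    · obtain ⟨Q, h1, h2⟩ := (hmem x).1 h
      exact (hs h1).2 h2) ⊥ ⟨fun C _ _ _ u =>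
        ⟨(Submodule.quotEquivOfEqBot _ rfl).toLinearMap ∘ₗ u, LinearMap.ext fun y => by
          obtain ⟨z, hz⟩ := Submodule.mkQ_surjective _ (u y)
          simp [← hz]⟩, by simpa using hx⟩
  have hx' : Q.mkQ x ≠ 0 := fun h => hQ.prop.2 ((Submodule.Quotient.mk_eq_zero _).1 h)
  have key : ∀ P P' : Submodule A (M ⧸ Q), IsCompl P P' → Q.mkQ x ∉ P → P = ⊥ := by
    intro P P' h hP
    have hle : Q ≤ P.comap Q.mkQ := fun y hy => by
      simp [(Submodule.Quotient.mk_eq_zero _).2 hy]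
    have h1 : P.comap Q.mkQ ≤ Q := hQ.le_of_ge ⟨fun C _ _ _ u => by
      let e : (M ⧸ Q) →ₗ[A] M ⧸ Q := P'.projection P h.symm
      obtain ⟨s, hs⟩ := exists_desc (P.comap Q.mkQ).mkQ_surjective (e ∘ₗ Q.mkQ) (by
        intro y hy
        have hy' : Q.mkQ y ∈ P := by simpa using hy
        exact (Submodule.projection_apply_eq_zero_iff h.symm).2 hy')
      obtain ⟨v, hv⟩ := hQ.prop.1 C (s ∘ₗ u)
      refine ⟨v, LinearMap.ext fun y => ?_⟩
      obtain ⟨z, hz⟩ := Submodule.mkQ_surjective _ (u y)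
      have h2 : Q.mkQ (v y) = e (Q.mkQ z) := by
        rw [← LinearMap.comp_apply, hv, LinearMap.comp_apply, ← hz, ← LinearMap.comp_apply, hs]
        rfl
      rw [← hz]
      refine (Submodule.Quotient.eq _).2 ?_
      change Q.mkQ (v y - z) ∈ P
      rw [map_sub, h2]
      have h3 := Submodule.projection_add_projection_eq_self h (Q.mkQ z)
      rw [show e (Q.mkQ z) - Q.mkQ z = - P.projection P' h (Q.mkQ z) by
        rw [sub_eq_iff_eq_add, eq_neg_add_iff_add_eq]; exact h3]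
      exact P.neg_mem (Submodule.projection_apply_mem h _), hP⟩ hle
    rw [eq_bot_iff]
    intro y hy
    obtain ⟨y, rfl⟩ := Q.mkQ_surjective y
    exact (Submodule.Quotient.mk_eq_zero _).2 (h1 hy)
  refine ⟨Q, hQ.prop.1, ⟨_, _, hx'⟩, fun P P' h => ?_⟩
  by_cases hP : Q.mkQ x ∈ P
  · refine Or.inr (key _ _ h.symm fun hP' => hx' ?_)
    exact (Submodule.disjoint_def.1 h.disjoint) _ hP hP'
  · exact Or.inl (key _ _ h hP)

/-- Without generic modules, a nonzero module with bounded chains has a finitely generated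
indecomposable direct summand. -/
theorem exists_summand [IsNoetherianRing A] [Nontrivial M] (hB : Bdd A M) (hG : ¬ HasGeneric A) :
    ∃ (G : Type) (_ : AddCommGroup G) (_ : Module A G) (_ : Module.Finite A G) (ι : G →ₗ[A] M)
      (p : M →ₗ[A] G), Indec A G ∧ p ∘ₗ ι = LinearMap.id := by
  obtain ⟨Q, hQ, hI⟩ := exists_indec_pure (A := A) (M := M)
  have hf : Module.Finite A (M ⧸ Q) := by
    by_contra h
    exact hG ⟨M ⧸ Q, inferInstance, inferInstance, hI, h, (hB.pure hQ).fin⟩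
  obtain ⟨v, hv⟩ := hQ _ LinearMap.id
  exact ⟨M ⧸ Q, inferInstance, inferInstance, hf, v, Q.mkQ, hI, hv⟩

end Pool.Agent.MP_bd94e8_al.H83
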