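import Mathlib

/-!
An integral quadratic form that is nonnegative on a rational cone and has a real zero there has
an integral zero there.
-/

set_option autoImplicit false

namespace Pool.Agent.MP_bd94e8_al.H83

open Finset Filter Topology

variable {ι R : Type} [Fintype ι] [CommRing R]

/-- An integral linear form. -/
def dt (u : ι → ℤ) (y : ι → R) : R := ∑ i, u i * y i

/-- An integral bilinear form. -/
def bf (c : ι → ι → ℤ) (x y : ι → R) : R := ∑ i, x i * dt (c i) y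

theorem dt_add (u : ι → ℤ) (x y : ι → R) : dt u (x + y) = dt u x + dt u y := by
  simp [dt, mul_add, sum_add_distrib]

theorem dt_smul (u : ι → ℤ) (t : R) (x : ι → R) : dt u (t • x) = t * dt u x := by
  simp [dt, mul_sum, mul_left_comm]

theorem bf_add (c : ι → ι → ℤ) (x y : ι → R) :
    bf c (x + y) (x + y) = bf c x x + (bf c x y + bf c y x) + bf c y y := by
  simp only [bf, dt_add, Pi.add_apply, mul_add, add_mul, sum_add_distrib]
  ring

theorem bf_smul (c : ι → ι → ℤ) (s t : R) (x y : ι → R) :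
    bf c (s • x) (t • y) = s * t * bf c x y := by
  simp only [bf, dt_smul, mul_sum, Pi.smul_apply, smul_eq_mul]
  exact sum_congr rfl fun _ _ => by ring

theorem map_dt {S : Type} [CommRing S] (f : R →+* S) (u : ι → ℤ) (y : ι → R) :
    dt u (fun i => f (y i)) = f (dt u y) := by simp [dt]

theorem map_bf {S : Type} [CommRing S] (f : R →+* S) (c : ι → ι → ℤ) (x y : ι → R) :
    bf c (fun i => f (x i)) (fun i => f (y i)) = f (bf c x y) := by simp [bf, map_dt]

theorem cont_dt (u : ι → ℤ) : Continuous (dt (R := ℝ) u) := by unfold dt; fun_prop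

theorem cont_bf (c : ι → ι → ℤ) : Continuous fun x : ι → ℝ => bf c x x := by
  unfold bf dt; fun_prop

theorem exists_int (y : ι → ℚ) : ∃ (n : ℚ) (z : ι → ℤ), 0 < n ∧ (fun i => (z i : ℚ)) = n • y := by
  classical
  refine ⟨∏ i, (y i).den, fun i => (∏ j ∈ univ.erase i, (y j).den) * (y i).num, by positivity,
    funext fun i => ?_⟩
  rw [← prod_erase_mul _ _ (mem_univ i)]
  simp [mul_assoc, Rat.den_mul_eq_num]

omit [Fintype ι] in
theorem mem_closure_rat (θ : ι → ℝ) :
    θ ∈ closure (Set.range fun φ : ℝ →ₗ[ℚ] ℚ => fun i => (φ (θ i) : ℝ)) := by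
  let b := Module.Basis.ofVectorSpace ℚ ℝ
  let F : (_ → ℝ) → ι → ℝ := fun r i => (b.repr (θ i)).sum fun k c => c * r k
  have hF : Continuous F := by unfold F Finsupp.sum; fun_prop
  have h1 : F b = θ := funext fun i => by
    simpa [Finsupp.linearCombination_apply, Rat.smul_def] using b.linearCombination_repr (θ i)
  refine Set.mem_of_eq_of_mem h1.symm
    (map_mem_closure hF (DenseRange.piMap (fun _ => Rat.denseRange_cast (𝕜 := ℝ)) b) ?_)
  rintro _ ⟨r, rfl⟩
  refine ⟨b.constr ℚ r, funext fun i => ?_⟩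
  simp [F, Module.Basis.constr_apply, Finsupp.sum]

theorem exists_iso (c : ι → ι → ℤ) (l : ι → ℤ) {U : Set (ι → ℤ)} (hU : U.Finite)
    (hq : ∀ y : ι → ℤ, (∀ u ∈ U, 0 ≤ dt u y) → 0 ≤ bf c y y) (D : ℕ)
    (h : ∀ k : ℕ, ∃ g : ι → ℤ, (∀ u ∈ U, 0 ≤ dt u g) ∧ 0 < dt l g ∧ (∀ i, |g i| ≤ D * dt l g) ∧
      k * bf c g g ≤ dt l g ^ 2) :
    ∃ y : ι → ℤ, (∀ u ∈ U, 0 ≤ dt u y) ∧ 0 < dt l y ∧ bf c y y = 0 := by
  obtain ⟨θ, t1, t2, t3⟩ : ∃ θ : ι → ℝ, (∀ u ∈ U, 0 ≤ dt u θ) ∧ dt l θ = 1 ∧ bf c θ θ ≤ 0 := by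
    choose g g1 g2 g3 g4 using h
    have p : ∀ k, (0 : ℝ) < (dt l (g k) : ℤ) := fun k => by exact_mod_cast g2 k
    let x : ℕ → ι → ℝ := fun k => ((dt l (g k) : ℤ) : ℝ)⁻¹ • fun i => Int.castRingHom ℝ (g k i)
    obtain ⟨θ, -, s, hs, ht⟩ := (isCompact_closedBall (0 : ι → ℝ) D).tendsto_subseq (x := x)
      fun k => mem_closedBall_zero_iff.2 ((pi_norm_le_iff_of_nonneg (by simp)).2 fun i => by
        have : |(g k i : ℝ)| ≤ D * (dt l (g k) : ℤ) := by exact_mod_cast g3 k i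
        simpa [x, abs_of_pos (p k), inv_mul_le_iff₀' (p k)] using this)
    refine ⟨θ, fun u hu => ge_of_tendsto' (((cont_dt u).tendsto θ).comp ht) fun k => ?_,
      tendsto_nhds_unique (((cont_dt l).tendsto θ).comp ht) (tendsto_const_nhds.congr fun k => ?_),
      le_of_tendsto_of_tendsto (((cont_bf c).tendsto θ).comp ht)
        (tendsto_inv_atTop_nhds_zero_nat.comp hs.tendsto_atTop) ?_⟩
    · simp only [x, Function.comp, dt_smul, map_dt]
      exact mul_nonneg (inv_pos.2 (p _)).le (by simpa using g1 _ u hu)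
    · simp only [x, Function.comp, dt_smul, map_dt]
      exact (inv_mul_cancel₀ (p _).ne').symm
    · filter_upwards [hs.tendsto_atTop.eventually_gt_atTop 0] with k hk
      have h4 : (s k : ℝ) * (bf c (g (s k)) (g (s k)) : ℤ) ≤ (dt l (g (s k)) : ℤ) ^ 2 := by
        exact_mod_cast g4 (s k)
      have h5 := p (s k)
      have h6 : (0 : ℝ) < s k := by exact_mod_cast hk
      simp only [x, Function.comp, bf_smul, map_bf]
      rw [eq_intCast]
      field_simp
      linarith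
  let O : Set (ι → ℝ) := {x | 0 < dt l x} ∩ ⋂ u ∈ U, {x | 0 < dt u θ → 0 < dt u x}
  have hO : IsOpen O := (isOpen_lt continuous_const (cont_dt l)).inter (hU.isOpen_biInter
    fun u _ => by
      by_cases h : 0 < dt u θ <;> simp [h, isOpen_lt continuous_const (cont_dt u)])
  have hθ : θ ∈ O := ⟨by simp [t2], by simp⟩
  have hd : ∀ (φ : ℝ →ₗ[ℚ] ℚ) u, dt u (fun i => φ (θ i)) = φ (dt u θ) := fun φ u => by
    simp [dt, ← zsmul_eq_mul]
  have hc : ∀ φ : ℝ →ₗ[ℚ] ℚ, (fun i => (φ (θ i) : ℝ)) ∈ O → ∃ (n : ℚ) (z : ι → ℤ), 0 < n ∧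
      (∀ u ∈ U, 0 ≤ dt u z) ∧ 0 < dt l z ∧
        (bf c z z : ℤ) = n * n * bf c (fun i => φ (θ i)) fun i => φ (θ i) := fun φ hφ => by
    obtain ⟨n, z, hn, e⟩ := exists_int fun i => φ (θ i)
    have e1 : ∀ u, (dt u z : ℤ) = n * dt u fun i => φ (θ i) := fun u => by
      rw [← dt_smul, ← e]; exact (map_dt (Int.castRingHom ℚ) u z).symm
    have e2 : ∀ u, (0 : ℝ) < dt u (fun i => (φ (θ i) : ℝ)) → 0 < dt u z := fun u hu => by
      have h1 := hu.trans_eq (map_dt (Rat.castHom ℝ) u fun i => φ (θ i))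
      have h2 := mul_pos hn (Rat.cast_pos.1 h1)
      rw [← e1] at h2
      exact_mod_cast h2
    refine ⟨n, z, hn, fun u hu => ?_, e2 l hφ.1, ?_⟩
    · rcases (t1 u hu).eq_or_lt with h | h
      · have := e1 u
        rw [hd, ← h, map_zero, mul_zero] at this
        exact_mod_cast this.ge
      · exact (e2 u (Set.mem_iInter₂.1 hφ.2 u hu h)).le
    · rw [← bf_smul, ← e]; exact (map_bf (Int.castRingHom ℚ) c z z).symm
  obtain ⟨_, hv, φ, rfl⟩ := mem_closure_iff.1 (mem_closure_rat θ) O hO hθ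
  let v : ι → ℝ := fun i => (φ (θ i) : ℝ)
  have h1 : ∀ t : ℚ, θ + (t : ℝ) • v ∈ O → 0 ≤ bf c (θ + (t : ℝ) • v) (θ + (t : ℝ) • v) :=
    fun t ht => by
      have h2 : θ + (t : ℝ) • v ∈
          closure (Set.range fun ψ : ℝ →ₗ[ℚ] ℚ => fun i => (ψ (θ i) : ℝ)) :=
        map_mem_closure (f := fun x => x + (t : ℝ) • v) (by fun_prop) (mem_closure_rat θ) (by
          rintro _ ⟨ψ, rfl⟩
          exact ⟨ψ + t • φ, funext fun i => by simp [v]⟩)
      refine (isClosed_le continuous_const (cont_bf c)).closure_subset_iff.2 ?_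
        (hO.inter_closure ⟨ht, h2⟩)
      rintro _ ⟨h3, ψ, rfl⟩
      obtain ⟨n, z, hn, z1, -, z2⟩ := hc ψ h3
      have h4 : (0 : ℚ) ≤ (bf c z z : ℤ) := by exact_mod_cast hq z z1
      rw [z2] at h4
      exact (Rat.cast_nonneg.2 (nonneg_of_mul_nonneg_right h4 (mul_pos hn hn))).trans_eq
        (map_bf (Rat.castHom ℝ) c _ _).symm
  have h2 : bf c θ v + bf c v θ = 0 := by
    have h3 : ∀ ε : ℚ, 0 ≤ ε * (bf c θ v + bf c v θ) := fun ε => by
      have h4 : Tendsto (fun n : ℕ => ((ε / n : ℚ) : ℝ)) atTop (𝓝 0) := by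
        simpa using tendsto_const_div_atTop_nhds_zero_nat (ε : ℝ)
      refine ge_of_tendsto (f := fun n : ℕ => ε * (bf c θ v + bf c v θ) +
        ((ε / n : ℚ) : ℝ) * (ε * bf c v v)) (x := atTop)
        (by simpa using (h4.mul_const (ε * bf c v v)).const_add (ε * (bf c θ v + bf c v θ))) ?_
      filter_upwards [((h4.smul_const v).const_add θ).eventually (hO.mem_nhds (by simpa using hθ)),
        eventually_gt_atTop 0] with n hn h0
      have h5 := h1 _ hn
      have h6 : (0 : ℝ) < n := by exact_mod_cast h0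
      rw [bf_add, ← one_smul ℝ θ, bf_smul, bf_smul, bf_smul, bf_smul] at h5
      have h7 := mul_nonneg h6.le (h5.trans (add_le_add (add_le_add (mul_nonpos_of_nonneg_of_nonpos
        (by simp) t3) le_rfl) le_rfl))
      convert h7 using 1
      push_cast
      field_simp
      ring
    have a := h3 1
    have b := h3 (-1)
    push_cast at a b
    linarith
  obtain ⟨n, z, hn, z1, z2, z3⟩ := hc φ hv
  refine ⟨z, z1, z2, ?_⟩
  have h4 := congrArg φ h2
  have h5 : ∀ (x : ℝ) (q : ℚ), φ (x * q) = φ x * q := fun x q => by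
    rw [mul_comm, ← Rat.smul_def, map_smul, smul_eq_mul, mul_comm]
  have h6 : ∀ u, dt u v = (dt u fun i => φ (θ i) : ℚ) := fun u => map_dt (Rat.castHom ℝ) u _
  simp only [bf, h6, map_add, map_sum, h5, v, mul_comm ((φ _ : ℚ) : ℝ), ← hd, map_zero] at h4
  have h7 : bf c (fun i => φ (θ i)) (fun i => φ (θ i)) = 0 := by
    simp only [mul_comm (dt _ _)] at h4
    unfold bf
    linarith
  rw [h7, mul_zero] at z3
  exact_mod_cast z3

end Pool.Agent.MP_bd94e8_al.H83
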