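import Pool.Agent.MP_bd94e8_al.H83.PP

/-!
A generic module from a sequence of modules along which all lengths grow linearly.
-/

set_option autoImplicit false
set_option linter.unusedSectionVars false

namespace Pool.Agent.MP_bd94e8_al.H83

open Module Function Filter

variable {C : Type} [CommRing C] [IsArtinianRing C] {A : Type} [Ring A] [Algebra C A]
  [Module.Finite C A]

section
variable {M : Type} [AddCommGroup M] [Module A M] [Module C M] [IsScalarTower C A M]
  {B : Type} [AddCommGroup B] [Module A B]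

variable (C A) in
include C in
theorem noeth : IsNoetherianRing A := isNoetherian_of_tower C inferInstance

theorem hom_fin [Module.Finite A B] {R N : Type} [Ring R] [AddCommGroup N] [Module A N]
    [Module R N] [SMulCommClass A R N] : ∃ (n : ℕ) (e : (B →ₗ[A] N) →ₗ[R] (Fin n → N)),
      Injective e := by
  obtain ⟨n, x, hx⟩ := Module.Finite.exists_fin (R := A) (M := B)
  refine ⟨n, ⟨⟨fun u j => u (x j), fun _ _ => rfl⟩, fun _ _ => rfl⟩, fun u v h => ?_⟩
  exact LinearMap.ext_on_range hx fun j => congrFun h j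

variable (C A M) in
theorem finC [Module.Finite A M] : Module.Finite C M := Module.Finite.trans A M

instance homFin [Module.Finite A B] [Module.Finite A M] : Module.Finite C (B →ₗ[A] M) := by
  have := finC C A M
  obtain ⟨n, e, he⟩ := hom_fin (A := A) (B := B) (R := C) (N := M)
  exact Module.Finite.of_injective e he

variable (C A M) in
/-- Evaluation. -/
def ev (c : B) : (B →ₗ[A] M) →ₗ[C] M := ⟨⟨fun u => u c, fun _ _ => rfl⟩, fun _ _ => rfl⟩

variable (C M) in
/-- Composition with a fixed map on the source. -/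
def pre {B' : Type} [AddCommGroup B'] [Module A B'] (ι : B' →ₗ[A] B) :
    (B →ₗ[A] M) →ₗ[C] (B' →ₗ[A] M) := ⟨⟨fun u => u ∘ₗ ι, fun _ _ => rfl⟩, fun _ _ => rfl⟩

theorem len_hom_pp [Module.Finite A B] [Module.Finite A M] (c : B) :
    len C (B →ₗ[A] M) = len C ((B ⧸ Submodule.span A {c}) →ₗ[A] M) +
      len C (LinearMap.range (ev C A M c)) := by
  have := finC C A M
  have h := length_eq_add_of_exact (pre C M (Submodule.span A {c}).mkQ) (ev C A M c).rangeRestrict
    (fun u v h => Submodule.linearMap_qext _ h) (LinearMap.surjective_rangeRestrict _) (by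
      intro u
      constructor
      · intro hu
        have hu' : u c = 0 := congrArg Subtype.val hu
        exact ⟨Submodule.liftQ _ u (by simpa [Submodule.span_le] using hu'), by ext; rfl⟩
      · rintro ⟨v, rfl⟩
        refine Subtype.ext ?_
        change v (Submodule.Quotient.mk c) = 0
        rw [(Submodule.Quotient.mk_eq_zero _).2 (Submodule.mem_span_singleton_self c), map_zero])
  rw [← len_cast, ← len_cast, ← len_cast] at h
  exact_mod_cast h

end

/-- A map of small rank from a free module vanishes on a large part. -/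
theorem exists_cut {w : ℕ} {M : Type} [AddCommGroup M] [Module C M] (x : (Fin w → C) →ₗ[C] M)
    (b : ℕ) (h : length C (LinearMap.range x) ≤ b) :
    ∃ e : (Fin w → C) →ₗ[C] (Fin w → C), x ∘ₗ e = 0 ∧ ∀ (M' : Type) [AddCommGroup M'] [Module C M']
      (y : (Fin w → C) →ₗ[C] M'), length C (LinearMap.range (y - y ∘ₗ e)) ≤ (len C C * b : ℕ) := by
  classical
  obtain ⟨s, hs, h1⟩ := exists_gen (R := C) (fun j => x (Pi.single j 1)) b (le_trans (len_mono
    (Submodule.span_le.2 (by rintro _ ⟨j, rfl⟩; exact ⟨_, rfl⟩))) h)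
  let t : (s → C) →ₗ[C] (Fin w → C) := Fintype.linearCombination C fun i => Pi.single i.1 1
  have : ∀ j, ∃ c : s → C, x (t c) = x (Pi.single j 1) := fun j => by
    have h2 := h1 j
    rw [Set.image_eq_range, Submodule.mem_span_range_iff_exists_fun] at h2
    obtain ⟨c, hc⟩ := h2
    exact ⟨c, by simpa [t, Fintype.linearCombination_apply, map_sum] using hc⟩
  choose c hc using this
  let σ : (Fin w → C) →ₗ[C] (s → C) := Fintype.linearCombination C c
  refine ⟨LinearMap.id - t ∘ₗ σ, ?_, fun M' _ _ y => ?_⟩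
  · refine (Pi.basisFun C (Fin w)).ext fun j => ?_
    simp [σ, hc j]
  · rw [show y - y ∘ₗ (LinearMap.id - t ∘ₗ σ) = (y ∘ₗ t) ∘ₗ σ by ext; simp]
    refine (len_mono (LinearMap.range_comp_le_range _ _)).trans ((len_range_le _).trans ?_)
    rw [length_pi_of_fintype, Finset.sum_const, ← len_cast, nsmul_eq_mul, mul_comm]
    exact_mod_cast Nat.mul_le_mul_left _ (by simpa using hs)

variable (V : ℕ → Type) [∀ n, AddCommGroup (V n)] [∀ n, Module A (V n)] [∀ n, Module C (V n)]
  [∀ n, IsScalarTower C A (V n)] [∀ n, Module.Finite A (V n)] (w : ℕ → ℕ)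

variable (C) in
/-- Sequences of tuples. -/
abbrev Seq : Type := ∀ n, (Fin (w n) → C) →ₗ[C] V n

/-- A notion of smallness for sequences of natural numbers. -/
structure Sm (S : (ℕ → ℕ) → Prop) : Prop where
  add : ∀ a b, S a → S b → S (a + b)
  fin : ∀ b, (∀ᶠ n in atTop, b n = 0) → S b

variable {S : (ℕ → ℕ) → Prop}

theorem Sm.sum (hS : Sm S) {ι : Type} (s : Finset ι) (b : ι → ℕ → ℕ) (h : ∀ i, S (b i)) :
    S (∑ i ∈ s, b i) :=
  Finset.sum_induction _ _ hS.add (hS.fin _ (by simp)) fun i _ => h i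

theorem Sm.mul (hS : Sm S) (k : ℕ) {b : ℕ → ℕ} (h : S b) : S fun n => k * b n := by
  convert hS.sum (Finset.range k) (fun _ => b) fun _ => h
  simp

variable (C A) in
/-- Sequences of small rank. -/
def nul (hS : Sm S) : Submodule A (Seq C V w) where
  carrier := {x | ∃ b, S b ∧ ∀ n, length C (LinearMap.range (x n)) ≤ b n}
  zero_mem' := ⟨0, hS.fin _ (by simp), fun n => by
    rw [Pi.zero_apply, LinearMap.range_zero]; simp⟩
  add_mem' := by
    rintro x y ⟨a, ha, hx⟩ ⟨b, hb, hy⟩
    refine ⟨a + b, hS.add _ _ ha hb, fun n => ?_⟩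
    refine (len_mono (W' := LinearMap.range ((LinearMap.range (x n)).subtype.coprod
      (LinearMap.range (y n)).subtype)) ?_).trans ((len_range_le _).trans ?_)
    · rintro _ ⟨z, rfl⟩
      exact ⟨(⟨_, z, rfl⟩, ⟨_, z, rfl⟩), rfl⟩
    · rw [length_prod, Pi.add_apply, Nat.cast_add]
      exact add_le_add (hx n) (hy n)
  smul_mem' := by
    rintro a x ⟨b, hb, hx⟩
    refine ⟨b, hb, fun n => le_trans ?_ (hx n)⟩
    refine (len_mono (W' := LinearMap.range ((Algebra.lsmul C C (V n) a) ∘ₗ
      (LinearMap.range (x n)).subtype)) ?_).trans (len_range_le _)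
    rintro _ ⟨z, rfl⟩
    exact ⟨⟨_, z, rfl⟩, rfl⟩

variable {V w}

section
variable {B : Type} [AddCommGroup B] [Module A B]

/-- Currying. -/
def toSeq (t : ∀ n, (Fin (w n) → C) →ₗ[C] (B →ₗ[A] V n)) : B →ₗ[A] Seq C V w :=
  LinearMap.pi fun n => (t n).flip

/-- Uncurrying. -/
def ofSeq (u : B →ₗ[A] Seq C V w) (n : ℕ) : (Fin (w n) → C) →ₗ[C] (B →ₗ[A] V n) :=
  (LinearMap.proj n ∘ₗ u).flip

end

theorem nul_cut (hS : Sm S) {b : ℕ → ℕ} (hb : S b) {M : ℕ → Type} [∀ n, AddCommGroup (M n)]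
    [∀ n, Module C (M n)] (x : Seq C M w) (hx : ∀ n, length C (LinearMap.range (x n)) ≤ b n) :
    ∃ e : ∀ n, (Fin (w n) → C) →ₗ[C] (Fin (w n) → C), (∀ n, x n ∘ₗ e n = 0) ∧
      ∀ y : Seq C V w, (nul C A V w hS).mkQ (fun n => y n ∘ₗ e n) = (nul C A V w hS).mkQ y := by
  choose e he h using fun n => exists_cut (x n) (b n) (hx n)
  exact ⟨e, he, fun y => Eq.symm ((Submodule.Quotient.eq _).2
    ⟨_, hS.mul (len C C) hb, fun n => h n _ _⟩)⟩

theorem nul_pure (hS : Sm S) : Pure (nul C A V w hS).mkQ := by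
  intro B _ _ _ u
  have := noeth C A
  obtain ⟨n, m, ρ, k, hρ, hk⟩ := exists_pres (A := A) B
  obtain ⟨y, hy⟩ := Module.projective_lifting_property _ (u ∘ₗ ρ) (nul C A V w hS).mkQ_surjective
  have : ∀ j, y (k j) ∈ nul C A V w hS := fun j => by
    have h1 : ρ (k j) = 0 := by
      rw [← LinearMap.mem_ker, ← hk]; exact Submodule.subset_span ⟨j, rfl⟩
    simpa [h1] using LinearMap.congr_fun hy (k j)
  choose b hb hl using this
  obtain ⟨e, he, h⟩ := nul_cut (A := A) (V := V) hS (hS.sum Finset.univ b hb)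
    (M := fun n => ∀ j, LinearMap.range (y (k j) n))
    (fun n => LinearMap.pi fun j => (y (k j) n).rangeRestrict) fun n => by
      refine (len_sub_le _).trans ?_
      rw [length_pi_of_fintype, Finset.sum_apply, Nat.cast_sum]
      exact Finset.sum_le_sum fun j _ => hl j n
  obtain ⟨v, hv⟩ := exists_desc hρ (toSeq fun n => ofSeq y n ∘ₗ e n) (by
    rw [← hk, Submodule.span_le]
    rintro _ ⟨j, rfl⟩
    refine funext fun n => LinearMap.ext fun z => ?_
    exact congrArg Subtype.val (congrFun (LinearMap.congr_fun (he n) z) j))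
  refine ⟨v, LinearMap.ext fun z => ?_⟩
  obtain ⟨z, rfl⟩ := hρ z
  rw [LinearMap.comp_apply, ← LinearMap.comp_apply v, hv]
  exact (h (y z)).trans (LinearMap.congr_fun hy z)

theorem pp_le_of_small (hS : Sm S) {B B' : Type} [AddCommGroup B] [Module A B] [AddCommGroup B']
    [Module A B'] [Module.Finite A B'] (c : B) (c' : B')
    (hle : ∀ n, LinearMap.range (ev C A (V n) c) ≤ LinearMap.range (ev C A (V n) c'))
    (hs : S fun n => len C (LinearMap.range (ev C A (V n) c')) -
      len C (LinearMap.range (ev C A (V n) c))) :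
    pp A (Seq C V w ⧸ nul C A V w hS) c' ≤ pp A _ c := by
  rintro _ ⟨v, rfl⟩
  obtain ⟨v, rfl⟩ := nul_pure hS B' v
  obtain ⟨e, he, h⟩ := nul_cut (A := A) (V := V) hS hs
    (M := fun n => V n ⧸ LinearMap.range (ev C A (V n) c))
    (fun n => Submodule.mkQ _ ∘ₗ v c' n) fun n => by
      have := finC C A (V n)
      beta_reduce
      have hle := hle n
      set P := LinearMap.range (ev C A (V n) c)
      set P' := LinearMap.range (ev C A (V n) c')
      have h1 := len_ker_range (P.mkQ ∘ₗ P'.subtype)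
      have h2 : length C P ≤ length C (LinearMap.ker (P.mkQ ∘ₗ P'.subtype)) :=
        length_le_of_injective ((Submodule.inclusion hle).codRestrict _ fun x =>
          (Submodule.Quotient.mk_eq_zero _).2 x.2) fun a b e =>
            Submodule.inclusion_injective _ (congrArg Subtype.val e)
      refine (len_mono (W' := LinearMap.range (P.mkQ ∘ₗ P'.subtype)) ?_).trans ?_
      · rintro _ ⟨z, rfl⟩
        exact ⟨⟨_, ofSeq v n z, rfl⟩, rfl⟩
      rw [← len_cast, ← len_cast, ← len_cast] at h1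
      rw [← len_cast, ← len_cast] at h2
      rw [← len_cast]
      norm_cast at h1 h2 ⊢
      omega
  have : ∀ n, ∃ s : (Fin (w n) → C) →ₗ[C] (B →ₗ[A] V n),
      (ev C A (V n) c).rangeRestrict ∘ₗ s = (v c' n ∘ₗ e n).codRestrict _ fun z =>
        (Submodule.Quotient.mk_eq_zero _).1 (LinearMap.congr_fun (he n) z) := fun n =>
    Module.projective_lifting_property _ _ (LinearMap.surjective_rangeRestrict _)
  choose s hs using this
  refine ⟨Submodule.mkQ _ ∘ₗ toSeq s, Eq.trans (congrArg (Submodule.mkQ _) ?_) (h (v c'))⟩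
  exact funext fun n => LinearMap.ext fun z => congrArg Subtype.val (LinearMap.congr_fun (hs n) z)

variable (A V) in
/-- No finitely generated indecomposable module sees almost all `V n` directly. -/
def Far : Prop :=
  ∀ (G : Type) [AddCommGroup G] [Module A G] [Module.Finite A G], Indec A G →
    ∃ (B : Type) (_ : AddCommGroup B) (_ : Module A B) (ι : G →ₗ[A] B),
      (¬ ∃ t : B →ₗ[A] G, t ∘ₗ ι = LinearMap.id) ∧
      ∀ᶠ n in atTop, ∀ u : G →ₗ[A] V n, ∃ u' : B →ₗ[A] V n, u' ∘ₗ ι = u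

theorem generic_of_val (hS : Sm S) (Val : (ℕ → ℕ) → ℕ → Prop)
    (hex : ∀ (B : Type) [AddCommGroup B] [Module A B] [Module.Finite A B] (c : B),
      ∃ k, Val (fun n => len C (LinearMap.range (ev C A (V n) c))) k)
    (hmono : ∀ f g k l, Val f k → Val g l → f ≤ g → k ≤ l ∧ (l ≤ k → S fun n => g n - f n))
    (hbig : ∀ b, S b → ¬ ∀ n, len C (V n) ≤ b n) (hF : Far A V) : HasGeneric A := by
  by_contra hG
  have := noeth C A
  have hf := fun n => finC C A (V n)
  choose w x hx using fun n => Module.Finite.exists_fin' C (V n)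
  let N := Seq C V w ⧸ nul C A V w hS
  have : Nontrivial N := ⟨Submodule.mkQ _ x, 0, fun h => by
    obtain ⟨b, hb, h1⟩ := (Submodule.Quotient.mk_eq_zero _).1 h
    refine hbig b hb fun n => ?_
    have h2 := h1 n
    rw [LinearMap.range_eq_top.2 (hx n), Submodule.topEquiv.length_eq, ← len_cast] at h2
    exact_mod_cast h2⟩
  have hlm : ∀ n (P P' : Submodule C (V n)), P ≤ P' → len C P ≤ len C P' := fun n P P' h => by
    have h1 := len_mono h
    rw [← len_cast, ← len_cast] at h1
    exact_mod_cast h1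
  have hB : Bdd A N := by
    let T : Submodule (End A N) N → Set ℕ := fun W => {k | ∃ (B : Type) (_ : AddCommGroup B)
      (_ : Module A B) (_ : Module.Finite A B) (c : B), pp A N c ≤ W ∧
      Val (fun n => len C (LinearMap.range (ev C A (V n) c))) k}
    obtain ⟨k₀, hk₀⟩ := hex A 1
    have hT : ∀ W, ∀ k ∈ T W, k ≤ k₀ := by
      rintro W k ⟨B, _, _, _, c, -, hk⟩
      exact (hmono _ _ _ _ hk hk₀ fun n => hlm n _ _ fun y _ =>
        ⟨LinearMap.toSpanSingleton A _ y, by simp [ev]⟩).1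
    have hn : ∀ W, (T W).Nonempty := fun W => by
      obtain ⟨k, hk⟩ := hex A 0
      exact ⟨k, A, inferInstance, inferInstance, inferInstance, 0,
        by rintro _ ⟨v, rfl⟩; simp, hk⟩
    refine ⟨fun W => sSup (T W), k₀, fun W _ => csSup_le (hn W) (hT W), fun W W' _ hW' h => ?_⟩
    obtain ⟨B, _, _, _, c, hc, hk⟩ := Nat.sSup_mem (hn W) ⟨k₀, hT W⟩
    obtain ⟨B', _, _, _, c', rfl⟩ := hW'
    obtain ⟨l, hl⟩ := hex (B × B') (c, c')
    have hle : ∀ n, LinearMap.range (ev C A (V n) c) ≤ LinearMap.range (ev C A (V n) (c, c')) := by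
      rintro n _ ⟨v, rfl⟩
      exact ⟨v ∘ₗ LinearMap.fst A B B', rfl⟩
    have h1 := hmono _ _ _ _ hk hl fun n => hlm n _ _ (hle n)
    refine lt_of_lt_of_le (lt_of_not_ge fun h2 => h.not_ge ?_) (le_csSup ⟨k₀, hT _⟩
      ⟨B × B', inferInstance, inferInstance, inferInstance, (c, c'), ?_, hl⟩)
    · refine le_trans ?_ ((pp_le_of_small hS c (c, c') hle (h1.2 h2)).trans hc)
      rw [pp_prod]; exact le_sup_right
    · rw [pp_prod]; exact sup_le (hc.trans h.le) le_rfl
  obtain ⟨G, _, _, _, ι, p, hI, hp⟩ := exists_summand hB hG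
  obtain ⟨B, _, _, j, hj, hn⟩ := hF G hI
  obtain ⟨n₀, hn⟩ := eventually_atTop.1 hn
  obtain ⟨s, rfl⟩ := nul_pure hS G ι
  have : ∀ n, ∃ t : (Fin (w n) → C) →ₗ[C] (B →ₗ[A] V n), n₀ ≤ n →
      pre C (V n) j ∘ₗ t = ofSeq s n := fun n => by
    by_cases h : n₀ ≤ n
    · obtain ⟨t, ht⟩ := Module.projective_lifting_property (pre C (V n) j) (ofSeq s n) (hn n h)
      exact ⟨t, fun _ => ht⟩
    · exact ⟨0, fun h' => (h h').elim⟩
  choose t ht using this
  refine hj ⟨p ∘ₗ Submodule.mkQ _ ∘ₗ toSeq t, Eq.trans (LinearMap.ext fun z => congrArg p ?_) hp⟩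
  refine (Submodule.Quotient.eq _).2 ⟨fun n => if n₀ ≤ n then 0 else len C (V n), hS.fin _
    (eventually_atTop.2 ⟨n₀, fun n h => if_pos h⟩), fun n => ?_⟩
  beta_reduce
  split_ifs with h
  · have : (toSeq t (j z) - s z) n = 0 := LinearMap.ext fun y => sub_eq_zero.2
      (LinearMap.congr_fun (LinearMap.congr_fun (ht n h) y) z)
    rw [this, LinearMap.range_zero]; simp
  · rw [len_cast]; exact len_sub_le _

/-- Eventually linear sequences. -/
def Lin (f : ℕ → ℕ) (ρ β : ℤ) : Prop := ∀ᶠ n in atTop, (f n : ℤ) = ρ * n + β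

theorem slope_nonneg {ρ β : ℤ} (h : ∀ᶠ n : ℕ in atTop, 0 ≤ ρ * n + β) : 0 ≤ ρ := by
  by_contra hn
  obtain ⟨n, h1, h2⟩ := (h.and (eventually_gt_atTop β.toNat)).exists
  have : β < n := by omega
  nlinarith

theorem Lin.le {f g : ℕ → ℕ} {ρ β ρ' β' : ℤ} (h : Lin f ρ β) (h' : Lin g ρ' β') (hle : f ≤ g) :
    ∀ᶠ n : ℕ in atTop, ((g n - f n : ℕ) : ℤ) = (ρ' - ρ) * n + (β' - β) := by
  filter_upwards [h, h'] with n a b
  rw [Nat.cast_sub (hle n), a, b]; ring

theorem generic_of_lin (hne : ∀ n, Nontrivial (V n)) (hF : Far A V)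
    (hL : ∀ (B : Type) [AddCommGroup B] [Module A B] [Module.Finite A B],
      ∃ ρ β, Lin (fun n => len C (B →ₗ[A] V n)) ρ β) : HasGeneric A := by
  have hf := fun n => finC C A (V n)
  have h1 : ∀ (B : Type) [AddCommGroup B] [Module A B] [Module.Finite A B] (c : B),
      ∃ ρ β, Lin (fun n => len C (LinearMap.range (ev C A (V n) c))) ρ β := fun B _ _ _ c => by
    obtain ⟨ρ, β, h⟩ := hL B
    obtain ⟨ρ', β', h'⟩ := hL (B ⧸ Submodule.span A {c})
    refine ⟨ρ - ρ', β - β', ?_⟩
    filter_upwards [h, h'] with n a b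
    have := len_hom_pp (C := C) (A := A) (M := V n) c
    push_cast [this] at a
    linarith
  have h0 : ∀ {f ρ β}, Lin f ρ β → 0 ≤ ρ := fun h => slope_nonneg (by
    filter_upwards [h] with n a
    rw [← a]; positivity)
  have hm : ∀ {f g ρ β ρ' β'}, Lin f ρ β → Lin g ρ' β' → f ≤ g → ρ ≤ ρ' := fun h h' hle =>
    sub_nonneg.1 (h0 (h.le h' hle))
  obtain ⟨ρ₀, β₀, h2⟩ := h1 A 1
  have h3 : Lin (fun n => len C (V n)) ρ₀ β₀ := by
    convert h2 using 2 with n
    rw [LinearMap.range_eq_top.2 fun y => ⟨LinearMap.toSpanSingleton A _ y, by simp [ev]⟩, len, len,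
      Submodule.topEquiv.length_eq]
  rcases (h0 h2).eq_or_lt with e | e
  · refine generic_of_val (C := C) (V := V) (S := fun b => ∀ᶠ n in atTop, b n = 0)
      ⟨fun a b ha hb => by filter_upwards [ha, hb] with n x y; simp [x, y], fun _ h => h⟩
      (fun f k => Lin f 0 k) (fun B _ _ _ c => ?_) (fun f g k l a b h => ?_) (fun b hb h => ?_) hF
    · obtain ⟨ρ, β, h⟩ := h1 B c
      have : ρ = 0 := le_antisymm (e ▸ hm h h3 fun n => by
        have := len_sub_le (LinearMap.range (ev C A (V n) c))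
        rw [← len_cast, ← len_cast] at this
        exact_mod_cast this) (h0 h)
      subst this
      obtain ⟨n, hn⟩ := h.exists
      refine ⟨β.toNat, ?_⟩
      rwa [Int.toNat_of_nonneg (by omega)]
    · have h4 := a.le b h
      obtain ⟨n, hn⟩ := h4.exists
      refine ⟨by omega, fun h5 => ?_⟩
      filter_upwards [h4] with m hm
      omega
    · obtain ⟨n, hn⟩ := hb.exists
      have := len_pos (R := C) (U := V n)
      have := h n
      omega
  · refine generic_of_val (C := C) (V := V) (S := fun b => ∃ B, ∀ n, b n ≤ B)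
      ⟨?_, fun b h => ?_⟩ (fun f k => ∃ β, Lin f k β) (fun B _ _ _ c => ?_) ?_ ?_ hF
    · rintro a b ⟨x, hx⟩ ⟨y, hy⟩
      exact ⟨x + y, fun n => add_le_add (hx n) (hy n)⟩
    · obtain ⟨m, hm⟩ := eventually_atTop.1 h
      refine ⟨∑ i ∈ Finset.range m, b i, fun n => ?_⟩
      by_cases h : m ≤ n
      · simp [hm n h]
      · exact Finset.single_le_sum (fun _ _ => Nat.zero_le _) (by simpa using h)
    · obtain ⟨ρ, β, h⟩ := h1 B c
      refine ⟨ρ.toNat, β, ?_⟩
      rwa [Int.toNat_of_nonneg (h0 h)]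
    · rintro f g k l ⟨β, a⟩ ⟨β', b⟩ h
      have h4 := hm a b h
      refine ⟨by omega, fun h5 => ?_⟩
      obtain ⟨m, hm⟩ := eventually_atTop.1 (a.le b h)
      refine ⟨∑ i ∈ Finset.range m, (g i - f i) + (β' - β).toNat, fun n => ?_⟩
      by_cases h : m ≤ n
      · have := hm n h
        rw [show (l : ℤ) - k = 0 by omega, zero_mul] at this
        beta_reduce
        omega
      · exact le_add_right (Finset.single_le_sum (f := fun i => g i - f i)
          (fun _ _ => Nat.zero_le _) (by simpa using h))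
    · rintro b ⟨B, hB⟩ h
      have : 0 ≤ -ρ₀ := slope_nonneg (β := B - β₀) (by
        filter_upwards [h3] with n a
        have : (len C (V n) : ℤ) ≤ B := by exact_mod_cast (h n).trans (hB n)
        linarith)
      omega

end Pool.Agent.MP_bd94e8_al.H83
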