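import Pool.Agent.MP_bd94e8_al.H83.Fam
import Pool.Agent.MP_bd94e8_al.H83.DefsB

/-!
Reduction to a fixed finite family of indecomposable modules.
-/

set_option autoImplicit false
set_option linter.unusedSectionVars false

namespace Pool.Agent.MP_bd94e8_al.H83

open Module Function Finset H

section
variable {A : Type} [Ring A] {G Y Z M : Type} [AddCommGroup G] [Module A G] [AddCommGroup Y]
  [Module A Y] [AddCommGroup Z] [Module A Z] [AddCommGroup M] [Module A M]

theorem Smd.trans (h : Smd A G Y) (h' : Smd A Y Z) : Smd A G Z := by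
  obtain ⟨a, b, e⟩ := h
  obtain ⟨c, d, e'⟩ := h'
  exact ⟨c ∘ₗ a, b ∘ₗ d, LinearMap.ext fun x =>
    (congrArg b (LinearMap.congr_fun e' (a x))).trans (LinearMap.congr_fun e x)⟩

theorem Smd.of_equiv (e : G ≃ₗ[A] Y) : Smd A G Y := ⟨e, e.symm, LinearMap.ext e.symm_apply_apply⟩

theorem Smd.fin [Module.Finite A Y] (h : Smd A G Y) : Module.Finite A G := by
  obtain ⟨a, b, e⟩ := h
  exact Module.Finite.of_surjective b fun x => ⟨a x, LinearMap.congr_fun e x⟩

theorem Smd.equiv (h : Smd A G Y) (hG : Indec A G) (hY : Indec A Y) : Nonempty (G ≃ₗ[A] Y) := by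
  obtain ⟨a, b, e⟩ := h
  have := hG.1
  exact ⟨LinearEquiv.ofBijective a (hY.bij e).1⟩

theorem Smd.prod [IsLocalRing (End A G)] (h : Smd A G (Y × Z)) : Smd A G Y ∨ Smd A G Z := by
  obtain ⟨a, b, e⟩ := h
  have : IsUnit ((b ∘ₗ LinearMap.inl A Y Z) ∘ₗ (LinearMap.fst A Y Z ∘ₗ a) +
      (b ∘ₗ LinearMap.inr A Y Z) ∘ₗ (LinearMap.snd A Y Z ∘ₗ a) : End A G) := by
    convert isUnit_one
    exact LinearMap.ext fun x => (map_add b _ _).symm.trans
      ((congrArg b (by simp)).trans (LinearMap.congr_fun e x))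
  exact (IsLocalRing.isUnit_or_isUnit_of_isUnit_add this).imp (fun h => ⟨_, exists_retr h⟩)
    fun h => ⟨_, exists_retr h⟩

theorem Indec.congr (h : Indec A G) (e : G ≃ₗ[A] Y) : Indec A Y :=
  ⟨have := h.1; e.injective.nontrivial, fun _ _ hc =>
    (h.2 _ _ ((Submodule.orderIsoMapComap e).symm.isCompl hc)).imp
      (map_eq_bot_iff (Submodule.orderIsoMapComap e).symm).1
      (map_eq_bot_iff (Submodule.orderIsoMapComap e).symm).1⟩

variable (G) in
/-- Maps from `G` lift along `π`. -/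
def Lifts (π : Z →ₗ[A] M) : Prop := ∀ u : G →ₗ[A] M, ∃ v : G →ₗ[A] Z, π ∘ₗ v = u

theorem Lifts.smd {π : Z →ₗ[A] M} (h : Lifts Y π) (h' : Smd A G Y) : Lifts G π := fun u => by
  obtain ⟨a, b, e⟩ := h'
  obtain ⟨v, hv⟩ := h (u ∘ₗ b)
  exact ⟨v ∘ₗ a, by rw [← LinearMap.comp_assoc, hv, LinearMap.comp_assoc, e, LinearMap.comp_id]⟩

variable {σ : Type} [Fintype σ] [DecidableEq σ] {X : σ → Type} [∀ s, AddCommGroup (X s)]
  [∀ s, Module A (X s)]

theorem Lifts.pi {π : Z →ₗ[A] M} (h : ∀ s, Lifts (X s) π) : Lifts (∀ s, X s) π := fun u => by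
  choose v hv using fun s => h s (u ∘ₗ LinearMap.single A X s)
  refine ⟨∑ s, v s ∘ₗ LinearMap.proj s, LinearMap.ext fun x => ?_⟩
  conv_rhs => rw [← univ_sum_single x, map_sum]
  rw [LinearMap.comp_apply, LinearMap.sum_apply, map_sum]
  exact sum_congr rfl fun s _ => LinearMap.congr_fun (hv s) (x s)

theorem Smd.single (s : σ) : Smd A (X s) (∀ s, X s) :=
  ⟨LinearMap.single A X s, LinearMap.proj s, LinearMap.ext fun _ => by simp⟩

theorem Smd.pi [IsLocalRing (End A G)] (h : Smd A G (∀ s, X s)) : ∃ s, Smd A G (X s) := by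
  obtain ⟨a, b, e⟩ := h
  have : IsUnit (∑ s, ((b ∘ₗ LinearMap.single A X s) ∘ₗ (LinearMap.proj s ∘ₗ a) : End A G)) := by
    convert isUnit_one
    refine LinearMap.ext fun x => Eq.trans ?_ (LinearMap.congr_fun e x)
    conv_rhs => rw [LinearMap.comp_apply, ← univ_sum_single (a x), map_sum]
    simp
  obtain ⟨s, -, hs⟩ := IsLocalRing.exists_of_isUnit_sum this
  exact ⟨s, _, exists_retr hs⟩

theorem decomp [IsArtinianRing A] [IsNoetherianRing A] (n : ℕ) : ∀ (Y : Type) [AddCommGroup Y]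
    [Module A Y] [Module.Finite A Y], len A Y = n → (∀ (G : Type) [AddCommGroup G] [Module A G],
      Indec A G → Smd A G Y → ∃ i, Nonempty (G ≃ₗ[A] X i)) →
    ∃ (τ : Type) (_ : Fintype τ) (_ : DecidableEq τ) (l : τ → σ), Fintype.card τ ≤ n ∧
      Nonempty (Y ≃ₗ[A] DS X l) := by
  induction n using Nat.strong_induction_on with
  | _ n ih =>
  intro Y _ _ _ hn h
  rcases subsingleton_or_nontrivial Y with h0 | h0
  · exact ⟨Empty, inferInstance, inferInstance, Empty.elim, by simp,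
      ⟨LinearEquiv.ofSubsingleton _ _⟩⟩
  by_cases hI : Indec A Y
  · obtain ⟨i, ⟨e⟩⟩ := h Y hI (Smd.of_equiv (LinearEquiv.refl _ _))
    exact ⟨Unit, inferInstance, inferInstance, fun _ => i, hn ▸ len_pos,
      ⟨e.trans (LinearEquiv.funUnique Unit A _).symm⟩⟩
  simp only [Indec, h0, true_and, not_forall, not_or] at hI
  obtain ⟨P, Q, hc, hP, hQ⟩ := hI
  have e := Submodule.prodEquivOfIsCompl P Q hc
  have h1 := e.length_eq
  have := Submodule.nontrivial_iff_ne_bot.2 hP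
  have := Submodule.nontrivial_iff_ne_bot.2 hQ
  have h2 := len_pos (R := A) (U := P)
  have h3 := len_pos (R := A) (U := Q)
  rw [length_prod, ← len_cast, ← len_cast, ← len_cast, hn] at h1
  norm_cast at h1
  obtain ⟨τ, _, _, l, a, ⟨e1⟩⟩ := ih _ (by omega) P rfl fun G _ _ hG hs =>
    h G hG ((hs.trans ⟨LinearMap.inl A P Q, LinearMap.fst A P Q, rfl⟩).trans (.of_equiv e))
  obtain ⟨τ', _, _, l', a', ⟨e2⟩⟩ := ih _ (by omega) Q rfl fun G _ _ hG hs =>
    h G hG ((hs.trans ⟨LinearMap.inr A P Q, LinearMap.snd A P Q, rfl⟩).trans (.of_equiv e))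
  exact ⟨τ ⊕ τ', inferInstance, inferInstance, Sum.elim l l', by rw [Fintype.card_sum]; omega,
    ⟨e.symm.trans ((e1.prodCongr e2).trans
      (LinearEquiv.sumPiEquivProdPi A τ τ' fun s => X (Sum.elim l l' s)).symm)⟩⟩

end

variable {C : Type} [CommRing C] [IsArtinianRing C] {A : Type} [Ring A] [Algebra C A]
  [Module.Finite C A] {ι : Type} [Fintype ι] [DecidableEq ι] {X : ι → Type}
  [∀ i, AddCommGroup (X i)] [∀ i, Module A (X i)] [∀ i, Module C (X i)]
  [∀ i, IsScalarTower C A (X i)] [∀ i, Module.Finite A (X i)]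

theorem cl_mem {σ : Type} [Fintype σ] (l : σ → ι) (i : ι) :
    0 ≤ cl l i ∧ cl l i ≤ Fintype.card σ := by
  simpa [cl] using card_le_univ _

theorem res_of (hI : ∀ i, Indec A (X i)) {Y M : Type} [AddCommGroup Y] [Module A Y]
    [Module.Finite A Y] [AddCommGroup M] [Module A M] [Module C M] [IsScalarTower C A M]
    [Module.Finite A M] (h1 : ∀ i, Smd A (X i) Y) (h2 : ∀ (G : Type) [AddCommGroup G] [Module A G],
      Indec A G → Smd A G Y → ∃ i, Nonempty (G ≃ₗ[A] X i)) (hR : Resolved A Y M) :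
    ∃ (σ τ : Type) (_ : Fintype σ) (_ : DecidableEq σ) (_ : Fintype τ) (_ : DecidableEq τ)
      (l : σ → ι) (m : τ → ι) (_ : Res C A X l m M), ∀ i, |(cl m - cl l) i| ≤
        (len C ((∀ i, X i) →ₗ[A] M) * (Fintype.card ι + ∑ i, len A (X i)) : ℕ) := by
  classical
  have := noeth C A
  have : IsArtinianRing A := isArtinian_of_tower C inferInstance
  obtain ⟨Z, _, _, π, hπ, hl, ⟨p, hp⟩, q, hq⟩ := hR
  obtain ⟨s, s1, s2⟩ := exists_gen (R := C) (id : ((∀ i, X i) →ₗ[A] M) → _)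
    (len C ((∀ i, X i) →ₗ[A] M)) (len_cast (R := C) (U := (∀ i, X i) →ₗ[A] M) ▸ len_sub_le _)
  simp only [Set.image_eq_range, Submodule.mem_span_range_iff_exists_fun] at s2
  let m : s × ι → ι := Prod.snd
  let π' : DS X m →ₗ[A] M := ∑ p : s × ι, p.1.1 ∘ₗ LinearMap.single A X p.2 ∘ₗ LinearMap.proj p
  have l1 : ∀ i, Lifts (X i) π' := fun i => Lifts.smd (fun u => by
    obtain ⟨c, rfl⟩ := s2 u
    refine ⟨LinearMap.pi fun p => c p.1 • LinearMap.proj p.2, LinearMap.ext fun x => ?_⟩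
    conv_rhs => rw [← univ_sum_single x]
    simp [π', Fintype.sum_prod_type_right, Pi.single_smul]) (Smd.single i)
  obtain ⟨_, _, _, l0, -, ⟨e0⟩⟩ := decomp _ Y rfl h2
  obtain ⟨β, hβ⟩ := (Lifts.pi (X := fun _ : Fin p => Y)
    fun _ => (Lifts.pi fun s => l1 (l0 s)).smd (.of_equiv e0)).smd hp π
  obtain ⟨α, hα⟩ := Lifts.pi (fun s => Lifts.smd hl (h1 (m s))) π'
  have a : ∀ x, π (α x) = π' x := LinearMap.congr_fun hα
  have b : ∀ x, π' (β x) = π x := LinearMap.congr_fun hβ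
  have h3 : Smd A (LinearMap.ker π') (LinearMap.ker π × DS X m) :=
    ⟨LinearMap.prod (α.restrict fun x hx => (a x).trans hx) (Submodule.subtype _),
      LinearMap.codRestrict _ ((β ∘ₗ Submodule.subtype _).coprod (LinearMap.id - β ∘ₗ α))
        fun x => by simp [a, b], LinearMap.ext fun x => Subtype.ext (by simp)⟩
  obtain ⟨σ, _, _, l, hc, ⟨e⟩⟩ := decomp (A := A) (X := X) _ (LinearMap.ker π') rfl
    fun G _ _ hG hs => by
      have := hs.fin
      have := hG.loc
      rcases (hs.trans h3).prod with h | h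
      · obtain ⟨_, h⟩ := (h.trans hq).pi
        exact h2 G hG h
      · obtain ⟨s, h⟩ := h.pi
        exact ⟨_, h.equiv hG (hI _)⟩
  have he := exact_ker π' e.symm.surjective
  refine ⟨σ, s × ι, ‹_›, ‹_›, inferInstance, inferInstance, l, m,
    ⟨hm C ((LinearMap.ker π').subtype ∘ₗ e.symm.toLinearMap), hm C π',
      map_inj (Subtype.val_injective.comp e.symm.injective), map_exact he,
      map_surj fun y => (hπ y).elim fun x hx => ⟨β x, (b x).trans hx⟩, fun i u => ?_⟩, fun i => ?_⟩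
  · obtain ⟨y, rfl⟩ := (toHom_bij (C := C)).2 u
    obtain ⟨y, rfl⟩ := map_surj (u := post C (X i) π') (l1 i) y
    exact ⟨toHom C y, rfl⟩
  · have h4 := len_sub_le (LinearMap.ker π')
    rw [length_pi_of_fintype, Fintype.sum_prod_type] at h4
    simp only [← len_cast] at h4
    norm_cast at h4
    have h5 := cl_mem l i
    have h6 := cl_mem m i
    rw [Fintype.card_prod, Fintype.card_coe] at h6
    have h7 := Nat.mul_le_mul_right (Fintype.card ι + ∑ i, len A (X i)) s1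
    have h8 : _ ≤ ∑ _ : s, ∑ i, len A (X i) := hc.trans h4
    rw [sum_const, card_univ, Fintype.card_coe, smul_eq_mul] at h8
    rw [mul_add] at h7
    rw [Pi.sub_apply, abs_le]
    omega

variable (C) in
theorem len_le_mul (G : Type) [AddCommGroup G] [Module A G] [Module C G] [IsScalarTower C A G]
    [Module.Finite A G] {N : ℕ} (h : length A G ≤ N) : len C G ≤ N * len C A := by
  obtain ⟨s, s1, s2⟩ := exists_gen (R := A) (id : G → _) N ((len_sub_le _).trans h)
  simp only [Set.image_eq_range, Submodule.mem_span_range_iff_exists_fun] at s2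
  have := finC C A G
  have := length_le_of_surjective
    ((Fintype.linearCombination A fun i : s => (i : G)).restrictScalars C) s2
  rw [length_pi_of_fintype, sum_const, card_univ, Fintype.card_coe, ← len_cast, ← len_cast,
    nsmul_eq_mul] at this
  norm_cast at this
  exact this.trans (Nat.mul_le_mul_right _ s1)

variable (C) in
theorem exists_fam (hG : ¬ HasGeneric A) (N : ℕ) : ∃ (ι : Type) (_ : Finite ι) (X : ι → Type)
    (_ : ∀ i, AddCommGroup (X i)) (_ : ∀ i, Module A (X i)) (_ : ∀ i, Module C (X i))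
    (_ : ∀ i, IsScalarTower C A (X i)) (_ : ∀ i, Module.Finite A (X i)), (∀ i, Indec A (X i)) ∧
    ∀ (G : Type) [AddCommGroup G] [Module A G] [Module.Finite A G], Indec A G → length A G ≤ N →
      ∃ i, Nonempty (G ≃ₗ[A] X i) := by
  let S := {p : Σ n : ℕ, Submodule A (Fin n → A) //
    Indec A ((Fin p.1 → A) ⧸ p.2) ∧ length A ((Fin p.1 → A) ⧸ p.2) ≤ N}
  let r : Setoid S := ⟨fun p q => Nonempty (((Fin p.1.1 → A) ⧸ p.1.2) ≃ₗ[A] (Fin q.1.1 → A) ⧸ q.1.2),
    fun _ => ⟨.refl _ _⟩, fun ⟨e⟩ => ⟨e.symm⟩, fun ⟨e⟩ ⟨e'⟩ => ⟨e.trans e'⟩⟩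
  refine ⟨Quotient r, not_infinite_iff_finite.1 fun h => hG ?_,
    fun i => (Fin i.out.1.1 → A) ⧸ i.out.1.2, _, _, _, inferInstance, inferInstance,
    fun i => i.out.2.1, fun G _ _ _ h1 h2 => ?_⟩
  · let e := Infinite.natEmbedding (Quotient r)
    exact generic_of_bdd (C := C) (V := fun n => (Fin (e n).out.1.1 → A) ⧸ (e n).out.1.2)
      (fun n => (e n).out.2.1) (fun p q h => ⟨fun e' => h (e.injective
        (Quotient.out_equiv_out.1 ⟨e'⟩))⟩) _ fun n => len_le_mul C _ (e n).out.2.2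
  · obtain ⟨n, ρ, hρ⟩ := Module.Finite.exists_fin' A G
    let e := (ρ.quotKerEquivOfSurjective hρ).symm
    let p : S := ⟨⟨n, LinearMap.ker ρ⟩, h1.congr e, e.length_eq ▸ h2⟩
    obtain ⟨e'⟩ := Quotient.mk_out (s := r) p
    exact ⟨⟦p⟧, ⟨e.trans e'.symm⟩⟩

theorem generic_small (N : ℕ) (h : ∀ k : ℕ, ∃ (Y M : Type) (_ : AddCommGroup Y) (_ : Module A Y)
    (_ : Module.Finite A Y) (_ : AddCommGroup M) (_ : Module A M) (_ : Module C M)
    (_ : IsScalarTower C A M) (_ : Module.Finite A M), Short A N Y ∧ Resolved A Y M ∧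
      k * len C (M →ₗ[A] M) < len C M ^ 2) : HasGeneric A := by
  classical
  by_contra hG
  obtain ⟨ι, _, X, _, _, _, _, _, hI, hX⟩ := exists_fam C hG N
  have := Fintype.ofFinite ι
  obtain ⟨T, hT⟩ : ∃ T : Set ι, ∀ k : ℕ, ∃ (Y M : Type) (_ : AddCommGroup Y) (_ : Module A Y)
      (_ : Module.Finite A Y) (_ : AddCommGroup M) (_ : Module A M) (_ : Module C M)
      (_ : IsScalarTower C A M) (_ : Module.Finite A M), T = {i | Smd A (X i) Y} ∧ Short A N Y ∧
      Resolved A Y M ∧ k * len C (M →ₗ[A] M) < len C M ^ 2 := by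
    by_contra hn
    simp only [not_exists, not_forall] at hn
    choose k hk using hn
    obtain ⟨Y, M, _, _, _, _, _, _, _, _, h1, h2, h3⟩ := h (univ.sup k)
    exact hk _ Y M _ _ inferInstance _ _ _ inferInstance inferInstance ⟨rfl, h1, h2,
      (Nat.mul_le_mul_right _ (le_sup (mem_univ _))).trans_lt h3⟩
  obtain ⟨r, hr⟩ := hom_bound (C := C) A (∀ i : T, X i)
  refine hG (generic_fam (C := C) (fun i : T => X i)
    (r * (Fintype.card T + ∑ i : T, len A (X i))) fun k => ?_)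
  obtain ⟨Y, M, _, _, _, _, _, _, _, _, h0, h1, h2, h3⟩ := hT k
  obtain ⟨σ, τ, _, _, _, _, l, m, D, hD⟩ := res_of (C := C) (X := fun i : T => X i) (fun i => hI i)
    (fun i => (h0.le i.2 :)) (fun G _ _ hG hs => by
      have := hs.fin
      obtain ⟨i, ⟨e⟩⟩ := hX G hG (h1 G hG hs)
      exact ⟨⟨i, h0.ge ((Smd.of_equiv e.symm).trans hs)⟩, ⟨e⟩⟩) h2
  refine ⟨σ, τ, inferInstance, inferInstance, inferInstance, inferInstance, l, m, M, _, _, _,
    inferInstance, inferInstance, D, fun i => (hD i).trans ?_, h3⟩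
  exact_mod_cast (Nat.mul_le_mul_right _ (hr M)).trans_eq (mul_right_comm _ _ _)

end Pool.Agent.MP_bd94e8_al.H83
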