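import Pool.Agent.MP_bd94e8_al.H83.Sub

/-!
Relative resolutions of length one over the Hahn series, and generic resolutions.
-/

set_option autoImplicit false
set_option linter.unusedSectionVars false

namespace Pool.Agent.MP_bd94e8_al.H83

open Module Function Finset H

variable {C : Type} [CommRing C] [IsArtinianRing C] {A : Type} [Ring A] [Algebra C A]
  [Module.Finite C A] {ι : Type} [Fintype ι] [DecidableEq ι] {X : ι → Type}
  [∀ i, AddCommGroup (X i)] [∀ i, Module A (X i)] [∀ i, Module C (X i)]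
  [∀ i, IsScalarTower C A (X i)] [∀ i, Module.Finite A (X i)] {σ τ : Type} [Fintype σ]
  [DecidableEq σ] [Fintype τ] [DecidableEq τ] {l : σ → ι} {m : τ → ι}
  {M B P : Type} [AddCommGroup M] [Module A M] [Module C M] [IsScalarTower C A M]
  [Module.Finite A M] [AddCommGroup B] [Module A B] [Module.Finite A B] [AddCommGroup P]
  [Module A P] [Module.Finite A P]

variable (C A X l m M) in
/-- A resolution over the Hahn series. -/
structure Res where
  η : BH C A (H C (DS X l)) (H C (DS X m))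
  π : BH C A (H C (DS X m)) (H C M)
  inj : Injective η.1
  ex : Exact η.1 π.1
  surj : Surjective π.1
  lift : ∀ i, Surjective (act (X i) π)

variable (C) in
/-- The map on the cokernel functor of `κ` is injective. -/
def Mono (κ : B →ₗ[A] P) (η : BH C A (H C (DS X l)) (H C (DS X m))) : Prop :=
  ∀ ξ, act B η ξ ∈ Ex C _ κ → ξ ∈ Ex C _ κ

namespace Res

variable (D : Res C A X l m M)

theorem act_inj : Injective (act B D.η) := fun _ _ e =>
  LinearMap.ext fun x => D.inj (LinearMap.congr_fun e x)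

theorem act_exact : Exact (act B D.η) (act B D.π) := fun w =>
  ⟨fun h => exists_fac (f := toA D.η.1 D.η.2) D.inj w fun x => (D.ex _).1 (LinearMap.congr_fun h x),
    fun ⟨_, h⟩ => h ▸ LinearMap.ext fun _ => D.ex.apply_apply_eq_zero _⟩

theorem lift_proj [Projective A B] : Surjective (act B D.π) := fun u =>
  projective_lifting_property (toA D.π.1 D.π.2) u D.surj

theorem lift_ds {ρ : Type} [Fintype ρ] [DecidableEq ρ] (k : ρ → ι) :
    Surjective (act (DS X k) D.π) := fun u => by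
  choose v hv using fun s => D.lift (k s) (u ∘ₗ LinearMap.single A (fun s => X (k s)) s)
  refine ⟨∑ s, v s ∘ₗ LinearMap.proj s, LinearMap.ext fun x => ?_⟩
  conv_rhs => rw [← univ_sum_single x, map_sum]
  rw [map_sum, LinearMap.sum_apply]
  exact sum_congr rfl fun s _ => LinearMap.congr_fun (hv s) (x s)

theorem len_of_lift (h : Surjective (act B D.π)) :
    len C (B →ₗ[A] M) = dt (hv C A X B) (cl m - cl l) := by
  have := length_eq_add_of_exact _ _ D.act_inj h D.act_exact
  simp only [← len_cast, len_hom] at this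
  norm_cast at this
  rw [sub_eq_add_neg, dt_add, ← neg_one_smul ℤ, dt_smul, ← len_hv, ← len_hv, this]
  simp

include D in
theorem len_ds {ρ : Type} [Fintype ρ] [DecidableEq ρ] (k : ρ → ι) : len C (DS X k →ₗ[A] M) =
    bf (fun i => hv C A X (X i)) (cl k) (cl m - cl l) := by
  have := (LinearMap.lsum A (fun s => X (k s)) C (M := M)).length_eq
  rw [length_pi_of_fintype, ← len_cast] at this
  simp only [← len_cast] at this
  have h : (len C (DS X k →ₗ[A] M) : ℤ) = ∑ s, (len C (X (k s) →ₗ[A] M) : ℤ) := by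
    exact_mod_cast this.symm
  simp only [h, D.len_of_lift (D.lift _)]
  rw [← dt_cl fun i => dt (hv C A X (X i)) (cl m - cl l)]
  exact sum_congr rfl fun i _ => mul_comm _ _

theorem len_end : bf (fun i => hv C A X (X i)) (cl m - cl l) (cl m - cl l) ≤ len C (M →ₗ[A] M) ∧
    (Surjective (pc (H C M) D.η) →
      bf (fun i => hv C A X (X i)) (cl m - cl l) (cl m - cl l) = len C (M →ₗ[A] M)) := by
  have h1 : bf (fun i => hv C A X (X i)) (cl m - cl l) (cl m - cl l) =
      len C (DS X m →ₗ[A] M) - len C (DS X l →ₗ[A] M) := by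
    simp only [D.len_ds, bf, Pi.sub_apply, sub_mul, sum_sub_distrib]
  have h2 : Exact (pc (H C M) D.π) (pc (H C M) D.η) := fun Φ => ⟨fun h => by
    obtain ⟨Ψ, hΨ⟩ := exists_desc D.surj Φ.1 fun y hy => by
      obtain ⟨x, rfl⟩ := (D.ex y).1 hy
      exact LinearMap.congr_fun (congrArg Subtype.val h) x
    refine ⟨⟨Ψ, fun a y => ?_⟩, Subtype.ext hΨ⟩
    obtain ⟨y, rfl⟩ := D.surj y
    rw [← D.π.2, ← LinearMap.comp_apply, ← LinearMap.comp_apply, hΨ, Φ.2], fun ⟨Ψ, h⟩ =>
      h ▸ Subtype.ext (LinearMap.ext fun y =>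
        (congrArg Ψ.1 (D.ex.apply_apply_eq_zero y)).trans (map_zero _))⟩
  rw [h1]
  refine ⟨?_, fun h => ?_⟩
  · have := len_mid _ _ fun x hx => (h2 x).1 hx
    simp only [length_bh, ← len_cast] at this
    norm_cast at this
    omega
  · have := length_eq_add_of_exact _ _ (fun Φ Ψ e => Subtype.ext (LinearMap.ext fun y => by
      obtain ⟨y, rfl⟩ := D.surj y
      exact LinearMap.congr_fun (congrArg Subtype.val e) y)) h h2
    simp only [length_bh, ← len_cast] at this
    norm_cast at this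
    omega

theorem mono {κ : B →ₗ[A] P} {ρ : P →ₗ[A] ∀ i, X i} (hρ : Surjective ρ) (he : Exact κ ρ) :
    Mono C κ D.η := by
  rintro ξ ⟨b, hb⟩
  obtain ⟨u, hu⟩ := exists_desc hρ (act P D.π b) fun x hx => by
    obtain ⟨y, rfl⟩ := (he x).1 hx
    exact (congrArg D.π.1 (LinearMap.congr_fun hb y)).trans (D.ex.apply_apply_eq_zero _)
  obtain ⟨ψ, rfl⟩ := D.lift_ds id u
  obtain ⟨w, hw⟩ := (D.act_exact (b - ψ ∘ₗ ρ)).1 (by rw [map_sub, ← hu]; exact sub_self _)
  refine ⟨w, LinearMap.ext fun x => D.inj ((LinearMap.congr_fun hw _).trans ?_)⟩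
  rw [LinearMap.sub_apply, LinearMap.comp_apply, he.apply_apply_eq_zero, map_zero, sub_zero]
  exact LinearMap.congr_fun hb x

include D in
theorem hom_max {Q : Type} [AddCommGroup Q] [Module A Q] [Module.Finite A Q] [Projective A P]
    [Projective A Q] {κ : Q →ₗ[A] P} {ρ : P →ₗ[A] B} (hρ : Surjective ρ) (he : Exact κ ρ)
    (h : Surjective (pc (H C M) D.η)) :
    IsGreatest {z | ∃ U, Ex C (H C (∀ i, X i)) κ ≤ U ∧
      z = dt (hv C A X P - wv X U) (cl m - cl l)} (len C (B →ₗ[A] M)) := by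
  have h1 : len C (B →ₗ[A] M) + len C (Q →ₗ[A] M) =
      len C (P →ₗ[A] M) + len (K C) ((Q →ₗ[A] H C M) ⧸ Ex C _ κ) := by
    have a : length (K C) (P →ₗ[A] H C M) = length (K C) (B →ₗ[A] H C M) +
      length (K C) (Ex C (H C M) κ) := length_eq_add_of_exact (LinearMap.lcomp (K C) (H C M) ρ)
      (LinearMap.lcomp (K C) (H C M) κ).rangeRestrict (fun u v e => LinearMap.ext fun x => by
        obtain ⟨y, rfl⟩ := hρ x
        exact LinearMap.congr_fun e y) (LinearMap.surjective_rangeRestrict _) fun u => ⟨fun hu =>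
          exists_desc hρ u fun x hx => by
            obtain ⟨y, rfl⟩ := (he x).1 hx
            exact LinearMap.congr_fun (congrArg Subtype.val hu) y, fun ⟨v, hv⟩ => hv ▸ Subtype.ext
          (LinearMap.ext fun x => (congrArg v (he.apply_apply_eq_zero x)).trans (map_zero _))⟩
    have b := len_sub_quot (Ex C (H C M) κ)
    simp only [← len_cast, len_hom] at a b
    norm_cast at a b
    omega
  have h2 : ∀ U : Submodule (K C) (Q →ₗ[A] H C (∀ i, X i)),
      dt (hv C A X P - wv X U) (cl m - cl l) - len C (B →ₗ[A] M) =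
      len (K C) (_ ⧸ W (H C (DS X m)) U) - len (K C) (_ ⧸ W (H C (DS X l)) U) -
        len (K C) ((Q →ₗ[A] H C M) ⧸ Ex C _ κ) := fun U => by
    have a := len_sub_quot (W (H C (DS X m)) U)
    have b := len_sub_quot (W (H C (DS X l)) U)
    simp only [← len_cast, len_hom] at a b
    norm_cast at a b
    have c := D.len_of_lift (D.lift_proj (B := P))
    have d := D.len_of_lift (D.lift_proj (B := Q))
    have e1 := len_W (X := X) U l
    have e2 := len_W (X := X) U m
    have e3 := len_hv (C := C) (A := A) (X := X) (Ω := Q) l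
    have e4 := len_hv (C := C) (A := A) (X := X) (Ω := Q) m
    simp only [dt, Pi.sub_apply, Int.cast_id, mul_sub, sub_mul, sum_sub_distrib] at *
    omega
  have h3 : (Ex C (H C M) κ).comap (act Q D.π) ≤ Ex C _ κ ⊔ LinearMap.range (act Q D.η) := by
    rintro w ⟨b, hb⟩
    obtain ⟨b, rfl⟩ := D.lift_proj b
    rw [← add_sub_cancel (b ∘ₗ κ) w]
    exact Submodule.add_mem_sup ⟨b, rfl⟩ ((D.act_exact _).1 (by
      rw [map_sub, ← hb]; exact sub_self _))
  constructor
  · have h4 : ∀ {ρ : Type} [Fintype ρ] [DecidableEq ρ] (k : ρ → ι), W (H C (DS X k))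
        (W (H C (∀ i, X i)) (Ex C (H C M) κ)) = W _ (Ex C (H C M) κ) := fun k =>
      le_antisymm (W_le fun _ _ => act_W _) fun _ hw => mem_W.2 fun Φ => act_W Φ hw
    refine ⟨W _ (Ex C (H C M) κ), ex_le_W le_rfl, ?_⟩
    have a := h2 (W _ (Ex C (H C M) κ))
    rw [h4, h4] at a
    have b := len_three ((W _ (Ex C (H C M) κ)).mapQ (W _ (Ex C (H C M) κ)) (act Q D.η)
      fun _ => act_W _) ((W _ (Ex C (H C M) κ)).mapQ (Ex C (H C M) κ) (act Q D.π)
        fun _ hw => mem_W.1 hw _) (by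
        rw [← LinearMap.ker_eq_bot, Submodule.ker_mapQ, eq_bot_iff]
        rintro _ ⟨x, hx, rfl⟩
        refine (Submodule.Quotient.mk_eq_zero _).2 (mem_W.2 fun Φ => ?_)
        obtain ⟨Ψ, rfl⟩ := h Φ
        exact mem_W.1 hx Ψ) (fun y => by
        obtain ⟨y, rfl⟩ := Submodule.mkQ_surjective _ y
        obtain ⟨y, rfl⟩ := D.lift_proj y
        exact ⟨Submodule.mkQ _ y, rfl⟩) fun x => by
        obtain ⟨x, rfl⟩ := Submodule.mkQ_surjective _ x
        exact congrArg (Submodule.mkQ _) (D.act_exact.apply_apply_eq_zero x)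
    have c := (len_rel (act Q D.η) LinearMap.id _ _ fun _ => act_W _).trans (add_le_add le_rfl
      (len_quot_le' _ (h3.trans (sup_le_sup_right (ex_le_W (U := Ex C (H C M) κ) le_rfl) _))))
    simp only [← len_cast] at b c
    norm_cast at b c
    omega
  · rintro _ ⟨U, hU, rfl⟩
    have a := h2 U
    have c := (len_rel (act Q D.η) LinearMap.id _ _ fun _ => act_W _).trans (add_le_add le_rfl
      (len_quot_le' _ (h3.trans (sup_le_sup_right (ex_le_W hU) _))))
    simp only [← len_cast] at c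
    norm_cast at c
    omega

end Res

theorem Mono.cone {κ : B →ₗ[A] P} {η : BH C A (H C (DS X l)) (H C (DS X m))} (h : Mono C κ η)
    {U : Submodule (K C) (B →ₗ[A] H C (∀ i, X i))} (hU : Ex C _ κ ≤ U) :
    0 ≤ dt (wv X U - wv X (Ex C (H C (∀ i, X i)) κ)) (cl m - cl l) := by
  have := len_inj (act B η) (ex_le_W hU) (ex_le_W hU) (fun _ => act_W _) h
  simp only [len_W, len_ex, dt, Pi.sub_apply, Int.cast_id, mul_sub, sub_mul, sum_sub_distrib] at *
  omega

/-- The generic map. -/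
noncomputable def gen {k : ℕ} (h : Fin k → (DS X l →ₗ[A] DS X m)) :
    BH C A (H C (DS X l)) (H C (DS X m)) := ∑ j : Fin k, tv C j • hm C (h j)

theorem gen_apply {k : ℕ} (h : Fin k → (DS X l →ₗ[A] DS X m)) (y : H C (DS X l)) :
    (gen (C := C) h).1 y = ∑ j : Fin k, tv C j • (hm C (h j)).1 y := by simp [gen]

theorem gen_mem {k : ℕ} {h : Fin k → (DS X l →ₗ[A] DS X m)}
    (hs : Submodule.span C (Set.range h) = ⊤) (Z : Submodule (K C) (BH C A _ _))
    (hZ : ∀ j : Fin k, tv C j • hm C (h j) ∈ Z) (Φ) : Φ ∈ Z := by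
  refine bh_mem Z (fun u => ?_) Φ
  induction (hs ▸ trivial : u ∈ Submodule.span C (Set.range h)) using Submodule.span_induction with
  | mem u hu =>
    obtain ⟨j, rfl⟩ := hu
    exact (Submodule.smul_mem_iff_of_isUnit _ (tv_unit j)).1 (hZ j)
  | zero => exact Z.zero_mem
  | add u v _ _ a b => exact Z.add_mem a b
  | smul c u _ a =>
    convert Z.smul_mem (algebraMap C (K C) c) a using 1
    exact Subtype.ext (LinearMap.ext fun y => (algebraMap_smul (K C) c ((hm C u).1 y)).symm)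

theorem gen_mono (κ : B →ₗ[A] P) (d : ℕ) (hd : len C (B →ₗ[A] DS X l) ^ 2 < d)
    (hU : ∀ U, Ex C (H C (∀ i, X i)) κ ≤ U →
      0 < dt (wv X U - wv X (Ex C (H C (∀ i, X i)) κ)) (cl l) →
      0 < dt (wv X U - wv X (Ex C (H C (∀ i, X i)) κ)) (cl m - cl l)) {k : ℕ}
    {h : Fin k → (DS X (fun p : Fin d × σ => l p.2) →ₗ[A] DS X fun p : Fin d × τ => m p.2)}
    (hs : Submodule.span C (Set.range h) = ⊤) : Mono C κ (gen h) := by
  rintro ξ ⟨b, hb⟩
  by_contra h0
  let U := Ex C (H C (∀ i, X i)) κ ⊔ Submodule.span _ (Set.range fun u => act B (hm C u) ξ)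
  have h1 : ξ ∈ W _ U := act_mem fun u => Submodule.mem_sup_right (Submodule.subset_span ⟨u, rfl⟩)
  let pr : Fin d → (DS X (fun p : Fin d × σ => l p.2) →ₗ[A] DS X l) := fun a =>
    LinearMap.pi fun s => LinearMap.proj (a, s)
  let inc : Fin d → (DS X l →ₗ[A] DS X fun p : Fin d × σ => l p.2) := fun a =>
    LinearMap.pi fun p => if p.1 = a then LinearMap.proj p.2 else 0
  let v := fun a => act B (hm C (pr a)) ξ
  obtain ⟨s, s1, s2⟩ := exists_gen (R := K C) v (len C (B →ₗ[A] DS X l))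
    (by rw [← len_hom, len_cast]; exact len_sub_le _)
  simp only [Set.image_eq_range, Submodule.mem_span_range_iff_exists_fun] at s2
  choose c hc using s2
  let γ : (s → (B →ₗ[A] H C (DS X l))) →ₗ[K C] _ :=
    ∑ a, ∑ i, c a i • act B (hm C (inc a)) ∘ₗ LinearMap.proj i
  have h2 : ∀ j, thA C A _ j ∘ₗ ξ ∈ W _ U ⊔ LinearMap.range γ := fun j => by
    have : thA C A _ j ∘ₗ ξ = ∑ a, ∑ i : s, thK j (c a i) • act B (hm C (inc a)) (v i) +
        γ fun i => thA C A _ j ∘ₗ v i := by
      have e : ξ = ∑ a, act B (hm C (inc a)) (v a) := LinearMap.ext fun x => H.ext fun g =>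
        funext fun p => by simp [v, inc, pr, apply_ite, ite_apply]
      conv_lhs => rw [e]
      refine LinearMap.ext fun x => ?_
      simp only [γ, LinearMap.comp_apply, LinearMap.sum_apply, LinearMap.add_apply, map_sum,
        ← sum_add_distrib]
      refine sum_congr rfl fun a _ => ?_
      conv_lhs => rw [← hc a]
      simp [thA_smul, thA_hm, sum_add_distrib]
    rw [this]
    exact Submodule.add_mem_sup (Submodule.sum_mem _ fun a _ => Submodule.sum_mem _ fun i _ =>
      Submodule.smul_mem _ _ (act_W _ (act_W _ h1))) ⟨_, rfl⟩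
  have h3 := len_surj (act B (gen h)) ((ex_le_W (U := U) le_sup_left).trans le_sup_left)
    (W' := W _ U) (W := W _ U ⊔ LinearMap.range γ) (W_le fun u w hw => by
      rw [← Submodule.mem_comap]
      refine (sup_le (fun _ h => ?_) (Submodule.span_le.2 ?_) : U ≤ _) hw
      · exact Submodule.mem_sup_right (act_ex _ h)
      rintro _ ⟨u', rfl⟩
      refine gen_mem hs (Submodule.comap (⟨⟨fun Φ => act B Φ ξ, fun _ _ => rfl⟩, fun _ _ => rfl⟩ :
        _ →ₗ[K C] _) _) (fun j => ?_) (hm C (u ∘ₗ u'))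
      have e : act B (tv C j • hm C (h j)) ξ =
          act B (gen h) (-(thA C A _ j ∘ₗ ξ)) + (thA C A _ j ∘ₗ b) ∘ₗ κ := LinearMap.ext fun x => by
        have := congrArg (thA C A _ j) (LinearMap.congr_fun hb x)
        rw [act_apply, gen_apply, thA_gen] at this
        simp only [thA_hm, ← gen_apply] at this
        simpa [eq_neg_add_iff_add_eq, add_comm] using this.symm
      rw [Submodule.mem_comap, LinearMap.coe_mk, AddHom.coe_mk, e]
      exact Submodule.add_mem_sup ⟨_, neg_mem (h2 j), rfl⟩ ⟨thA C A _ j ∘ₗ b, rfl⟩)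
    fun _ => act_ex _
  have h4 := (len_sup_le (W _ U) (LinearMap.range γ)).trans (add_le_add le_rfl (len_range_le _))
  have h5 := Submodule.height_strictMono (lt_of_le_of_ne (ex_le_W (U := U) le_sup_left)
    fun e => h0 (e ▸ h1))
  rw [length_pi_of_fintype, sum_const, card_univ, Fintype.card_coe] at h4
  simp only [← length_submodule, ← len_cast, len_hom, nsmul_eq_mul] at h4 h5
  norm_cast at h4 h5
  have h6 := Nat.mul_le_mul_right (len C (B →ₗ[A] DS X l)) s1
  have h7 := hU U le_sup_left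
  zify at h3 h4 h5 h6 hd
  simp only [len_W, len_ex, sub_eq_add_neg, dt_add, ← neg_one_smul ℤ (cl l), dt_smul, dt_cl,
    Fintype.sum_prod_type, sum_const, card_univ, Fintype.card_fin, nsmul_eq_mul, Pi.add_apply,
    Pi.neg_apply, sum_add_distrib, sum_neg_distrib] at h3 h4 h5 h7
  have h8 := h7 (by
    have := lt_of_mul_lt_mul_left h5 (Nat.cast_nonneg d)
    linarith)
  nlinarith

theorem exists_res (hG : ¬ HasGeneric A) [Projective A P] {κ : B →ₗ[A] P} {ρ : P →ₗ[A] ∀ i, X i}
    (hρ : Surjective ρ) (he : Exact κ ρ) {k : ℕ} {h : Fin k → (DS X l →ₗ[A] DS X m)}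
    (hs : Submodule.span C (Set.range h) = ⊤) (hm' : Mono C (κ ∘ₗ LinearMap.snd A A B) (gen h)) :
    ∃ (M : Type) (_ : AddCommGroup M) (_ : Module A M) (_ : Module C M) (_ : IsScalarTower C A M)
      (_ : Module.Finite A M) (D : Res C A X l m M), Surjective (pc (H C M) D.η) := by
  have := finC C A (DS X m)
  have hW : ∀ (a : A), ∀ x ∈ LinearMap.range (gen (C := C) h).1,
      a • x ∈ LinearMap.range (gen (C := C) h).1 := by
    rintro a _ ⟨y, rfl⟩
    exact ⟨_, (gen h).2 a y⟩
  obtain ⟨M, _, _, _, _, _, Φ, hA, hΦ⟩ := induced (C := C) hG (len (K C) (H C (DS X m))) (Quo _ hW)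
    (len_cast (R := K C) (U := H C (DS X m)) ▸ length_le_of_surjective _ (Quo.surj _ hW))
  let e := LinearEquiv.ofBijective Φ hΦ
  let π : BH C A (H C (DS X m)) (H C M) := ⟨e.symm.toLinearMap ∘ₗ Quo.mk _ hW, fun a y => hΦ.1 (by
    rw [hA]
    exact (e.apply_symm_apply _).trans ((Quo.smul_mk _ hW a y).trans
      (congrArg _ (e.apply_symm_apply _).symm)))⟩
  have h1 : Injective (gen (C := C) h).1 := (injective_iff_map_eq_zero _).2 fun y hy => by
    obtain ⟨w, hw⟩ := hm' (LinearMap.toSpanSingleton A _ y ∘ₗ LinearMap.fst A A B)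
      ⟨0, LinearMap.ext fun x =>
        (((gen h).2 x.1 y).trans (by rw [hy, smul_zero]; rfl)).symm⟩
    simpa using (LinearMap.congr_fun hw (1, 0)).symm
  have h2 : Exact (gen (C := C) h).1 π.1 := fun y =>
    e.symm.map_eq_zero_iff.trans (Quo.mk_eq_zero _ hW)
  have h3 : Surjective π.1 := e.symm.surjective.comp (Quo.surj _ hW)
  let D : Res C A X l m M := ⟨gen h, π, h1, h2, h3, fun i u => by
    obtain ⟨b, hb⟩ := projective_lifting_property (toA π.1 π.2) (u ∘ₗ LinearMap.proj i ∘ₗ ρ) h3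
    obtain ⟨ξ, hξ⟩ := exists_fac (f := toA _ (gen h).2) h1 (b ∘ₗ κ ∘ₗ LinearMap.snd A A B)
      fun x => (h2 _).1 ((LinearMap.congr_fun hb _).trans (by simp [he.apply_apply_eq_zero]))
    obtain ⟨w, rfl⟩ := hm' ξ ⟨b, hξ.symm⟩
    obtain ⟨ψ, hψ⟩ := exists_desc hρ (b - act P (gen h) w) fun x hx => by
      obtain ⟨y, rfl⟩ := (he x).1 hx
      exact sub_eq_zero.2 (LinearMap.congr_fun hξ (0, y)).symm
    refine ⟨ψ ∘ₗ LinearMap.single A X i, LinearMap.ext fun x => ?_⟩
    obtain ⟨y, hy⟩ := hρ (Pi.single i x)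
    have h4 : π.1 (ψ (ρ y)) = _ := congrArg π.1 (LinearMap.congr_fun hψ y)
    rw [hy, LinearMap.sub_apply, map_sub, act_apply, h2.apply_apply_eq_zero, sub_zero] at h4
    exact h4.trans ((LinearMap.congr_fun hb y).trans (by simp [hy]))⟩
  refine ⟨M, _, _, _, inferInstance, inferInstance, D, fun χ => ?_⟩
  obtain ⟨u, hu⟩ := D.lift_ds l (res C A _ _ χ)
  obtain ⟨χ', rfl⟩ := res_bij.2 u
  obtain rfl : bc π χ' = χ := res_bij.1 hu
  refine gen_mem hs (Submodule.comap (⟨⟨fun Φ => bc π Φ, fun _ _ => Subtype.ext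
    (LinearMap.comp_add _ _ _)⟩, fun _ _ => Subtype.ext (LinearMap.comp_smul _ _ _)⟩ : _ →ₗ[K C] _)
    (LinearMap.range (pc (H C M) (gen h)))) (fun j => ?_) χ'
  obtain ⟨ψ, hψ⟩ := res_bij.2 (-(thA C A M j ∘ₗ res C A _ _ π))
  refine ⟨ψ, res_bij.1 (LinearMap.ext fun y => ?_)⟩
  have h4 := congrArg (thA C A M j) (h2.apply_apply_eq_zero (sgl C _ A y))
  have h5 : ∀ x, ψ.1 (sgl C _ A x) = -thA C A M j (π.1 (sgl C _ A x)) := LinearMap.congr_fun hψ
  rw [gen_apply, map_sum] at h4
  simp only [map_smul, thA_gen, map_zero, hm_sgl] at h4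
  change ψ.1 ((gen h).1 _) = π.1 (tv C j • (hm C (h j)).1 _)
  simp only [gen_apply, map_sum, map_smul, hm_sgl, h5, smul_neg, sum_neg_distrib]
  exact (eq_neg_of_add_eq_zero_left h4).symm

end Pool.Agent.MP_bd94e8_al.H83
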