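import Pool.Agent.MP_bd94e8_al.H83.Lim
import Pool.Agent.MP_bd94e8_al.H83.Quad

/-!
Maps of bimodules and subfunctors of finitely presented functors.
-/

set_option autoImplicit false
set_option linter.unusedSectionVars false

namespace Pool.Agent.MP_bd94e8_al.H83

open Module Function Finset H

section
variable {R : Type} [Ring R] {E F G : Type} [AddCommGroup E] [Module R E] [AddCommGroup F]
  [Module R F] [AddCommGroup G] [Module R G]

theorem len_sq {P W : Submodule R E} (h : P ≤ W) :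
    length R W = length R P + length R (W ⧸ P.comap W.subtype) := by
  rw [len_sub_quot (P.comap W.subtype), (Submodule.comapSubtypeEquivOfLe h).length_eq]

theorem len_three (α : G →ₗ[R] E) (β : E →ₗ[R] F) (ha : Injective α) (hb : Surjective β)
    (h : ∀ x, β (α x) = 0) : length R G + length R F ≤ length R E := by
  rw [len_ker_range β, LinearMap.range_eq_top.2 hb, length_top]
  exact add_le_add (length_le_of_injective (α.codRestrict _ h) fun a b e =>
    ha (congrArg Subtype.val e)) le_rfl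

theorem len_sup_le (P W : Submodule R E) : length R ↥(P ⊔ W) ≤ length R P + length R W := by
  rw [← length_prod, ← Submodule.range_subtype P, ← Submodule.range_subtype W,
    ← LinearMap.range_coprod, Submodule.range_subtype, Submodule.range_subtype]
  exact len_range_le _

variable [IsArtinian R E] [IsNoetherian R E] [IsArtinian R F] [IsNoetherian R F]

theorem len_inj (f : E →ₗ[R] F) {P W : Submodule R E} {P' W' : Submodule R F} (h : P ≤ W)
    (h' : P' ≤ W') (hW : ∀ x ∈ W, f x ∈ W') (hP : ∀ x, f x ∈ P' → x ∈ P) :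
    (len R W : ℤ) - len R P ≤ len R W' - len R P' := by
  have a := len_sq h
  have b := len_sq h'
  have c := len_quot_le' (W := P.comap W.subtype) (W' := P'.comap W'.subtype) (f.restrict hW)
    fun x hx => hP x hx
  simp only [← len_cast] at a b c
  norm_cast at a b c
  omega

theorem len_surj (f : E →ₗ[R] F) {P W : Submodule R E} {P' W' : Submodule R F} (h : P ≤ W)
    (hW : W' ≤ W.map f ⊔ P') (hP : ∀ x ∈ P, f x ∈ P') :
    len R W' + len R P ≤ len R W + len R P' := by
  have a := len_sq h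
  have b := len_sq (le_sup_right : P' ≤ W.map f ⊔ P')
  have c := len_rel' (((f ∘ₗ W.subtype).coprod P'.subtype).codRestrict (W.map f ⊔ P') fun x =>
    Submodule.add_mem_sup ⟨_, x.1.2, rfl⟩ x.2.2) (LinearMap.fst _ _ _)
    (P'.comap (Submodule.subtype _)) (P.comap W.subtype) (by
      rintro ⟨_, hx⟩
      obtain ⟨_, ⟨x, h1, rfl⟩, y, h2, rfl⟩ := Submodule.mem_sup.1 hx
      exact ⟨(⟨x, h1⟩, ⟨y, h2⟩), rfl⟩) fun x hx => P'.add_mem (hP _ hx) x.2.2
  have d := len_mono hW
  simp only [← len_cast] at a b c d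
  norm_cast at a b c d
  omega

end

variable {C : Type} [CommRing C] [IsArtinianRing C] {A : Type} [Ring A] [Algebra C A]
  [Module.Finite C A]

section
variable {N N' N'' : Type} [AddCommGroup N] [Module A N] [Module (K C) N] [SMulCommClass A (K C) N]
  [AddCommGroup N'] [Module A N'] [Module (K C) N'] [SMulCommClass A (K C) N']
  [AddCommGroup N''] [Module A N''] [Module (K C) N''] [SMulCommClass A (K C) N'']
  {Ω P : Type} [AddCommGroup Ω] [Module A Ω] [AddCommGroup P] [Module A P]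

variable (C A N N') in
/-- Maps of bimodules. -/
def BH : Submodule (K C) (N →ₗ[K C] N') where
  carrier := {Φ | ∀ (a : A) y, Φ (a • y) = a • Φ y}
  zero_mem' := by simp
  add_mem' {a b} ha hb c y := by simp [ha c y, hb c y]
  smul_mem' c Φ h a y := by simp [h a y, smul_comm a c]

/-- Composition. -/
noncomputable def bc (Ψ : BH C A N' N'') (Φ : BH C A N N') : BH C A N N'' :=
  ⟨Ψ.1 ∘ₗ Φ.1, fun a y => (congrArg Ψ.1 (Φ.2 a y)).trans (Ψ.2 a _)⟩

variable (N'') in
/-- Composition on the source. -/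
noncomputable def pc (Φ : BH C A N N') : BH C A N' N'' →ₗ[K C] BH C A N N'' :=
  ⟨⟨fun Ψ => bc Ψ Φ, fun _ _ => rfl⟩, fun _ _ => rfl⟩

variable (Ω) in
/-- The action on maps from `Ω`. -/
def act (Φ : BH C A N N') : (Ω →ₗ[A] N) →ₗ[K C] (Ω →ₗ[A] N') :=
  ⟨⟨fun w => toA Φ.1 Φ.2 ∘ₗ w, fun _ _ => LinearMap.comp_add _ _ _⟩, fun c _ =>
    LinearMap.ext fun _ => Φ.1.map_smul c _⟩

@[simp] theorem act_apply (Φ : BH C A N N') (w : Ω →ₗ[A] N) (x : Ω) : act Ω Φ w x = Φ.1 (w x) := rfl

variable (C N) in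
/-- Maps that extend along `κ`. -/
noncomputable def Ex (κ : Ω →ₗ[A] P) : Submodule (K C) (Ω →ₗ[A] N) :=
  LinearMap.range (LinearMap.lcomp (K C) N κ)

theorem act_ex {κ : Ω →ₗ[A] P} (Φ : BH C A N N') {w : Ω →ₗ[A] N} (h : w ∈ Ex C N κ) :
    act Ω Φ w ∈ Ex C N' κ := by
  obtain ⟨b, rfl⟩ := h
  exact ⟨act P Φ b, rfl⟩

variable (N) in
/-- The largest subfunctor with value inside `U`. -/
noncomputable def W (U : Submodule (K C) (Ω →ₗ[A] N')) : Submodule (K C) (Ω →ₗ[A] N) :=
  ⨅ Φ : BH C A N N', U.comap (act Ω Φ)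

theorem mem_W {U : Submodule (K C) (Ω →ₗ[A] N')} {w : Ω →ₗ[A] N} :
    w ∈ W N U ↔ ∀ Φ : BH C A N N', act Ω Φ w ∈ U := Submodule.mem_iInf _

theorem act_W {U : Submodule (K C) (Ω →ₗ[A] N'')} (Φ : BH C A N N') {w : Ω →ₗ[A] N}
    (h : w ∈ W N U) : act Ω Φ w ∈ W N' U := mem_W.2 fun Ψ => mem_W.1 h (bc Ψ Φ)

theorem ex_le_W {κ : Ω →ₗ[A] P} {U : Submodule (K C) (Ω →ₗ[A] N')} (h : Ex C N' κ ≤ U) :
    Ex C N κ ≤ W N U := fun _ hw => mem_W.2 fun Φ => h (act_ex Φ hw)

end

section
variable {Y Y' Ω : Type} [AddCommGroup Y] [Module A Y] [Module C Y] [IsScalarTower C A Y]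
  [AddCommGroup Y'] [Module A Y'] [Module C Y'] [IsScalarTower C A Y'] [AddCommGroup Ω] [Module A Ω]

variable (C) in
/-- The induced map. -/
noncomputable def hm (h : Y →ₗ[A] Y') : BH C A (H C Y) (H C Y') :=
  ⟨map (h.restrictScalars C), fun a y => H.ext fun g => h.map_smul a (y.cf g)⟩

@[simp] theorem cf_hm (h : Y →ₗ[A] Y') (y : H C Y) (g : Gam) :
    ((hm C h).1 y).cf g = h (y.cf g) := rfl

theorem hm_sgl (h : Y →ₗ[A] Y') (y : Y) : (hm C h).1 (sgl C Y A y) = sgl C Y' A (h y) :=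
  map_sgl (h.restrictScalars C) y

variable (C A Y) in
/-- The connection. -/
noncomputable def thA (j : ℕ) : H C Y →ₗ[A] H C Y :=
  ⟨(th j).toAddHom, fun _ _ => H.ext fun _ => smul_comm _ _ _⟩

theorem thA_smul (j : ℕ) (c : K C) (y : H C Y) :
    thA C A Y j (c • y) = thK j c • y + c • thA C A Y j y := th_smul j c y

theorem thA_hm (j : ℕ) (h : Y →ₗ[A] Y') (y : H C Y) :
    thA C A Y' j ((hm C h).1 y) = (hm C h).1 (thA C A Y j y) := th_map j _ y

theorem thA_gen {k : ℕ} (j : Fin k) (y : Fin k → H C Y) :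
    thA C A Y j (∑ i : Fin k, tv C i • y i) =
      tv C j • y j + ∑ i : Fin k, tv C i • thA C A Y j (y i) := by
  simp only [map_sum, thA_smul, thK_tv, sum_add_distrib, ite_smul, zero_smul, Fin.val_inj,
    sum_ite_eq, mem_univ, if_true]

variable [Module.Finite A Y] [Module.Finite A Y'] [Module.Finite A Ω]

theorem length_hom : length (K C) (Ω →ₗ[A] H C Y) = length C (Ω →ₗ[A] Y) :=
  (LinearEquiv.ofBijective _ (toHom_bij (C := C) (A := A) (B := Ω) (M := Y))).length_eq.symm.trans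
    len_eq

theorem len_hom : len (K C) (Ω →ₗ[A] H C Y) = len C (Ω →ₗ[A] Y) := congrArg ENat.toNat length_hom

instance : IsNoetherian (K C) (Ω →ₗ[A] H C Y) :=
  (fin_len (by rw [length_hom]; exact length_ne_top)).1

instance : IsArtinian (K C) (Ω →ₗ[A] H C Y) :=
  (fin_len (by rw [length_hom]; exact length_ne_top)).2

variable (C A Y Y') in
/-- Restriction to constant series. -/
noncomputable def res : BH C A (H C Y) (H C Y') →ₗ[K C] (Y →ₗ[A] H C Y') :=
  ⟨⟨fun Φ => act Y Φ (sgl C Y A), fun _ _ => rfl⟩, fun _ _ => rfl⟩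

@[simp] theorem res_apply (Φ : BH C A (H C Y) (H C Y')) (y : Y) :
    res C A Y Y' Φ y = Φ.1 (sgl C Y A y) := rfl

theorem res_bij : Bijective (res C A Y Y') := by
  have := finC C A Y
  refine ⟨fun Φ Ψ e => Subtype.ext (hom_ext (A := A) (LinearMap.congr_fun e)), fun u => ?_⟩
  obtain ⟨Φ, h1, h2⟩ := exists_extA (C := C) u
  exact ⟨⟨Φ, h1⟩, LinearMap.ext h2⟩

theorem length_bh : length (K C) (BH C A (H C Y) (H C Y')) = length C (Y →ₗ[A] Y') :=
  (LinearEquiv.ofBijective _ res_bij).length_eq.trans length_hom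

theorem bh_mem (Z : Submodule (K C) (BH C A (H C Y) (H C Y'))) (h : ∀ u, hm C u ∈ Z)
    (Φ : BH C A (H C Y) (H C Y')) : Φ ∈ Z := by
  obtain ⟨y, hy⟩ := (toHom_bij (C := C)).2 (res C A Y Y' Φ)
  obtain ⟨Ψ, h1, h2⟩ := mem_of_cf (A := C) ⊤ ((Z.map (res C A Y Y')).comap (toHom C))
    (fun u _ => ⟨_, h u, (LinearMap.ext (hm_sgl u)).trans (toHom_sgl u).symm⟩) y fun _ => trivial
  exact res_bij.1 (h2.trans hy) ▸ h1

theorem act_mem {w : Ω →ₗ[A] H C Y} {U : Submodule (K C) (Ω →ₗ[A] H C Y')}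
    (h : ∀ u, act Ω (hm C u) w ∈ U) : w ∈ W (H C Y) U := mem_W.2 fun Φ =>
  bh_mem (U.comap (⟨⟨fun Φ => act Ω Φ w, fun _ _ => rfl⟩, fun _ _ => rfl⟩ : _ →ₗ[K C] _)) h Φ

end

variable {ι : Type} [Fintype ι] [DecidableEq ι] {X : ι → Type} [∀ i, AddCommGroup (X i)]
  [∀ i, Module A (X i)] [∀ i, Module C (X i)] [∀ i, IsScalarTower C A (X i)]
  [∀ i, Module.Finite A (X i)] {σ : Type} [Fintype σ] [DecidableEq σ]
  {Ω P : Type} [AddCommGroup Ω] [Module A Ω] [Module.Finite A Ω] [AddCommGroup P] [Module A P]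

/-- The class of a labelled family. -/
def cl (l : σ → ι) : ι → ℤ := fun i => ∑ s, if l s = i then 1 else 0

theorem dt_cl (u : ι → ℤ) (l : σ → ι) : dt u (cl l) = ∑ s, u (l s) := by
  simp only [dt, cl, mul_sum]
  rw [sum_comm]
  simp

variable (X) in
/-- The direct sum of a labelled family. -/
abbrev DS (l : σ → ι) : Type := ∀ s, X (l s)

section
variable {N : Type} [AddCommGroup N] [Module A N] [Module (K C) N] [SMulCommClass A (K C) N]

variable (X) in
/-- The dimension vector of a subfunctor. -/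
noncomputable def wv (U : Submodule (K C) (Ω →ₗ[A] N)) : ι → ℤ :=
  fun i => len (K C) (W (H C (X i)) U)

theorem len_W (U : Submodule (K C) (Ω →ₗ[A] N)) (l : σ → ι) :
    len (K C) (W (H C (DS X l)) U) = dt (wv X U) (cl l) := by
  have := (LinearEquiv.ofBijective (LinearMap.pi fun s => (act Ω (hm C (LinearMap.proj s :
    DS X l →ₗ[A] X (l s)))).restrict (p := W _ U) (q := W _ U) fun _ => act_W _)
    ⟨fun v w e => Subtype.ext (LinearMap.ext fun x => H.ext fun g => funext fun s =>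
      congrArg (fun z : W (H C (X (l s))) U => (z.1 x).cf g) (congrFun e s)), fun v =>
      ⟨⟨∑ s, act Ω (hm C (LinearMap.single A (fun s => X (l s)) s)) (v s),
        Submodule.sum_mem _ fun s _ => act_W _ (v s).2⟩, funext fun s => Subtype.ext
        (LinearMap.ext fun x => H.ext fun g => by simp)⟩⟩).length_eq
  rw [length_pi_of_fintype, ← len_cast] at this
  simp only [← len_cast] at this
  simp only [dt_cl, wv]
  exact_mod_cast this

end

theorem W_le {U : Submodule (K C) (Ω →ₗ[A] H C (∀ i, X i))} {l : σ → ι}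
    {V : Submodule (K C) (Ω →ₗ[A] H C (DS X l))}
    (h : ∀ (k : (∀ i, X i) →ₗ[A] DS X l), ∀ u ∈ U, act Ω (hm C k) u ∈ V) : W _ U ≤ V := by
  intro w hw
  rw [show w = ∑ s, act Ω (hm C (LinearMap.single A (fun s => X (l s)) s ∘ₗ LinearMap.proj (l s)))
    (act Ω (hm C (LinearMap.single A X (l s) ∘ₗ LinearMap.proj s)) w) from
    LinearMap.ext fun x => H.ext fun g => by simp [univ_sum_single]]
  exact V.sum_mem fun s _ => h _ _ (mem_W.1 hw _)

theorem len_ex (κ : Ω →ₗ[A] P) (l : σ → ι) : len (K C) (Ex C (H C (DS X l)) κ) =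
    dt (wv X (Ex C (H C (∀ i, X i)) κ)) (cl l) := by
  rw [← len_W, le_antisymm (W_le fun k u => act_ex _) (ex_le_W le_rfl)]

variable (C A X) in
/-- The dimension vector of a representable functor. -/
noncomputable def hv (B : Type) [AddCommGroup B] [Module A B] : ι → ℤ :=
  fun i => len C (B →ₗ[A] X i)

theorem len_hv (l : σ → ι) : len C (Ω →ₗ[A] DS X l) = dt (hv C A X Ω) (cl l) := by
  have := (LinearEquiv.linearMapPi (R := A) (M₂ := Ω) (φ := fun s => X (l s)) C).length_eq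
  rw [length_pi_of_fintype, ← len_cast] at this
  simp only [← len_cast] at this
  simp only [dt_cl, hv]
  exact_mod_cast this.symm

theorem wv_mem {N : Type} [AddCommGroup N] [Module A N] [Module (K C) N] [SMulCommClass A (K C) N]
    (U : Submodule (K C) (Ω →ₗ[A] N)) : wv X U ∈ Set.Icc 0 (hv C A X Ω) :=
  ⟨fun i => Nat.cast_nonneg _, fun i => by
    rw [hv, ← len_hom]
    exact Nat.cast_le.2 (len_le_len.2 (len_sub_le _))⟩

end Pool.Agent.MP_bd94e8_al.H83
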